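import Pool.Agent.NPC.Col

/-!
# NP languages reduce to k-colourability, as polynomial time families of graphs
-/

namespace Pool.NPC

open Pool.NPC.Col

section

variable {α : Type} [Enc α]

theorem PT.half (k : ℕ) {nv nc x a y b : α → ℕ} {l : α → ℕ → ℕ → ℕ} (hnv : PT nv) (hnc : PT nc)
    (hx : PT x) (ha : PT a) (hy : PT y) (hb : PT b)
    (hl : ∀ {f : α → ℕ} (d : ℕ), PT f → PT (fun s => l s (f s) d)) :
    PT (fun s => Col.half k (nv s) (nc s) (l s) (x s) (a s) (y s) (b s)) := by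
  unfold Col.half
  have x0 := PT.beq hx (PT.const 0)
  have x1 := PT.beq hx (PT.const 1)
  have x2 := PT.beq hx (PT.const 2)
  have x3 := PT.beq hx (PT.const 3)
  have x4 := PT.beq hx (PT.const 4)
  have x5 := PT.beq hx (PT.const 5)
  have y0 := PT.beq hy (PT.const 0)
  have y1 := PT.beq hy (PT.const 1)
  have y2 := PT.beq hy (PT.const 2)
  have y3 := PT.beq hy (PT.const 3)
  have y4 := PT.beq hy (PT.const 4)
  have y5 := PT.beq hy (PT.const 5)
  have y6 := PT.beq hy (PT.const 6)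
  have ak := PT.lt ha (PT.const k)
  have bk := PT.lt hb (PT.const k)
  have bnc := PT.lt hb hnc
  have h2nv := PT.mul (PT.const 2) hnv
  refine PT.or (PT.or (PT.or (PT.or (PT.or (PT.or (PT.or (PT.or ?_ ?_) ?_) ?_) ?_) ?_) ?_) ?_) ?_
  · exact PT.and (PT.and (PT.and (PT.and x0 y0) ak) bk) (PT.bne ha hb)
  · exact PT.and (PT.and (PT.and (PT.and x0 y1) ak) (PT.le (PT.const 2) ha)) (PT.lt hb h2nv)
  · exact PT.and (PT.and (PT.and (PT.and x0 (PT.le (PT.const 2) hy)) ak)
      (PT.le (PT.const 3) ha)) bnc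
  · exact PT.and (PT.and (PT.and x0 (PT.le (PT.const 5) hy)) (PT.beq ha (PT.const 0))) bnc
  · exact PT.and (PT.and (PT.and (PT.and (PT.and x1 y1) (PT.lt ha h2nv)) (PT.lt hb h2nv))
      (PT.beq (PT.div ha (PT.const 2)) (PT.div hb (PT.const 2)))) (PT.bne ha hb)
  · exact PT.and (PT.and (PT.and x1 y2) bnc) (PT.beq ha (hl 0 hb))
  · exact PT.and (PT.and (PT.and x1 y3) bnc) (PT.beq ha (hl 1 hb))
  · exact PT.and (PT.and (PT.and x1 y6) bnc) (PT.beq ha (hl 2 hb))
  · exact PT.and (PT.and (PT.beq ha hb) bnc) (PT.or (PT.or (PT.or (PT.or (PT.and x2 y3)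
      (PT.and x2 y4)) (PT.and x3 y4)) (PT.and x4 y5)) (PT.and x5 y6))

end

/-- every NP language reduces to k-colourability (`k ≥ 3`): there is a polynomial time computable
family of graphs `(n s, adj s)`, `k`-colourable exactly for the members `s` of the language -/
theorem colFamily (k : ℕ) (hk : 3 ≤ k) (A : Set (List Bool)) (hA : InNP A) :
    ∃ (n : List Bool → ℕ) (adj : List Bool × (ℕ × ℕ) → Bool), PT n ∧ PT adj ∧
      (∀ s u v, adj (s, (u, v)) = adj (s, (v, u))) ∧ (∀ s u, adj (s, (u, u)) = false) ∧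
      (∀ s u v, adj (s, (u, v)) = true → u < n s) ∧
      ∀ s, s ∈ A ↔ ∃ col : ℕ → Fin k, ∀ u v, adj (s, (u, v)) = true → col u ≠ col v := by
  obtain ⟨nv, nc, lit, hnv, hnc, hlit, hlt, hA⟩ := cookLevin A hA
  refine ⟨fun s => nG k (nv s) (nc s),
    fun a => colAdj k (nv a.1) (nc a.1) (fun c d => lit (a.1, (c, d))) a.2.1 a.2.2,
    ?_, ?_, ?_, ?_, ?_, ?_⟩
  · unfold nG
    exact PT.mul (PT.const 7) (PT.add (PT.add (PT.mul (PT.const 2) hnv) hnc) (PT.const k))
  · unfold colAdj nG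
    have hs : PT (fun a : List Bool × (ℕ × ℕ) => a.1) := PT.fst
    have hu : PT (fun a : List Bool × (ℕ × ℕ) => a.2.1) := PT.fst' PT.snd
    have hv : PT (fun a : List Bool × (ℕ × ℕ) => a.2.2) := PT.snd' PT.snd
    have hnv' := PT.comp hnv hs
    have hnc' := PT.comp hnc hs
    have hN := PT.mul (PT.const 7) (PT.add (PT.add (PT.mul (PT.const 2) hnv') hnc') (PT.const k))
    have hl : ∀ {f : List Bool × (ℕ × ℕ) → ℕ} (d : ℕ), PT f →
        PT (fun a : List Bool × (ℕ × ℕ) => lit (a.1, (f a, d))) := fun d hf =>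
      PT.comp hlit (PT.pair hs (PT.pair hf (PT.const d)))
    have h7 := fun {f : List Bool × (ℕ × ℕ) → ℕ} (hf : PT f) => PT.mod hf (PT.const 7)
    have d7 := fun {f : List Bool × (ℕ × ℕ) → ℕ} (hf : PT f) => PT.div hf (PT.const 7)
    exact PT.and (PT.and (PT.lt hu hN) (PT.lt hv hN))
      (PT.or (PT.half k hnv' hnc' (h7 hu) (d7 hu) (h7 hv) (d7 hv) hl)
        (PT.half k hnv' hnc' (h7 hv) (d7 hv) (h7 hu) (d7 hu) hl))
  · intro s u v
    exact colAdj_symm _ _ _ _ _ _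
  · intro s u
    exact colAdj_irrefl _ _ _ _ _
  · intro s u v h
    exact colAdj_lt _ _ _ _ _ _ h
  · intro s
    rw [hA s]
    exact sat3_iff_colorable k _ _ hk _ fun c hc d _ => hlt s c hc d

end Pool.NPC
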