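import Pool.Agent.NPC.Arith

/-!
# More closure properties of `PT`
-/

namespace Pool.NPC

open Tr Polynomial Enc

variable {α β γ : Type} [Enc α] [Enc β] [Enc γ]

/-- finite disjunctions -/
theorem PT.anyList {ι : Type} (l : List ι) {p : α → ι → Bool}
    (h : ∀ i ∈ l, PT (fun a => p a i)) : PT (fun a => l.any (p a)) := by
  induction l with
  | nil => exact (PT.const false).congr fun a => rfl
  | cons i l ih =>
    exact (PT.or (h i (by simp)) (ih fun j hj => h j (by simp [hj]))).congr fun a => by
      rw [List.any_cons]

/-- finite conjunctions -/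
theorem PT.allList {ι : Type} (l : List ι) {p : α → ι → Bool}
    (h : ∀ i ∈ l, PT (fun a => p a i)) : PT (fun a => l.all (p a)) := by
  induction l with
  | nil => exact (PT.const true).congr fun a => rfl
  | cons i l ih =>
    exact (PT.and (h i (by simp)) (ih fun j hj => h j (by simp [hj]))).congr fun a => by
      rw [List.all_cons]

/-- conditionals on a bit -/
theorem PT.cond {b : α → Bool} {f g : α → β} (hb : PT b) (hf : PT f) (hg : PT g) :
    PT (fun a => if b a = true then f a else g a) :=
  PT.ite (hb.congr fun a => by simp) hf hg

/-- counting -/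
theorem PT.count {n : α → ℕ} {p : α × ℕ → Bool} (hn : PT n) (hp : PT p) :
    PT (fun a => (List.range (n a)).countP fun i => p (a, i)) := by
  obtain ⟨Rn, hRn⟩ := hn.size
  have key : ∀ a i, Nat.rec (motive := fun _ => ℕ) 0
      (fun i s => if p (a, i) = true then s + 1 else s) i =
      (List.range i).countP fun i => p (a, i) := by
    intro a i
    induction i with
    | zero => rfl
    | succ i ih =>
      show (if p (a, i) = true then Nat.rec (motive := fun _ => ℕ) 0
        (fun i s => if p (a, i) = true then s + 1 else s) i + 1 else Nat.rec (motive := fun _ => ℕ) 0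
        (fun i s => if p (a, i) = true then s + 1 else s) i) = _
      rw [ih, List.range_succ, List.countP_append]
      by_cases h : p (a, i) = true <;> simp [h]
  refine (PT.natRec (z := fun _ => 0) (g := fun x => if p (x.1, x.2.1) = true then x.2.2 + 1
    else x.2.2) hn (PT.const 0) ?_ Rn ?_).congr ?_
  · exact PT.cond (PT.comp hp (PT.pair (PT.fst' PT.id) (PT.fst' (PT.snd' PT.id))))
      (PT.succ (PT.snd' (PT.snd' PT.id))) (PT.snd' (PT.snd' PT.id))
  · intro a i hi
    show sz (Nat.rec (motive := fun _ => ℕ) 0
      (fun i s => if p (a, i) = true then s + 1 else s) i) ≤ _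
    rw [key, sz_nat]
    have h1 : (List.range i).countP (fun i => p (a, i)) ≤ i := by
      simpa using List.countP_le_length (l := List.range i) (p := fun i => p (a, i))
    have h2 : n a ≤ Rn.eval (sz a) := by simpa using hRn a
    omega
  · intro a
    exact (key a (n a)).symm

end Pool.NPC
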