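import Pool.Agent.NPC.Fold

/-!
# Arithmetic, loops, tables in `PT`
-/

namespace Pool.NPC

open Tr Polynomial Enc

variable {α β γ : Type} [Enc α] [Enc β] [Enc γ]

theorem PT.congr {f g : α → β} (hf : PT f) (h : ∀ a, g a = f a) : PT g := by
  have : g = f := funext h
  rw [this]; exact hf

theorem PT.fst' {f : α → β × γ} (hf : PT f) : PT (fun a => (f a).1) := PT.comp PT.fst hf
theorem PT.snd' {f : α → β × γ} (hf : PT f) : PT (fun a => (f a).2) := PT.comp PT.snd hf

/-! ### booleans -/

theorem PT.ite {p : α → Prop} [DecidablePred p] {f g : α → β} (hp : PT (fun a => decide (p a)))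
    (hf : PT f) (hg : PT g) : PT (fun a => if p a then f a else g a) := by
  refine (PT.caseBit hp hf hg).congr fun a => ?_
  by_cases h : p a <;> simp [h]

theorem PT.and {f g : α → Bool} (hf : PT f) (hg : PT g) : PT (fun a => f a && g a) := by
  refine (PT.caseBit hf hg (PT.const false)).congr fun a => ?_
  cases f a <;> simp

theorem PT.or {f g : α → Bool} (hf : PT f) (hg : PT g) : PT (fun a => f a || g a) := by
  refine (PT.caseBit hf (PT.const true) hg).congr fun a => ?_
  cases f a <;> simp

theorem PT.not {f : α → Bool} (hf : PT f) : PT (fun a => !(f a)) := by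
  refine (PT.caseBit hf (PT.const false) (PT.const true)).congr fun a => ?_
  cases f a <;> simp

theorem PT.beqBool {f g : α → Bool} (hf : PT f) (hg : PT g) : PT (fun a => f a == g a) := by
  refine (PT.caseBit hf hg (PT.not hg)).congr fun a => ?_
  cases f a <;> cases g a <;> rfl

/-! ### unary numbers -/

theorem PT.replicate {f : α → ℕ} (hf : PT f) : PT (fun a => List.replicate (f a) true) :=
  PT.comp (PT.ident (f := fun n : ℕ => List.replicate n true) rfl fun _ => rfl) hf

theorem PT.ofReplicate {f : α → List Bool} {g : α → ℕ} (hf : PT f)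
    (h : ∀ a, List.replicate (g a) true = f a) : PT g :=
  hf.of_enc_eq rfl fun a => by
    show Tr.leaf (List.replicate (g a) true) = Tr.leaf (f a)
    rw [h]

theorem PT.succ {f : α → ℕ} (hf : PT f) : PT (fun a => f a + 1) :=
  PT.ofReplicate (PT.comp (PT.consBit true) hf.replicate) fun a => by
    rw [List.replicate_succ]

theorem PT.pred {f : α → ℕ} (hf : PT f) : PT (fun a => f a - 1) :=
  PT.ofReplicate (PT.comp PT.tail hf.replicate) fun a => by simp

theorem PT.isZero {f : α → ℕ} (hf : PT f) : PT (fun a => decide (f a = 0)) := by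
  refine (PT.comp (PT.headCase (fun o => o.isNone)) hf.replicate).congr fun a => ?_
  cases f a <;> simp [List.replicate_succ]

/-- primitive recursion with polynomially bounded intermediate values -/
theorem PT.natRec {n : α → ℕ} {z : α → β} {g : α × (ℕ × β) → β} (hn : PT n) (hz : PT z)
    (hg : PT g) (Q : ℕ[X])
    (hQ : ∀ a i, i ≤ n a →
      sz (Nat.rec (motive := fun _ => β) (z a) (fun i s => g (a, (i, s))) i) ≤ Q.eval (sz a)) :
    PT (fun a => Nat.rec (motive := fun _ => β) (z a) (fun i s => g (a, (i, s))) (n a)) := by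
  obtain ⟨Rn, hRn⟩ := hn.size
  let step : α × (Bool × (ℕ × β)) → ℕ × β := fun x => (x.2.2.1 + 1, g (x.1, (x.2.2.1, x.2.2.2)))
  have hstep : PT step := PT.pair (PT.succ (PT.fst' (PT.snd' (PT.snd' PT.id))))
    (PT.comp hg (PT.pair (PT.fst' PT.id) (PT.pair (PT.fst' (PT.snd' (PT.snd' PT.id)))
      (PT.snd' (PT.snd' (PT.snd' PT.id))))))
  have key : ∀ a i, (List.replicate i true).foldl (fun s b => step (a, (b, s))) (0, z a) =
      (i, Nat.rec (motive := fun _ => β) (z a) (fun i s => g (a, (i, s))) i) := by
    intro a i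
    induction i with
    | zero => rfl
    | succ i ih =>
      rw [List.replicate_succ', List.foldl_append, ih]
      rfl
  have h := PT.foldl (hn.replicate) (PT.pair (PT.const 0) hz) hstep (Rn + Q) (by
    intro a l1 hl1
    have hl2 : l1 = List.replicate l1.length true := by
      rw [List.eq_replicate_iff]
      exact ⟨rfl, fun b hb => List.eq_of_mem_replicate (hl1.subset hb)⟩
    have hlen : l1.length ≤ n a := by
      have := hl1.length_le
      simpa using this
    rw [hl2]
    have := key a l1.length
    show sz ((List.replicate l1.length true).foldl (fun s b => step (a, (b, s))) (0, z a)) ≤ _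
    rw [this]
    simp only [sz_prod, sz_nat, eval_add]
    have h1 := hQ a _ hlen
    have h2 : n a ≤ Rn.eval (sz a) := by simpa using hRn a
    omega)
  refine (PT.snd' h).congr fun a => ?_
  show _ = ((List.replicate (n a) true).foldl (fun s b => step (a, (b, s))) (0, z a)).2
  rw [key]

theorem PT.add {f g : α → ℕ} (hf : PT f) (hg : PT g) : PT (fun a => f a + g a) := by
  have h : PT (fun x : ℕ × ℕ => x.1 + x.2) := by
    refine (PT.natRec (n := fun x : ℕ × ℕ => x.2) (z := fun x => x.1)
      (g := fun x => x.2.2 + 1) PT.snd PT.fst (PT.succ (PT.snd' (PT.snd' PT.id))) X ?_).congr ?_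
    · intro a i hi
      have : ∀ i, Nat.rec (motive := fun _ => ℕ) a.1 (fun _ s => s + 1) i = a.1 + i := by
        intro i
        induction i with
        | zero => rfl
        | succ i ih => show Nat.rec (motive := fun _ => ℕ) a.1 (fun _ s => s + 1) i + 1 = _; omega
      show sz (Nat.rec (motive := fun _ => ℕ) a.1 (fun _ s => s + 1) i) ≤ _
      rw [this]
      simp only [sz_nat, sz_prod, eval_X]
      omega
    · intro a
      have : ∀ i, Nat.rec (motive := fun _ => ℕ) a.1 (fun _ s => s + 1) i = a.1 + i := by
        intro i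
        induction i with
        | zero => rfl
        | succ i ih => show Nat.rec (motive := fun _ => ℕ) a.1 (fun _ s => s + 1) i + 1 = _; omega
      exact (this a.2).symm
  exact PT.comp h (PT.pair hf hg)

theorem PT.sub {f g : α → ℕ} (hf : PT f) (hg : PT g) : PT (fun a => f a - g a) := by
  have key : ∀ (a : ℕ × ℕ) i, Nat.rec (motive := fun _ => ℕ) a.1 (fun _ s => s - 1) i = a.1 - i := by
    intro a i
    induction i with
    | zero => rfl
    | succ i ih => show Nat.rec (motive := fun _ => ℕ) a.1 (fun _ s => s - 1) i - 1 = _; omega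
  have h : PT (fun x : ℕ × ℕ => x.1 - x.2) := by
    refine (PT.natRec (n := fun x : ℕ × ℕ => x.2) (z := fun x => x.1)
      (g := fun x => x.2.2 - 1) PT.snd PT.fst (PT.pred (PT.snd' (PT.snd' PT.id))) X ?_).congr ?_
    · intro a i hi
      show sz (Nat.rec (motive := fun _ => ℕ) a.1 (fun _ s => s - 1) i) ≤ _
      rw [key]
      simp only [sz_nat, sz_prod, eval_X]
      omega
    · intro a
      exact (key a a.2).symm
  exact PT.comp h (PT.pair hf hg)

theorem PT.mul {f g : α → ℕ} (hf : PT f) (hg : PT g) : PT (fun a => f a * g a) := by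
  have key : ∀ (a : ℕ × ℕ) i, Nat.rec (motive := fun _ => ℕ) 0 (fun _ s => s + a.1) i = a.1 * i := by
    intro a i
    induction i with
    | zero => rfl
    | succ i ih =>
      show Nat.rec (motive := fun _ => ℕ) 0 (fun _ s => s + a.1) i + a.1 = _
      rw [ih, Nat.mul_succ]
  have h : PT (fun x : ℕ × ℕ => x.1 * x.2) := by
    refine (PT.natRec (n := fun x : ℕ × ℕ => x.2) (z := fun x => 0)
      (g := fun x => x.2.2 + x.1.1) PT.snd (PT.const 0)
      (PT.add (PT.snd' (PT.snd' PT.id)) (PT.fst' (PT.fst' PT.id))) (X * X) ?_).congr ?_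
    · intro a i hi
      show sz (Nat.rec (motive := fun _ => ℕ) 0 (fun _ s => s + a.1) i) ≤ _
      rw [key]
      simp only [sz_nat, sz_prod, eval_X, eval_mul]
      exact Nat.mul_le_mul (by omega) (by omega)
    · intro a
      exact (key a a.2).symm
  exact PT.comp h (PT.pair hf hg)

theorem PT.le {f g : α → ℕ} (hf : PT f) (hg : PT g) : PT (fun a => decide (f a ≤ g a)) :=
  (PT.isZero (PT.sub hf hg)).congr fun a => by
    by_cases h : f a ≤ g a
    · have : f a - g a = 0 := by omega
      simp [h]
    · have : ¬ (f a - g a = 0) := by omega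
      simp only [h, this]

theorem PT.lt {f g : α → ℕ} (hf : PT f) (hg : PT g) : PT (fun a => decide (f a < g a)) :=
  (PT.le (PT.succ hf) hg).congr fun _ => rfl

theorem PT.eq {f g : α → ℕ} (hf : PT f) (hg : PT g) : PT (fun a => decide (f a = g a)) :=
  (PT.and (PT.le hf hg) (PT.le hg hf)).congr fun a => by
    by_cases h : f a = g a
    · simp [h]
    · simp only [h, decide_false]
      by_cases h1 : f a ≤ g a
      · have : ¬ (g a ≤ f a) := by omega
        simp [this]
      · simp [h1]

theorem PT.beq {f g : α → ℕ} (hf : PT f) (hg : PT g) : PT (fun a => f a == g a) :=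
  (PT.eq hf hg).congr fun a => by
    by_cases h : f a = g a <;> simp [h]

theorem PT.bne {f g : α → ℕ} (hf : PT f) (hg : PT g) : PT (fun a => f a != g a) :=
  (PT.not (PT.beq hf hg)).congr fun _ => rfl

theorem PT.min {f g : α → ℕ} (hf : PT f) (hg : PT g) : PT (fun a => Min.min (f a) (g a)) :=
  (PT.ite (PT.le hf hg) hf hg).congr fun a => by
    by_cases h : f a ≤ g a <;> simp [h]; omega

theorem PT.max {f g : α → ℕ} (hf : PT f) (hg : PT g) : PT (fun a => Max.max (f a) (g a)) :=
  (PT.ite (PT.le hf hg) hg hf).congr fun a => by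
    by_cases h : f a ≤ g a <;> simp [h]; omega

/-- quotient and remainder by counting -/
def divStep (m : ℕ) (x : ℕ × ℕ) : ℕ × ℕ := if x.2 + 1 = m then (x.1 + 1, 0) else (x.1, x.2 + 1)

theorem divStep_rec (m i : ℕ) :
    Nat.rec (motive := fun _ => ℕ × ℕ) (0, 0) (fun _ s => divStep m s) i = (i / m, i % m) := by
  induction i with
  | zero => simp
  | succ i ih =>
    show divStep m (Nat.rec (motive := fun _ => ℕ × ℕ) (0, 0) (fun _ s => divStep m s) i) = _
    rw [ih]
    unfold divStep
    rcases Nat.eq_zero_or_pos m with hm | hm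
    · subst hm; simp
    · have h1 := Nat.div_add_mod i m
      have h2 := Nat.mod_lt i hm
      by_cases h : i % m + 1 = m
      · simp only [h, if_true]
        have : i + 1 = m * (i / m + 1) := by
          rw [Nat.mul_add]; omega
        rw [this, Nat.mul_div_cancel_left _ hm, Nat.mul_mod_right]
      · simp only [h, if_false]
        have h3 : i % m + 1 < m := by omega
        have : i + 1 = (i % m + 1) + m * (i / m) := by omega
        rw [this, Nat.add_mul_div_left _ _ hm, Nat.add_mul_mod_self_left, Nat.div_eq_of_lt h3,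
          Nat.mod_eq_of_lt h3, Nat.zero_add]

theorem PT.divMod {f g : α → ℕ} (hf : PT f) (hg : PT g) : PT (fun a => (f a / g a, f a % g a)) := by
  have h : PT (fun x : ℕ × ℕ => (x.1 / x.2, x.1 % x.2)) := by
    have hs : PT (fun x : (ℕ × ℕ) × (ℕ × (ℕ × ℕ)) => divStep x.1.2 x.2.2) := by
      unfold divStep
      refine PT.ite (PT.eq (PT.succ ?_) ?_) (PT.pair (PT.succ ?_) (PT.const 0)) (PT.pair ?_ (PT.succ ?_))
      · exact PT.snd' (PT.snd' (PT.snd' PT.id))
      · exact PT.snd' (PT.fst' PT.id)
      · exact PT.fst' (PT.snd' (PT.snd' PT.id))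
      · exact PT.fst' (PT.snd' (PT.snd' PT.id))
      · exact PT.snd' (PT.snd' (PT.snd' PT.id))
    refine (PT.natRec (n := fun x : ℕ × ℕ => x.1) (z := fun x => (0, 0)) PT.fst (PT.const (0, 0))
      hs (X + X) ?_).congr ?_
    · intro a i hi
      show sz (Nat.rec (motive := fun _ => ℕ × ℕ) (0, 0) (fun _ s => divStep a.2 s) i) ≤ _
      rw [divStep_rec]
      simp only [sz_nat, sz_prod, eval_X, eval_add]
      have := Nat.div_le_self i a.2
      have := Nat.mod_le i a.2
      omega
    · intro a
      exact (divStep_rec a.2 a.1).symm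
  exact PT.comp h (PT.pair hf hg)

theorem PT.div {f g : α → ℕ} (hf : PT f) (hg : PT g) : PT (fun a => f a / g a) :=
  PT.fst' (PT.divMod hf hg)

theorem PT.mod {f g : α → ℕ} (hf : PT f) (hg : PT g) : PT (fun a => f a % g a) :=
  PT.snd' (PT.divMod hf hg)

/-! ### lists -/

theorem PT.cons {b : α → Bool} {l : α → List Bool} (hb : PT b) (hl : PT l) :
    PT (fun a => b a :: l a) := by
  refine (PT.caseBit hb (PT.comp (PT.consBit true) hl) (PT.comp (PT.consBit false) hl)).congr
    fun a => ?_
  cases b a <;> simp

theorem foldl_cons_eq (l s : List Bool) : List.foldl (fun s x => x :: s) s l = l.reverse ++ s := by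
  induction l generalizing s with
  | nil => rfl
  | cons y l ih => simp [ih]

theorem PT.reverse {l : α → List Bool} (hl : PT l) : PT (fun a => (l a).reverse) := by
  have h : PT (fun l : List Bool => l.reverse) := by
    refine (PT.foldl (l := fun l : List Bool => l) (i := fun _ => ([] : List Bool))
      (g := fun x => x.2.1 :: x.2.2) PT.id (PT.const [])
      (PT.cons (PT.fst' (PT.snd' PT.id)) (PT.snd' (PT.snd' PT.id))) X ?_).congr ?_
    · intro a l1 h
      show sz (List.foldl (fun s x => x :: s) [] l1) ≤ _
      rw [foldl_cons_eq]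
      simpa using h.length_le
    · intro a
      show _ = List.foldl (fun s x => x :: s) [] a
      rw [foldl_cons_eq, List.append_nil]
  exact PT.comp h hl

theorem PT.append {l m : α → List Bool} (hl : PT l) (hm : PT m) : PT (fun a => l a ++ m a) := by
  have h : PT (fun x : List Bool × List Bool => x.1 ++ x.2) := by
    refine (PT.foldl (l := fun x : List Bool × List Bool => x.1.reverse) (i := fun x => x.2)
      (g := fun x => x.2.1 :: x.2.2) (PT.reverse PT.fst) PT.snd
      (PT.cons (PT.fst' (PT.snd' PT.id)) (PT.snd' (PT.snd' PT.id))) X ?_).congr ?_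
    · intro a l1 h
      show sz (List.foldl (fun s x => x :: s) a.2 l1) ≤ _
      rw [foldl_cons_eq]
      have := h.length_le
      simp only [List.length_reverse] at this
      simp
      omega
    · intro a
      show _ = List.foldl (fun s x => x :: s) a.2 a.1.reverse
      rw [foldl_cons_eq, List.reverse_reverse]
  exact PT.comp h (PT.pair hl hm)

theorem PT.length {l : α → List Bool} (hl : PT l) : PT (fun a => (l a).length) := by
  have key : ∀ (l : List Bool) (n : ℕ), List.foldl (fun s _ => s + 1) n l = n + l.length := by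
    intro l
    induction l with
    | nil => intro n; rfl
    | cons b l ih => intro n; simp [ih]; omega
  have h : PT (fun l : List Bool => l.length) := by
    refine (PT.foldl (l := fun l : List Bool => l) (i := fun _ => (0 : ℕ))
      (g := fun x => x.2.2 + 1) PT.id (PT.const 0)
      (PT.succ (PT.snd' (PT.snd' PT.id))) X ?_).congr ?_
    · intro a l1 h
      show sz (List.foldl (fun s _ => s + 1) 0 l1) ≤ _
      rw [key]
      simpa using h.length_le
    · intro a
      show _ = List.foldl (fun s _ => s + 1) 0 a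
      rw [key, Nat.zero_add]
  exact PT.comp h hl

theorem PT.drop {l : α → List Bool} {i : α → ℕ} (hl : PT l) (hi : PT i) :
    PT (fun a => (l a).drop (i a)) := by
  have key : ∀ (l : List Bool) i,
      Nat.rec (motive := fun _ => List Bool) l (fun _ s => s.tail) i = l.drop i := by
    intro l i
    induction i with
    | zero => rfl
    | succ i ih =>
      show (Nat.rec (motive := fun _ => List Bool) l (fun _ s => s.tail) i).tail = _
      rw [ih, List.tail_drop]
  have h : PT (fun x : List Bool × ℕ => x.1.drop x.2) := by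
    refine (PT.natRec (n := fun x : List Bool × ℕ => x.2) (z := fun x => x.1)
      (g := fun x => x.2.2.tail) PT.snd PT.fst (PT.comp PT.tail (PT.snd' (PT.snd' PT.id))) X
      ?_).congr ?_
    · intro a i hi
      show sz (Nat.rec (motive := fun _ => List Bool) a.1 (fun _ s => s.tail) i) ≤ _
      rw [key]
      simp
      omega
    · intro a
      exact (key a.1 a.2).symm
  exact PT.comp h (PT.pair hl hi)

theorem PT.getD {l : α → List Bool} {i : α → ℕ} (hl : PT l) (hi : PT i) :
    PT (fun a => (l a).getD (i a) false) :=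
  (PT.comp (PT.headCase (fun o => o.getD false)) (PT.drop hl hi)).congr fun a => by
    rw [List.head?_drop, List.getD_eq_getElem?_getD]

/-! ### loops -/

theorem PT.any {n : α → ℕ} {p : α × ℕ → Bool} (hn : PT n) (hp : PT p) :
    PT (fun a => (List.range (n a)).any fun i => p (a, i)) := by
  have key : ∀ a i, Nat.rec (motive := fun _ => Bool) false (fun i s => s || p (a, i)) i =
      (List.range i).any fun i => p (a, i) := by
    intro a i
    induction i with
    | zero => rfl
    | succ i ih =>
      show (Nat.rec (motive := fun _ => Bool) false (fun i s => s || p (a, i)) i || p (a, i)) = _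
      rw [ih, List.range_succ, List.any_append]
      simp
  refine (PT.natRec (z := fun _ => false) (g := fun x => x.2.2 || p (x.1, x.2.1)) hn
    (PT.const false) (PT.or (PT.snd' (PT.snd' PT.id)) (PT.comp hp (PT.pair (PT.fst' PT.id)
      (PT.fst' (PT.snd' PT.id))))) (C 1) ?_).congr ?_
  · intro a i hi
    simp
  · intro a
    exact (key a (n a)).symm

theorem PT.all {n : α → ℕ} {p : α × ℕ → Bool} (hn : PT n) (hp : PT p) :
    PT (fun a => (List.range (n a)).all fun i => p (a, i)) :=
  (PT.not (PT.any hn (PT.not hp))).congr fun a => by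
    rw [List.all_eq_not_any_not]

theorem PT.flatMap {n : α → ℕ} {g : α × ℕ → List Bool} (hn : PT n) (hg : PT g) :
    PT (fun a => (List.range (n a)).flatMap fun i => g (a, i)) := by
  obtain ⟨Rn, hRn⟩ := hn.size
  obtain ⟨Rg, hRg⟩ := hg.size
  have key : ∀ a i, Nat.rec (motive := fun _ => List Bool) [] (fun i s => s ++ g (a, i)) i =
      (List.range i).flatMap fun i => g (a, i) := by
    intro a i
    induction i with
    | zero => rfl
    | succ i ih =>
      show (Nat.rec (motive := fun _ => List Bool) [] (fun i s => s ++ g (a, i)) i ++ g (a, i)) = _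
      rw [ih, List.range_succ, List.flatMap_append]
      simp
  have hlen : ∀ a i, i ≤ n a → ((List.range i).flatMap fun i => g (a, i)).length ≤
      i * Rg.eval (sz a + Rn.eval (sz a)) := by
    intro a i
    induction i with
    | zero => intro _; simp
    | succ i ih =>
      intro hi
      rw [List.range_succ, List.flatMap_append, List.length_append]
      have h1 := ih (by omega)
      have h2 : (g (a, i)).length ≤ Rg.eval (sz a + Rn.eval (sz a)) := by
        refine (hRg (a, i)).trans (poly_mono _ ?_)
        have : n a ≤ Rn.eval (sz a) := by simpa using hRn a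
        simp only [sz_prod, sz_nat]
        omega
      simp only [List.flatMap_cons, List.flatMap_nil, List.append_nil, Nat.succ_mul]
      omega
  refine (PT.natRec (z := fun _ => ([] : List Bool)) (g := fun x => x.2.2 ++ g (x.1, x.2.1)) hn
    (PT.const []) (PT.append (PT.snd' (PT.snd' PT.id)) (PT.comp hg (PT.pair (PT.fst' PT.id)
      (PT.fst' (PT.snd' PT.id))))) (Rn * Rg.comp (X + Rn)) ?_).congr ?_
  · intro a i hi
    show sz (Nat.rec (motive := fun _ => List Bool) [] (fun i s => s ++ g (a, i)) i) ≤ _
    rw [key]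
    have h1 := hlen a i hi
    have h2 : n a ≤ Rn.eval (sz a) := by simpa using hRn a
    simp only [sz_list, eval_mul, eval_comp, eval_add, eval_X]
    exact h1.trans (Nat.mul_le_mul_right _ (by omega))
  · intro a
    exact (key a (n a)).symm

/-! ### finite tables and polynomials -/

theorem PT.table (t : ℕ → β) (d : β) (F : ℕ) {f : α → ℕ} (hf : PT f) :
    PT (fun a => if f a < F then t (f a) else d) := by
  induction F with
  | zero => exact (PT.const d).congr fun a => by simp
  | succ F ih =>
    refine (PT.ite (PT.eq hf (PT.const F)) (PT.const (t F)) ih).congr fun a => ?_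
    by_cases h : f a = F
    · simp [h]
    · simp only [h, if_false]
      by_cases h2 : f a < F
      · have : f a < F + 1 := by omega
        simp [h2, this]
      · have : ¬ f a < F + 1 := by omega
        simp [h2, this]

theorem PT.polyEval (P : ℕ[X]) {f : α → ℕ} (hf : PT f) : PT (fun a => P.eval (f a)) := by
  induction P using Polynomial.induction_on' with
  | add p q hp hq => exact (PT.add hp hq).congr fun a => by rw [eval_add]
  | monomial n c =>
    have : PT (fun a => (f a) ^ n) := by
      induction n with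
      | zero => exact (PT.const 1).congr fun a => by simp
      | succ n ih => exact (PT.mul ih hf).congr fun a => by rw [pow_succ]
    exact (PT.mul (PT.const c) this).congr fun a => by rw [eval_monomial]

/-- smallest power of two `≥ n` (and `≥ 2`), with its exponent -/
def lgStep (n : ℕ) (x : ℕ × ℕ) : ℕ × ℕ := if x.2 < n then (x.1 + 1, 2 * x.2) else x

/-- `(m, 2^m)` with `m ≥ 1`, `n ≤ 2^m` -/
def lg (n : ℕ) : ℕ × ℕ := Nat.rec (motive := fun _ => ℕ × ℕ) (1, 2) (fun _ s => lgStep n s) n

theorem lg_aux (n i : ℕ) :
    let x := Nat.rec (motive := fun _ => ℕ × ℕ) (1, 2) (fun _ s => lgStep n s) i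
    1 ≤ x.1 ∧ x.2 = 2 ^ x.1 ∧ (i < x.2 ∨ n ≤ x.2) ∧ x.2 ≤ 2 * n + 2 ∧ x.1 ≤ i + 1 := by
  induction i with
  | zero => simp
  | succ i ih =>
    set y := Nat.rec (motive := fun _ => ℕ × ℕ) (1, 2) (fun _ s => lgStep n s) i with hy
    show 1 ≤ (lgStep n y).1 ∧ (lgStep n y).2 = 2 ^ (lgStep n y).1 ∧
      (i + 1 < (lgStep n y).2 ∨ n ≤ (lgStep n y).2) ∧ (lgStep n y).2 ≤ 2 * n + 2 ∧
      (lgStep n y).1 ≤ i + 1 + 1
    simp only at ih
    obtain ⟨h1, h2, h3, h4, h5⟩ := ih
    unfold lgStep
    by_cases h : y.2 < n
    · simp only [h, if_true]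
      refine ⟨by omega, ?_, ?_, by omega, by omega⟩
      · rw [pow_succ, ← h2]; ring
      · left; omega
    · simp only [h, if_false]
      exact ⟨h1, h2, Or.inr (by omega), h4, by omega⟩

theorem lg_spec (n : ℕ) : 1 ≤ (lg n).1 ∧ (lg n).2 = 2 ^ (lg n).1 ∧ n ≤ 2 ^ (lg n).1 := by
  obtain ⟨h1, h2, h3, h4, h5⟩ := lg_aux n n
  refine ⟨h1, h2, ?_⟩
  change n < (lg n).2 ∨ n ≤ (lg n).2 at h3
  rw [← show (lg n).2 = 2 ^ (lg n).1 from h2]
  omega

theorem PT.lg {f : α → ℕ} (hf : PT f) : PT (fun a => lg (f a)) := by
  have h : PT (fun n : ℕ => Pool.NPC.lg n) := by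
    have hs : PT (fun x : ℕ × (ℕ × (ℕ × ℕ)) => lgStep x.1 x.2.2) := by
      unfold lgStep
      refine PT.ite (PT.lt ?_ ?_) (PT.pair (PT.succ ?_) (PT.mul (PT.const 2) ?_)) ?_
      · exact PT.snd' (PT.snd' (PT.snd' PT.id))
      · exact PT.fst' PT.id
      · exact PT.fst' (PT.snd' (PT.snd' PT.id))
      · exact PT.snd' (PT.snd' (PT.snd' PT.id))
      · exact PT.snd' (PT.snd' PT.id)
    refine (PT.natRec (n := fun n : ℕ => n) (z := fun x => (1, 2)) PT.id (PT.const (1, 2))
      hs (C 3 * X + C 3) ?_).congr ?_
    · intro n i hi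
      show sz (Nat.rec (motive := fun _ => ℕ × ℕ) (1, 2) (fun _ s => lgStep n s) i) ≤ _
      obtain ⟨h1, h2, h3, h4, h5⟩ := lg_aux n i
      simp only [sz_nat, sz_prod, eval_X, eval_add, eval_mul, eval_C]
      omega
    · intro a
      rfl
  exact PT.comp h hf

end Pool.NPC
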