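import Mathlib

/-!
# NP-hardness over Mathlib's multi-stack Turing machines

Polynomial time is Mathlib's `Turing.TM2ComputableInPolyTime` (bundled TM2 machines `FinTM2`).
-/

namespace Pool.NPC

open Turing Computability

/-- `f : {0,1}* → {0,1}*` is computable in polynomial time (Mathlib's machine model) -/
def PolyTimeComputable (f : List Bool → List Bool) : Prop :=
  Nonempty (TM2ComputableInPolyTime (encodingList Bool).encode (encodingList Bool).encode f)

/-- The class NP: `A` has a verifier `V`, computable in polynomial time (in the total length of
input and witness), and witnesses of polynomially bounded length. Pairs of strings are encoded as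
in Mathlib's `encodingProd` (concatenation, over the disjoint union of the two alphabets). -/
def InNP (A : Set (List Bool)) : Prop :=
  ∃ (V : List Bool × List Bool → Bool) (p : Polynomial ℕ),
    Nonempty (TM2ComputableInPolyTime (encodingProd (encodingList Bool) (encodingList Bool)).encode
      encodingBoolBool.encode V) ∧
    ∀ x, x ∈ A ↔ ∃ w : List Bool, w.length ≤ p.eval x.length ∧ V (x, w) = true

/-- polynomial-time many-one reducibility -/
def PolyReducible (A B : Set (List Bool)) : Prop :=
  ∃ f, PolyTimeComputable f ∧ ∀ x, x ∈ A ↔ f x ∈ B

/-- NP-hardness (under polynomial-time many-one reductions) -/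
def NPHard (B : Set (List Bool)) : Prop := ∀ A, InNP A → PolyReducible A B

end Pool.NPC
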