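import Pool.Agent.NPC.Fold
import Pool.Agent.NPC.Arith
import Pool.Agent.NPC.Defs

/-!
# Verifiers: machines reading a pair of strings
-/

namespace Pool.NPC

open Turing Turing.TM2 Computability

/-- alphabets: the input stack carries two kinds of bits -/
abbrev Γ2 (n : ℕ) : Option (Fin n) → Type
  | none => Bool ⊕ Bool
  | some _ => Bool

/-- lifting of statements -/
def liftS {n : ℕ} {Λ Λ' : Type} (e : Λ → Λ') :
    Stmt (fun _ : Fin n => Bool) Λ (Option Bool) → Stmt (Γ2 n) Λ' (Option Bool × Option (Bool ⊕ Bool))
  | .push k f q => .push (some k) (fun s => f s.1) (liftS e q)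
  | .peek k f q => .peek (some k) (fun s o => (f s.1 o, s.2)) (liftS e q)
  | .pop k f q => .pop (some k) (fun s o => (f s.1 o, s.2)) (liftS e q)
  | .load f q => .load (fun s => (f s.1, s.2)) (liftS e q)
  | .branch p q1 q2 => .branch (fun s => p s.1) (liftS e q1) (liftS e q2)
  | .goto l => .goto (fun s => e (l s.1))
  | .halt => .halt

/-- lifting of stacks -/
def liftK {n : ℕ} (u : List (Bool ⊕ Bool)) (T : Fin n → List Bool) : ∀ k, List (Γ2 n k)
  | none => u
  | some i => T i

/-- lifting of configurations -/
def liftC {n : ℕ} {Λ Λ' : Type} (e : Λ → Λ') (w : Option (Bool ⊕ Bool)) (u : List (Bool ⊕ Bool))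
    (c : Cfg (fun _ : Fin n => Bool) Λ (Option Bool)) :
    Cfg (Γ2 n) Λ' (Option Bool × Option (Bool ⊕ Bool)) :=
  ⟨c.l.map e, (c.var, w), liftK u c.stk⟩

theorem update_liftK {n : ℕ} (u : List (Bool ⊕ Bool)) (T : Fin n → List Bool) (k : Fin n)
    (l : List Bool) : Function.update (liftK u T) (some k) l = liftK u (Function.update T k l) := by
  funext i
  rcases i with _ | i
  · rw [Function.update_of_ne (by simp)]
    rfl
  · by_cases h : i = k
    · subst h
      rw [Function.update_self]
      show l = Function.update T i l i
      rw [Function.update_self]
    · rw [Function.update_of_ne (by simpa using h)]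
      show T i = Function.update T k l i
      rw [Function.update_of_ne h]

theorem stepAux_liftS {n : ℕ} {Λ Λ' : Type} (e : Λ → Λ') (w : Option (Bool ⊕ Bool))
    (u : List (Bool ⊕ Bool)) (q : Stmt (fun _ : Fin n => Bool) Λ (Option Bool)) :
    ∀ (v : Option Bool) (T : Fin n → List Bool),
      stepAux (liftS e q) (v, w) (liftK u T) = liftC e w u (stepAux q v T) := by
  induction q with
  | push k f q ih =>
    intro v T
    simp only [liftS, stepAux]
    rw [← ih, ← update_liftK]
    rfl
  | peek k f q ih =>
    intro v T
    simp only [liftS, stepAux]
    rw [← ih]
    rfl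
  | pop k f q ih =>
    intro v T
    simp only [liftS, stepAux]
    rw [← ih, ← update_liftK]
    rfl
  | load f q ih =>
    intro v T
    simp only [liftS, stepAux]
    rw [← ih]
  | branch p q1 q2 ih1 ih2 =>
    intro v T
    simp only [liftS, stepAux]
    cases p v
    · simp only [cond_false]; exact ih2 v T
    · simp only [cond_true]; exact ih1 v T
  | goto l => intro v T; rfl
  | halt => intro v T; rfl

theorem Reach.liftC {n : ℕ} {Λ Λ' : Type} (e : Λ → Λ')
    (M : Λ → Stmt (fun _ : Fin n => Bool) Λ (Option Bool))
    (M' : Λ' → Stmt (Γ2 n) Λ' (Option Bool × Option (Bool ⊕ Bool)))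
    (hM : ∀ l, M' (e l) = liftS e (M l)) (w : Option (Bool ⊕ Bool)) (u : List (Bool ⊕ Bool))
    {t : ℕ} {a b : Cfg (fun _ : Fin n => Bool) Λ (Option Bool)} (h : Reach M t a b) :
    Reach M' t (Pool.NPC.liftC e w u a) (Pool.NPC.liftC e w u b) := by
  have hstep : ∀ c, TM2.step M' (Pool.NPC.liftC e w u c) =
      (TM2.step M c).map (Pool.NPC.liftC e w u) := by
    rintro ⟨l, v, T⟩
    rcases l with _ | l
    · rfl
    · show some (stepAux (M' (e l)) (v, w) (liftK u T)) = some (Pool.NPC.liftC e w u (stepAux (M l) v T))
      rw [hM, stepAux_liftS]
  have hsemi : Function.Semiconj (Option.map (Pool.NPC.liftC e w u))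
      (flip bind (TM2.step M)) (flip bind (TM2.step M')) := by
    rintro (_ | c)
    · rfl
    · show (TM2.step M c).map _ = TM2.step M' (Pool.NPC.liftC e w u c)
      rw [hstep]
  unfold Reach at *
  have := (hsemi.iterate_right t) (some a)
  rw [h] at this
  exact this.symm

/-- the bit of a symbol -/
def bitOf : Option (Bool ⊕ Bool) → Bool
  | some (.inl b) => b
  | some (.inr b) => b
  | none => false

/-- first kind -/
def isL : Option (Bool ⊕ Bool) → Bool
  | some (.inl _) => true
  | _ => false

/-- the code of the verifier machine -/
noncomputable def code2 (c : Cmd) (B : ℕ) :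
    Option (Option (Pos c)) → Stmt (Γ2 (B + 2 + 1)) (Option (Option (Pos c)))
      (Option Bool × Option (Bool ⊕ Bool))
  | none => .pop none (fun s o => (s.1, o)) (.branch (fun s => s.2.isNone)
      (.goto fun _ => some (some c.entry))
      (.branch (fun s => isL s.2)
        (.push (some (0 : Fin (B + 2 + 1))) (fun s => bitOf s.2) (.goto fun _ => none))
        (.push (some (1 : Fin (B + 2 + 1))) (fun s => bitOf s.2) (.goto fun _ => none))))
  | some l => liftS some (match l with
      | none => .load (fun _ => none) .halt
      | some p => code (B + 2) c some none p)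

theorem finite_opt (c : Cmd) : Finite (Option (Option (Pos c))) := by
  have := finite_pos c
  infer_instance

/-- the verifier machine -/
noncomputable def machine2 (c : Cmd) (B : ℕ) : FinTM2 where
  K := Option (Fin (B + 2 + 1))
  k₀ := none
  k₁ := some 2
  Γ := Γ2 (B + 2 + 1)
  Λ := Option (Option (Pos c))
  main := none
  ΛFin := @Fintype.ofFinite _ (finite_opt c)
  σ := Option Bool × Option (Bool ⊕ Bool)
  initialState := (none, none)
  Γk₀Fin := inferInstanceAs (Fintype (Bool ⊕ Bool))
  m := code2 c B

/-- the splitting phase -/
theorem reach_split (c : Cmd) (B : ℕ) (l : List (Bool ⊕ Bool)) :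
    ∀ (o : Option (Bool ⊕ Bool)) (S : State),
    Reach (code2 c B) (l.length + 1) ⟨some none, (none, o), liftK l (res (B + 2) S)⟩
      ⟨some (some (some c.entry)), (none, none), liftK [] (res (B + 2)
        (Function.update (Function.update S 0 ((l.filterMap Sum.getLeft?).reverse ++ S 0))
          1 ((l.filterMap Sum.getRight?).reverse ++ S 1)))⟩ := by
  induction l with
  | nil =>
    intro o S
    have e1 : Function.update (Function.update S 0 ((([] : List (Bool ⊕ Bool)).filterMap
        Sum.getLeft?).reverse ++ S 0)) 1 ((([] : List (Bool ⊕ Bool)).filterMap
        Sum.getRight?).reverse ++ S 1) = S := by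
      simp
    rw [e1]
    refine Reach.one ?_
    show some (stepAux (code2 c B none) (none, o) (liftK [] (res (B + 2) S))) = _
    have e2 : Function.update (liftK ([] : List (Bool ⊕ Bool)) (res (B + 2) S)) none
        ([] : List (Bool ⊕ Bool)) = liftK [] (res (B + 2) S) := by
      funext k
      rcases k with _ | k
      · rw [Function.update_self]; rfl
      · rw [Function.update_of_ne (by simp)]
    simp only [code2, stepAux]
    exact congrArg some (congrArg (fun X : ∀ k, List (Γ2 (B + 2 + 1) k) =>
      (⟨some (some (some c.entry)), (none, none), X⟩ :
        Cfg (Γ2 (B + 2 + 1)) (Option (Option (Pos c))) (Option Bool × Option (Bool ⊕ Bool)))) e2)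
  | cons x l ih =>
    intro o S
    have e2 : Function.update (liftK (x :: l) (res (B + 2) S)) none l = liftK l (res (B + 2) S) := by
      funext k
      rcases k with _ | k
      · rw [Function.update_self]; rfl
      · rw [Function.update_of_ne (by simp)]; rfl
    have hlen : (x :: l).length + 1 = 1 + (l.length + 1) := by simp only [List.length_cons]; omega
    rw [hlen]
    rcases x with b | b
    · refine Reach.trans (Reach.one (b := ⟨some none, (none, some (.inl b)), liftK l (res (B + 2)
        (Function.update S 0 (b :: S 0)))⟩) ?_) ?_
      · show some (stepAux (code2 c B none) (none, o) (liftK (.inl b :: l) (res (B + 2) S))) = _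
        have e3 : Function.update (liftK l (res (B + 2) S)) (some (0 : Fin (B + 2 + 1)))
            (b :: S 0) = liftK l (res (B + 2) (Function.update S 0 (b :: S 0))) := by
          rw [update_liftK]
          exact congrArg _ (res_update (B + 2) 0 (by omega) S (b :: S 0))
        simp only [code2, stepAux]
        have e4 : Function.update (liftK (.inl b :: l) (res (B + 2) S)) none
          (liftK (.inl b :: l) (res (B + 2) S) none).tail = liftK l (res (B + 2) S) := e2
        rw [e4]
        exact congrArg some (congrArg (fun X : ∀ k, List (Γ2 (B + 2 + 1) k) =>
          (⟨some none, (none, some (.inl b)), X⟩ :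
            Cfg (Γ2 (B + 2 + 1)) (Option (Option (Pos c))) (Option Bool × Option (Bool ⊕ Bool)))) e3)
      · have := ih (some (.inl b)) (Function.update S 0 (b :: S 0))
        have e5 : (Function.update (Function.update (Function.update S 0 (b :: S 0)) 0
            ((l.filterMap Sum.getLeft?).reverse ++ Function.update S 0 (b :: S 0) 0)) 1
            ((l.filterMap Sum.getRight?).reverse ++ Function.update S 0 (b :: S 0) 1)) =
            Function.update (Function.update S 0
              (((.inl b :: l).filterMap Sum.getLeft?).reverse ++ S 0)) 1
              (((.inl b :: l).filterMap Sum.getRight?).reverse ++ S 1) := by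
          funext k
          by_cases h1 : k = 1
          · subst h1
            simp
            try rfl
          · by_cases h0 : k = 0
            · subst h0
              simp
              try rfl
            · simp [h0, h1]
        rw [e5] at this
        exact this
    · refine Reach.trans (Reach.one (b := ⟨some none, (none, some (.inr b)), liftK l (res (B + 2)
        (Function.update S 1 (b :: S 1)))⟩) ?_) ?_
      · show some (stepAux (code2 c B none) (none, o) (liftK (.inr b :: l) (res (B + 2) S))) = _
        have e3 : Function.update (liftK l (res (B + 2) S)) (some (1 : Fin (B + 2 + 1)))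
            (b :: S 1) = liftK l (res (B + 2) (Function.update S 1 (b :: S 1))) := by
          rw [update_liftK]
          have h1 : (1 : Fin (B + 2 + 1)) = clamp (B + 2) 1 := by
            apply Fin.ext
            simp [clamp]
          rw [h1]
          exact congrArg _ (res_update (B + 2) 1 (by omega) S (b :: S 1))
        simp only [code2, stepAux]
        have e4 : Function.update (liftK (.inr b :: l) (res (B + 2) S)) none
          (liftK (.inr b :: l) (res (B + 2) S) none).tail = liftK l (res (B + 2) S) := e2
        rw [e4]
        exact congrArg some (congrArg (fun X : ∀ k, List (Γ2 (B + 2 + 1) k) =>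
          (⟨some none, (none, some (.inr b)), X⟩ :
            Cfg (Γ2 (B + 2 + 1)) (Option (Option (Pos c))) (Option Bool × Option (Bool ⊕ Bool)))) e3)
      · have := ih (some (.inr b)) (Function.update S 1 (b :: S 1))
        have e5 : (Function.update (Function.update (Function.update S 1 (b :: S 1)) 0
            ((l.filterMap Sum.getLeft?).reverse ++ Function.update S 1 (b :: S 1) 0)) 1
            ((l.filterMap Sum.getRight?).reverse ++ Function.update S 1 (b :: S 1) 1)) =
            Function.update (Function.update S 0
              (((.inr b :: l).filterMap Sum.getLeft?).reverse ++ S 0)) 1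
              (((.inr b :: l).filterMap Sum.getRight?).reverse ++ S 1) := by
          funext k
          by_cases h1 : k = 1
          · subst h1
            simp
            try rfl
          · by_cases h0 : k = 0
            · subst h0
              simp
              try rfl
            · simp [h0, h1]
        rw [e5] at this
        exact this

theorem two_val (n : ℕ) : ((2 : Fin (n + 2 + 1)) : ℕ) = 2 := by
  show 2 % (n + 2 + 1) = 2
  exact Nat.mod_eq_of_lt (by omega)

theorem polyTime_pair (c : Cmd) (V : List Bool × List Bool → Bool) (P : Polynomial ℕ)
    (h : ∀ x w : List Bool, ∃ t ≤ P.eval (x.length + w.length),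
      Exec c (Function.update (Function.update (fun _ => []) 0 x.reverse) 1 w.reverse)
        (Function.update (fun _ => []) 2 [V (x, w)]) t) :
    Nonempty (TM2ComputableInPolyTime
      (encodingProd (encodingList Bool) (encodingList Bool)).encode encodingBoolBool.encode V) := by
  refine ⟨{ tm := machine2 c c.maxReg
            inputAlphabet := Equiv.refl _
            outputAlphabet := Equiv.refl _
            time := P + Polynomial.X + 2
            outputsFun := fun x => ?_ }⟩
  obtain ⟨x, w⟩ := x
  choose t ht hE using h x w
  have hr := code_correct (c.maxReg + 2) (Λ := Option (Pos c))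
    (fun l => match l with
      | none => .load (fun _ => none) .halt
      | some p => code (c.maxReg + 2) c some none p) hE (by omega) some none
    (fun p => rfl) none
  choose v' hv' using hr
  have hr2 : Reach (fun l : Option (Pos c) => match l with
      | none => .load (fun _ => none) .halt
      | some p => code (c.maxReg + 2) c some none p) (t + 1)
      ⟨some (some c.entry), none, res (c.maxReg + 2)
        (Function.update (Function.update (fun _ => []) 0 x.reverse) 1 w.reverse)⟩
      ⟨none, none, res (c.maxReg + 2) (Function.update (fun _ => []) 2 [V (x, w)])⟩ := by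
    refine hv'.trans (Reach.one ?_)
    rfl
  have hr3 := Reach.liftC some _ (code2 c c.maxReg) (fun l => rfl) none [] hr2
  set inp : List (Bool ⊕ Bool) := x.map .inl ++ w.map .inr with hinp
  have hs := reach_split c c.maxReg inp none (fun _ => [])
  have hL : ∀ x w : List Bool,
      ((x.map Sum.inl ++ w.map Sum.inr : List (Bool ⊕ Bool)).filterMap Sum.getLeft?) = x := by
    intro x w
    rw [List.filterMap_append]
    have h1 : ∀ x : List Bool, (x.map Sum.inl : List (Bool ⊕ Bool)).filterMap Sum.getLeft? = x := by
      intro x
      induction x with
      | nil => rfl
      | cons b x ih =>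
        rw [List.map_cons]
        refine Eq.trans ?_ (congrArg (List.cons b) ih)
        rfl
    have h2 : ∀ x : List Bool, (x.map Sum.inr : List (Bool ⊕ Bool)).filterMap Sum.getLeft? = [] := by
      intro x
      induction x with
      | nil => rfl
      | cons b x ih =>
        rw [List.map_cons]
        exact ih
    rw [h1, h2, List.append_nil]
  have hR : ∀ x w : List Bool,
      ((x.map Sum.inl ++ w.map Sum.inr : List (Bool ⊕ Bool)).filterMap Sum.getRight?) = w := by
    intro x w
    rw [List.filterMap_append]
    have h1 : ∀ x : List Bool, (x.map Sum.inr : List (Bool ⊕ Bool)).filterMap Sum.getRight? = x := by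
      intro x
      induction x with
      | nil => rfl
      | cons b x ih =>
        rw [List.map_cons]
        refine Eq.trans ?_ (congrArg (List.cons b) ih)
        rfl
    have h2 : ∀ x : List Bool, (x.map Sum.inl : List (Bool ⊕ Bool)).filterMap Sum.getRight? = [] := by
      intro x
      induction x with
      | nil => rfl
      | cons b x ih =>
        rw [List.map_cons]
        exact ih
    rw [h1, h2, List.nil_append]
  rw [hinp, hL, hR] at hs
  simp only [List.append_nil] at hs
  have hall := hs.trans hr3
  have htot : (x.map Sum.inl ++ w.map Sum.inr : List (Bool ⊕ Bool)).length + 1 + (t + 1) =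
      t + (x.length + w.length) + 2 := by
    simp only [List.length_append, List.length_map]
    omega
  rw [htot] at hall
  refine ⟨⟨t + (x.length + w.length) + 2, ?_⟩, ?_⟩
  · have e1 : initList (machine2 c c.maxReg) (List.map (Equiv.refl _).invFun
        ((encodingProd (encodingList Bool) (encodingList Bool)).encode (x, w))) =
      ⟨some none, (none, none), liftK (x.map .inl ++ w.map .inr)
        (res (c.maxReg + 2) (fun _ => []))⟩ := by
      have key : ∀ k : Option (Fin (c.maxReg + 2 + 1)),
          (initList (machine2 c c.maxReg) (List.map (Equiv.refl _).invFun
            ((encodingProd (encodingList Bool) (encodingList Bool)).encode (x, w)))).stk k =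
            liftK (x.map .inl ++ w.map .inr) (res (c.maxReg + 2) (fun _ => [])) k := by
        intro k
        rcases k with _ | k
        · have : (initList (machine2 c c.maxReg) (List.map (Equiv.refl _).invFun
            ((encodingProd (encodingList Bool) (encodingList Bool)).encode (x, w)))).stk none =
              List.map (Equiv.refl _).invFun
                ((encodingProd (encodingList Bool) (encodingList Bool)).encode (x, w)) :=
            initList_stk_self _ _
          rw [this]
          show List.map id _ = _
          rw [List.map_id]
          rfl
        · exact initList_stk_ne _ _ _ (fun h => by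
            have : (some k : Option (Fin (c.maxReg + 2 + 1))) = none := h
            simp at this)
      have : (initList (machine2 c c.maxReg) (List.map (Equiv.refl _).invFun
            ((encodingProd (encodingList Bool) (encodingList Bool)).encode (x, w)))).stk =
          liftK (x.map .inl ++ w.map .inr) (res (c.maxReg + 2) (fun _ => [])) := funext key
      rw [← this]
      rfl
    have e2 : haltList (machine2 c c.maxReg) (List.map (Equiv.refl _).invFun
        (encodingBoolBool.encode (V (x, w)))) =
      ⟨none, (none, none), liftK [] (res (c.maxReg + 2)
        (Function.update (fun _ => []) 2 [V (x, w)]))⟩ := by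
      have key : ∀ k : Option (Fin (c.maxReg + 2 + 1)),
          (haltList (machine2 c c.maxReg) (List.map (Equiv.refl _).invFun
            (encodingBoolBool.encode (V (x, w))))).stk k =
            liftK [] (res (c.maxReg + 2) (Function.update (fun _ => []) 2 [V (x, w)])) k := by
        intro k
        rcases k with _ | k
        · exact haltList_stk_ne _ _ _ (fun h => by
            have : (none : Option (Fin (c.maxReg + 2 + 1))) = some 2 := h
            simp at this)
        · by_cases hk : k = 2
          · subst hk
            have : (haltList (machine2 c c.maxReg) (List.map (Equiv.refl _).invFun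
              (encodingBoolBool.encode (V (x, w))))).stk (some (2 : Fin (c.maxReg + 2 + 1))) =
                List.map (Equiv.refl _).invFun (encodingBoolBool.encode (V (x, w))) :=
              haltList_stk_self _ _
            rw [this]
            show List.map id [V (x, w)] = _
            rw [List.map_id]
            have h2 := two_val (c.maxReg)
            show [V (x, w)] = (Function.update (fun _ => []) 2 [V (x, w)] : State)
              ((2 : Fin (c.maxReg + 2 + 1)) : ℕ)
            rw [h2, Function.update_self]
          · have : (haltList (machine2 c c.maxReg) (List.map (Equiv.refl _).invFun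
              (encodingBoolBool.encode (V (x, w))))).stk (some k) = [] :=
              haltList_stk_ne _ _ _ (fun h => hk (by
                have : (some k : Option (Fin (c.maxReg + 2 + 1))) = some 2 := h
                exact Option.some.inj this))
            rw [this]
            have h2 : (k : ℕ) ≠ 2 := fun h => hk (Fin.ext (by rw [h, two_val]))
            show [] = (Function.update (fun _ => []) 2 [V (x, w)] : State) k
            rw [Function.update_of_ne h2]
      have : (haltList (machine2 c c.maxReg) (List.map (Equiv.refl _).invFun
            (encodingBoolBool.encode (V (x, w))))).stk =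
          liftK [] (res (c.maxReg + 2) (Function.update (fun _ => []) 2 [V (x, w)])) := funext key
      rw [← this]
      rfl
    show (flip bind (TM2.step (machine2 c c.maxReg).m))^[t + (x.length + w.length) + 2]
      (some (initList (machine2 c c.maxReg) (List.map (Equiv.refl _).invFun
        ((encodingProd (encodingList Bool) (encodingList Bool)).encode (x, w))))) =
      some (haltList (machine2 c c.maxReg) (List.map (Equiv.refl _).invFun
        (encodingBoolBool.encode (V (x, w)))))
    rw [e1, e2]
    exact hall
  · have hlen : ((encodingProd (encodingList Bool) (encodingList Bool)).encode (x, w)).length =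
        x.length + w.length := by
      show (x.map Sum.inl ++ w.map Sum.inr : List (Bool ⊕ Bool)).length = _
      simp
    rw [hlen]
    simp only [Polynomial.eval_add, Polynomial.eval_X, Polynomial.eval_ofNat]
    omega

/-- polynomial time predicates on pairs of strings are computed by `FinTM2` machines in
polynomial time -/
theorem PT.verifier {V : List Bool × List Bool → Bool} (hV : PT V) :
    Nonempty (TM2ComputableInPolyTime
      (encodingProd (encodingList Bool) (encodingList Bool)).encode encodingBoolBool.encode V) := by
  have hV' : PT (fun x : List Bool × List Bool => V (x.1.reverse, x.2.reverse)) :=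
    PT.comp hV (PT.pair (PT.reverse PT.fst) (PT.reverse PT.snd))
  obtain ⟨P, hP⟩ := hV'
  obtain ⟨c, hc⟩ := hP (.pair (.leaf 0) (.leaf 1)) (.leaf 2) 3 rfl rfl
    ⟨by simp [Tr.leaves], by simp [Tr.leaves], by simp [Tr.leaves], by simp [Tr.leaves]⟩
  refine polyTime_pair (.seq c (.seq (clear 0) (clear 1))) V
    (P + (Polynomial.C 2 * Polynomial.X + Polynomial.C 2)) fun x w => ?_
  set S0 : State := Function.update (Function.update (fun _ => []) 0 x.reverse) 1 w.reverse with hS0
  have s0 : S0 0 = x.reverse := by
    rw [hS0, Function.update_of_ne (by omega), Function.update_self]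
  have s1 : S0 1 = w.reverse := by
    rw [hS0, Function.update_self]
  have s2 : ∀ r, 2 ≤ r → S0 r = [] := by
    intro r hr
    rw [hS0, Function.update_of_ne (by omega), Function.update_of_ne (by omega)]
  obtain ⟨S1, k1, k2, k3⟩ := hc (x.reverse, w.reverse) S0 ⟨s0, s1⟩
    (fun r hr => by
      simp only [Tr.leaves, List.mem_singleton] at hr
      exact s2 r (by omega))
    (fun r hr => s2 r (by omega))
  have k4 := k1.seq ((execLe_clear 0 S1).seq (execLe_clear 1 _))
  have h0 : S1 0 = x.reverse := by
    rw [k3 0 (by simp [Tr.leaves]), s0]
  have h1 : S1 1 = w.reverse := by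
    rw [k3 1 (by simp [Tr.leaves]), s1]
  have h2 : S1 2 = [V (x, w)] := by
    have : S1 2 = [V (x.reverse.reverse, w.reverse.reverse)] := k2
    rw [List.reverse_reverse, List.reverse_reverse] at this
    exact this
  have e : Function.update (Function.update S1 0 []) 1 [] =
      Function.update (fun _ => []) 2 [V (x, w)] := by
    funext r
    by_cases hr1 : r = 1
    · rw [hr1, Function.update_self, Function.update_of_ne (by omega)]
    · rw [Function.update_of_ne hr1]
      by_cases hr : r = 0
      · rw [hr, Function.update_self, Function.update_of_ne (by omega)]
      · rw [Function.update_of_ne hr]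
        by_cases hr2 : r = 2
        · rw [hr2, h2, Function.update_self]
        · rw [k3 r (by simpa [Tr.leaves] using hr2), Function.update_of_ne hr2,
            s2 r (by omega)]
  have e1 : Function.update S1 0 [] 1 = w.reverse := by
    rw [Function.update_of_ne (by omega), h1]
  rw [e, h0, e1] at k4
  obtain ⟨t, ht, hE⟩ := k4
  refine ⟨t, ht.trans ?_, hE⟩
  have hsz : sz ((x.reverse, w.reverse) : List Bool × List Bool) = x.length + w.length := by
    simp
  rw [hsz]
  simp only [Polynomial.eval_add, Polynomial.eval_mul, Polynomial.eval_C, Polynomial.eval_X,
    List.length_reverse]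
  omega

end Pool.NPC
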