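import Pool.Agent.NPC.Sat

/-!
# The Cook–Levin theorem: every NP language reduces to 3-SAT

The instance is given as a polynomial time computable family of 3-CNFs.
-/

namespace Pool.NPC

open Turing Turing.TM2 Computability

section PTparts

variable {α : Type} [Enc α]

theorem PT.app {n p T H mode t j : α → ℕ} {x : α → List Bool} (hn : PT n) (hp : PT p) (hT : PT T)
    (hH : PT H) (hm : PT mode) (ht : PT t) (hj : PT j) (hx : PT x) :
    PT (fun a => Pool.NPC.app (n a) (p a) (T a) (H a) (fun i => (x a).getD i false) (mode a) (t a)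
      (j a)) := by
  unfold Pool.NPC.app
  have h0 : PT (fun a => decide (t a = 0)) := PT.eq ht (PT.const 0)
  have hb : PT (fun a => (x a).getD (j a) false) := PT.getD hx hj
  refine PT.ite (PT.eq hm (PT.const 0)) (PT.and (PT.lt ht hT) (PT.lt hj hH)) ?_
  refine PT.ite (PT.eq hm (PT.const 1)) h0 ?_
  refine PT.ite (PT.eq hm (PT.const 2)) (PT.and h0 (PT.eq hj (PT.const 0))) ?_
  refine PT.ite (PT.eq hm (PT.const 3)) (PT.and (PT.eq ht hT) (PT.eq hj (PT.const 0))) ?_
  refine PT.ite (PT.eq hm (PT.const 4)) (PT.and (PT.and h0 (PT.lt hj hn)) hb) ?_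
  refine PT.ite (PT.eq hm (PT.const 5)) (PT.and (PT.and h0 (PT.lt hj hn)) (PT.not hb)) ?_
  refine PT.ite (PT.eq hm (PT.const 6)) (PT.and (PT.and h0 (PT.le hn hj))
    (PT.lt hj (PT.add hn hp))) ?_
  exact PT.and h0 (PT.le (PT.add hn hp) hj)

theorem PT.pos {j m : α → ℕ} (hj : PT j) (hm : PT m) : PT (fun a => Pool.NPC.pos (j a) (m a)) := by
  unfold Pool.NPC.pos
  exact PT.ite (PT.eq hm (PT.const 0)) hj (PT.ite (PT.eq hm (PT.const 1)) (PT.succ hj) (PT.const 0))

/-- a table function that vanishes beyond its range -/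
theorem PT.ofTable (f : ℕ → ℕ) (F : ℕ) (hf : ∀ n, F ≤ n → f n = 0) {g : α → ℕ} (hg : PT g) :
    PT (fun a => f (g a)) :=
  (PT.table f 0 F hg).congr fun a => by
    by_cases h : g a < F
    · simp [h]
    · simp [h, hf _ (Nat.le_of_not_lt h)]

end PTparts

theorem exists_slen_bound {K : Type} {Γ : K → Type} {Λ σ : Type} [Finite Λ]
    (M : Λ → Stmt Γ Λ σ) : ∃ s, ∀ l, slen (M l) ≤ s := by
  obtain ⟨s, hs⟩ := (Set.finite_range fun l => slen (M l)).bddAbove
  exact ⟨s, fun l => hs ⟨l, rfl⟩⟩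

open Classical in
/-- **Cook–Levin**: for every `A` in NP there is a polynomial time computable family of 3-CNFs,
satisfiable exactly for the members of `A`. -/
theorem cookLevin (A : Set (List Bool)) (hA : InNP A) :
    ∃ (nv nc : List Bool → ℕ) (lit : List Bool × (ℕ × ℕ) → ℕ), PT nv ∧ PT nc ∧ PT lit ∧
      (∀ x, ∀ c < nc x, ∀ d, lit (x, (c, d)) < 2 * nv x) ∧
      ∀ x, x ∈ A ↔ Sat3 (nc x) (fun c d => lit (x, (c, d))) := by
  obtain ⟨V, p, ⟨cm⟩, hV⟩ := hA
  set tm := cm.tm with htm
  have : Fintype tm.K := tm.kFin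
  have : Fintype tm.Λ := tm.ΛFin
  have : Fintype tm.σ := tm.σFin
  let inp : Bool ⊕ Bool → tm.Γ tm.k₀ := cm.inputAlphabet.symm
  let out : tm.Γ tm.k₁ := cm.outputAlphabet.symm false
  let c₀ : Ctrl tm.Γ tm.Λ tm.σ := (some (tm.m tm.main), tm.initialState)
  obtain ⟨s, hs⟩ := exists_slen_bound tm.m
  -- time bound
  let T : List Bool → ℕ := fun x => cm.time.eval (x.length + p.eval x.length) * s
  have hc₀ : c₀ ∈ FF tm.m := by
    intro q hq
    simp only [c₀, Option.some.injEq] at hq
    subst hq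
    exact ⟨_, stmts₁_self⟩
  have hinp : ∀ b, inp b ∈ GG tm.m tm.k₀ tm.k₁ inp out tm.k₀ := fun b => Or.inr (Or.inl ⟨b, rfl⟩)
  -- acceptance
  have hrun : ∀ x w : List Bool, w.length ≤ p.eval x.length →
      ((((mstep tm.m)^[T x] (c₀, stk₀ tm.k₀ inp x w)).2 tm.k₁).head? ≠ some out ↔
        V (x, w) = true) := by
    intro x w hw
    have ho := cm.outputsFun (x, w)
    obtain ⟨⟨steps, hsteps⟩, hle⟩ := ho
    have h1 := mstep_halts tm.m s hs steps _ _ _ hsteps (T x) (by
      refine Nat.mul_le_mul_right _ (hle.trans (poly_mono _ ?_))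
      simp only [encodingProd, encodingList, List.length_append, List.length_map, id]
      omega)
    have h2 : ofCfg tm.m (initList tm (List.map cm.inputAlphabet.invFun
        ((encodingProd (encodingList Bool) (encodingList Bool)).encode (x, w)))) =
        (c₀, stk₀ tm.k₀ inp x w) := by
      refine Prod.ext rfl ?_
      funext k
      show (initList tm _).stk k = stk₀ tm.k₀ inp x w k
      by_cases hk : k = tm.k₀
      · subst hk
        rw [initList_stk_self]
        simp only [encodingProd, encodingList, List.map_append, List.map_map, stk₀,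
          Function.update_self, id]
        rfl
      · rw [initList_stk_ne _ _ _ hk]
        simp only [stk₀]
        rw [Function.update_of_ne hk]
    have h1' : (mstep tm.m)^[T x] (c₀, stk₀ tm.k₀ inp x w) =
        ((none, tm.initialState), (haltList tm (List.map cm.outputAlphabet.invFun
          (encodingBoolBool.encode (V (x, w))))).stk) := by
      rw [← h2]; exact h1
    rw [h1']
    show ((haltList tm (List.map cm.outputAlphabet.invFun
          (encodingBoolBool.encode (V (x, w))))).stk tm.k₁).head? ≠ some out ↔ _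
    rw [haltList_stk_self]
    have e : (List.map cm.outputAlphabet.invFun (encodingBoolBool.encode (V (x, w)))).head? =
        some (cm.outputAlphabet.symm (V (x, w))) := rfl
    rw [e]
    simp only [ne_eq, Option.some.injEq, out, EmbeddingLike.apply_eq_iff_eq]
    cases V (x, w) <;> simp
  -- the rules
  have hfinR := finite_rules tm.m tm.k₀ tm.k₁ inp out c₀ hc₀
  have hfinK := finite_KS tm.m tm.k₀ tm.k₁ inp out
  obtain ⟨rules, hrules⟩ : ∃ L : List (Rule (Kind tm.Γ tm.Λ tm.σ)), ∀ r, r ∈ L ↔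
      IsRule tm.m (FF tm.m) (GG tm.m tm.k₀ tm.k₁ inp out) c₀ tm.k₀ tm.k₁ inp out r :=
    ⟨hfinR.toFinset.toList, fun r => by simp⟩
  obtain ⟨kinds, hkinds⟩ : ∃ L : List (Kind tm.Γ tm.Λ tm.σ), ∀ r, r ∈ L ↔
      r ∈ KS tm.m tm.k₀ tm.k₁ inp out := ⟨hfinK.toFinset.toList, fun r => by simp⟩
  have hRpos : 0 < rules.length := List.length_pos_of_mem ((hrules _).2 .rest)
  have hk : ∀ r ∈ rules, ∀ d, (r.lit d).kd ∈ kinds ∧ (r.lit d).dt ≤ 1 := by
    intro r hr d
    obtain ⟨_, h1, h2, h3⟩ := rule_mem tm.m tm.k₀ tm.k₁ inp out c₀ hc₀ r ((hrules r).1 hr)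
    rw [hkinds]
    unfold Rule.lit
    split_ifs
    · exact ⟨h1.2.2, by have := h1.1; omega⟩
    · exact ⟨h2.2.2, by have := h2.1; omega⟩
    · exact ⟨h3.2.2, by have := h3.1; omega⟩
  have hkpos : 0 < kinds.length :=
    List.length_pos_of_mem (hk _ ((hrules _).2 .rest) 0).1
  -- tables
  let mode : ℕ → ℕ := fun φ => if h : φ < rules.length then rules[φ].mode else 0
  let nlT : ℕ → NLit := fun i => if h : i / 3 < rules.length then
    ⟨if (rules[i / 3].lit (i % 3)).sg = true then 0 else 1, (rules[i / 3].lit (i % 3)).dt,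
      (rules[i / 3].lit (i % 3)).jm, kinds.idxOf (rules[i / 3].lit (i % 3)).kd⟩ else ⟨0, 0, 0, 0⟩
  let nl : ℕ → ℕ → NLit := fun φ d => nlT (3 * φ + min d 2)
  have hdiv : ∀ φ d : ℕ, (3 * φ + min d 2) / 3 = φ := fun φ d => by omega
  have hmod : ∀ φ d : ℕ, (3 * φ + min d 2) % 3 = min d 2 := fun φ d => by omega
  have hlitmin : ∀ (r : Rule (Kind tm.Γ tm.Λ tm.σ)) (d : ℕ), r.lit (min d 2) = r.lit d := by
    intro r d
    unfold Rule.lit
    have h0 : (min d 2 = 0) ↔ (d = 0) := by omega
    have h1 : (min d 2 = 1) ↔ (d = 1) := by omega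
    simp only [h0, h1]
  have hmode : ∀ φ (h : φ < rules.length), mode φ = rules[φ].mode := fun φ h => dif_pos h
  have hnl : ∀ φ (h : φ < rules.length), ∀ d, nl φ d =
      ⟨if (rules[φ].lit d).sg = true then 0 else 1,
      (rules[φ].lit d).dt, (rules[φ].lit d).jm, kinds.idxOf (rules[φ].lit d).kd⟩ := by
    intro φ h d
    have h' : (3 * φ + min d 2) / 3 < rules.length := by rw [hdiv]; exact h
    show nlT (3 * φ + min d 2) = _
    simp only [nlT]
    rw [dif_pos h']
    simp only [hdiv, hmod, hlitmin]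
  let ap : List Bool → ℕ → ℕ → ℕ → Bool := fun x m t j =>
    app x.length (p.eval x.length) (T x) (T x) (fun i => x.getD i false) m t j
  -- polynomial time
  have hT : PT T := PT.mul (PT.polyEval _ (PT.add (PT.length PT.id)
    (PT.polyEval _ (PT.length PT.id)))) (PT.const s)
  have hmodePT : ∀ {α : Type} [Enc α] {f : α → ℕ}, PT f → PT (fun a => mode (f a)) := by
    intro α _ f hf
    exact PT.ofTable mode rules.length (fun n hn => dif_neg (by omega)) hf
  have hnlPT : ∀ (g : NLit → ℕ), g ⟨0, 0, 0, 0⟩ = 0 → ∀ {α : Type} [Enc α] {f d : α → ℕ},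
      PT f → PT d → PT (fun a => g (nl (f a) (d a))) := by
    intro g hg α _ f d hf hd
    refine PT.ofTable (fun i => g (nlT i)) (3 * rules.length) (fun n hn => ?_)
      (PT.add (PT.mul (PT.const 3) hf) (PT.min hd (PT.const 2)))
    have : ¬ n / 3 < rules.length := by omega
    simp only [nlT]
    rw [dif_neg this, hg]
  refine ⟨fun x => (T x + 2) * (T x + 2) * kinds.length,
    fun x => (T x + 1) * (T x + 1) * rules.length,
    fun a => clauseLit rules.length (T a.1) kinds.length (ap a.1) mode nl a.2.1 a.2.2,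
    ?_, ?_, ?_, ?_, ?_⟩
  · exact PT.mul (PT.mul (PT.succ (PT.succ hT)) (PT.succ (PT.succ hT))) (PT.const _)
  · exact PT.mul (PT.mul (PT.succ hT) (PT.succ hT)) (PT.const _)
  · -- the literal function
    have hx : PT (fun a : List Bool × (ℕ × ℕ) => a.1) := PT.fst
    have hTx : PT (fun a : List Bool × (ℕ × ℕ) => T a.1) := PT.comp hT hx
    have hc : PT (fun a : List Bool × (ℕ × ℕ) => a.2.1) := PT.fst' PT.snd
    have hd : PT (fun a : List Bool × (ℕ × ℕ) => a.2.2) := PT.snd' PT.snd
    have hφ := PT.mod hc (PT.const rules.length)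
    have hq := PT.div hc (PT.const rules.length)
    have hj := PT.mod hq (PT.succ hTx)
    have ht := PT.div hq (PT.succ hTx)
    have hlen := PT.length hx
    unfold clauseLit
    refine PT.ite ?_ ?_ (PT.ite (PT.eq hd (PT.const 0)) (PT.const 0) (PT.const 1))
    · refine (PT.app hlen (PT.polyEval p hlen) hTx hTx (hmodePT hφ) ht hj hx).congr fun a => ?_
      exact Bool.decide_eq_true
    · unfold litNum varNum
      refine PT.add (PT.mul (PT.const 2) (PT.add (PT.mul (PT.add (PT.mul (PT.add ht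
        (hnlPT NLit.dt rfl hφ hd)) (PT.succ (PT.succ hTx))) ?_) (PT.const _))
        (hnlPT NLit.kn rfl hφ hd))) (hnlPT NLit.sg rfl hφ hd)
      exact PT.pos hj (hnlPT NLit.jm rfl hφ hd)
  · intro x c hc d
    refine clauseLit_lt _ _ _ _ hRpos hkpos _ _ _ ?_ c d hc
    intro φ hφ d
    rw [hnl φ hφ]
    have := hk _ (List.getElem_mem hφ) d
    refine ⟨?_, this.2, List.idxOf_lt_length_iff.2 this.1⟩
    show (if (rules[φ].lit d).sg = true then 0 else 1) ≤ 1
    split_ifs <;> omega
  · intro x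
    rw [sat3_numbering rules kinds (T x) (T x) (ap x) hk hRpos mode nl hmode hnl, hV]
    constructor
    · rintro ⟨w, hw, hVw⟩
      refine ⟨fact fun t => (mstep tm.m)^[t] (c₀, stk₀ tm.k₀ inp x w), ?_⟩
      intro r hr t ht j hj hap
      exact rules_of_run x w (p.eval x.length) (T x) (T x) hw ((hrun x w hw).2 hVw) r
        ((hrules r).1 hr) t j hap
    · rintro ⟨X, hX⟩
      obtain ⟨w, hw, hacc⟩ := run_of_rules (closed_FF tm.m tm.k₀ tm.k₁ inp out) hc₀ hinp x
        (p.eval x.length) (T x) (T x) le_rfl X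
        (fun r hr t ht j hj hap => hX r ((hrules r).2 hr) t ht j hj hap)
      exact ⟨w, hw, (hrun x w hw).1 hacc⟩

end Pool.NPC
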