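import Mathlib

/-!
# A structured language of stack programs and its compilation to Mathlib's `FinTM2`

Stacks (registers) are numbered by `ℕ` and hold bit strings; a program touches finitely many of
them.  `Exec c S S' t` : started in state `S` the command `c` ends in state `S'` after `t` steps.
-/

namespace Pool.NPC

open Turing Turing.TM2

/-- contents of the registers -/
abbrev State := ℕ → List Bool

/-- structured stack programs -/
inductive Cmd : Type
  | nop : Cmd
  | push (r : ℕ) (b : Bool) : Cmd
  | pop (r : ℕ) : Cmd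
  | seq (c d : Cmd) : Cmd
  | case (r : ℕ) (c : Option Bool → Cmd) : Cmd
  | loop (r : ℕ) (c : Bool → Cmd) : Cmd

/-- big-step semantics with cost -/
inductive Exec : Cmd → State → State → ℕ → Prop
  | nop (S) : Exec .nop S S 1
  | push (r b S) : Exec (.push r b) S (Function.update S r (b :: S r)) 1
  | pop (r S) : Exec (.pop r) S (Function.update S r (S r).tail) 1
  | seq {c d S S' S'' t t'} : Exec c S S' t → Exec d S' S'' t' → Exec (.seq c d) S S'' (t + t')
  | case {r c S S' t} : Exec (c (S r).head?) S S' t → Exec (.case r c) S S' (1 + t)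
  | loop_nil {r c S} : S r = [] → Exec (.loop r c) S S 1
  | loop_cons {r c S b l S' t S'' t'} : S r = b :: l →
      Exec (c b) (Function.update S r l) S' t → Exec (.loop r c) S' S'' t' →
      Exec (.loop r c) S S'' (1 + (t + t'))

/-- program points -/
inductive Pos : Cmd → Type
  | nop : Pos .nop
  | push (r b) : Pos (.push r b)
  | pop (r) : Pos (.pop r)
  | seqL {c d} (p : Pos c) : Pos (.seq c d)
  | seqR {c d} (p : Pos d) : Pos (.seq c d)
  | caseH (r c) : Pos (.case r c)
  | caseB {r c} (o) (p : Pos (c o)) : Pos (.case r c)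
  | loopH (r c) : Pos (.loop r c)
  | loopB {r c} (b) (p : Pos (c b)) : Pos (.loop r c)

theorem finite_pos (c : Cmd) : Finite (Pos c) := by
  induction c with
  | nop => exact Finite.of_surjective (fun _ : Unit => Pos.nop) (by rintro ⟨⟩; exact ⟨(), rfl⟩)
  | push r b =>
    exact Finite.of_surjective (fun _ : Unit => Pos.push r b) (by rintro ⟨⟩; exact ⟨(), rfl⟩)
  | pop r =>
    exact Finite.of_surjective (fun _ : Unit => Pos.pop r) (by rintro ⟨⟩; exact ⟨(), rfl⟩)
  | seq c d ih1 ih2 =>
    exact Finite.of_surjective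
      (fun x : Pos c ⊕ Pos d => Sum.elim (Pos.seqL (d := d)) (Pos.seqR (c := c)) x) (by
        rintro (_ | _ | _ | p | p)
        · exact ⟨Sum.inl p, rfl⟩
        · exact ⟨Sum.inr p, rfl⟩)
  | case r c ih =>
    exact Finite.of_surjective
      (fun x : Unit ⊕ (Σ o, Pos (c o)) =>
        Sum.elim (fun _ => Pos.caseH r c) (fun y => Pos.caseB y.1 y.2) x) (by
        rintro (_ | _ | _ | _ | _ | _ | ⟨o, p⟩)
        · exact ⟨Sum.inl (), rfl⟩
        · exact ⟨Sum.inr ⟨o, p⟩, rfl⟩)
  | loop r c ih =>
    exact Finite.of_surjective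
      (fun x : Unit ⊕ (Σ o, Pos (c o)) =>
        Sum.elim (fun _ => Pos.loopH r c) (fun y => Pos.loopB y.1 y.2) x) (by
        rintro (_ | _ | _ | _ | _ | _ | _ | _ | ⟨o, p⟩)
        · exact ⟨Sum.inl (), rfl⟩
        · exact ⟨Sum.inr ⟨o, p⟩, rfl⟩)

namespace Cmd

/-- a bound for the registers mentioned -/
def maxReg : Cmd → ℕ
  | nop => 0
  | push r _ => r
  | pop r => r
  | seq c d => max c.maxReg d.maxReg
  | case r c => max r (max (c none).maxReg (max (c (some false)).maxReg (c (some true)).maxReg))
  | loop r c => max r (max (c false).maxReg (c true).maxReg)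

/-- first program point -/
def entry : (c : Cmd) → Pos c
  | nop => .nop
  | push r b => .push r b
  | pop r => .pop r
  | seq c _ => .seqL c.entry
  | case r c => .caseH r c
  | loop r c => .loopH r c

end Cmd

open Cmd

/-- machine stack for a register -/
def clamp (B r : ℕ) : Fin (B + 1) := ⟨min r B, by omega⟩

/-- machine code -/
def code (B : ℕ) {Λ : Type} : (c : Cmd) → (Pos c → Λ) → Λ → Pos c →
    Stmt (fun _ : Fin (B + 1) => Bool) Λ (Option Bool)
  | .nop, _, exit, .nop => .goto fun _ => exit
  | .push r b, _, exit, .push _ _ => .push (clamp B r) (fun _ => b) (.goto fun _ => exit)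
  | .pop r, _, exit, .pop _ => .pop (clamp B r) (fun s _ => s) (.goto fun _ => exit)
  | .seq c d, emb, _, .seqL p => code B c (fun q => emb (.seqL q)) (emb (.seqR d.entry)) p
  | .seq _ d, emb, exit, .seqR p => code B d (fun q => emb (.seqR q)) exit p
  | .case r c, emb, _, .caseH _ _ =>
      .peek (clamp B r) (fun _ o => o) (.goto fun s => emb (.caseB s (c s).entry))
  | .case _ c, emb, exit, .caseB o p => code B (c o) (fun q => emb (.caseB o q)) exit p
  | .loop r c, emb, exit, .loopH _ _ =>
      .pop (clamp B r) (fun _ o => o) (.goto fun s =>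
        match s with
        | none => exit
        | some b => emb (.loopB b (c b).entry))
  | .loop r c, emb, _, .loopB b p => code B (c b) (fun q => emb (.loopB b q)) (emb (.loopH r c)) p

/-- `t` steps of a TM2 machine -/
def Reach {K : Type} [DecidableEq K] {Γ : K → Type} {Λ σ : Type}
    (M : Λ → Stmt Γ Λ σ) (t : ℕ) (a b : Cfg Γ Λ σ) : Prop :=
  (flip bind (TM2.step M))^[t] (some a) = some b

theorem Reach.refl {K : Type} [DecidableEq K] {Γ : K → Type} {Λ σ : Type}
    (M : Λ → Stmt Γ Λ σ) (a : Cfg Γ Λ σ) : Reach M 0 a a := rfl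

theorem Reach.trans {K : Type} [DecidableEq K] {Γ : K → Type} {Λ σ : Type}
    {M : Λ → Stmt Γ Λ σ} {t t' : ℕ} {a b c : Cfg Γ Λ σ} (h : Reach M t a b)
    (h' : Reach M t' b c) : Reach M (t + t') a c := by
  unfold Reach at *
  rw [Nat.add_comm, Function.iterate_add_apply, h, h']

theorem Reach.one {K : Type} [DecidableEq K] {Γ : K → Type} {Λ σ : Type}
    {M : Λ → Stmt Γ Λ σ} {a b : Cfg Γ Λ σ} (h : TM2.step M a = some b) : Reach M 1 a b := by
  unfold Reach
  simp only [Function.iterate_one]
  exact h

/-- restriction of a state to the machine stacks -/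
def res (B : ℕ) (S : State) : Fin (B + 1) → List Bool := fun k => S k

theorem res_update (B r : ℕ) (hr : r ≤ B) (S : State) (v : List Bool) :
    Function.update (res B S) (clamp B r) v = res B (Function.update S r v) := by
  funext k
  have hk : (k = clamp B r) ↔ ((k : ℕ) = r) := by
    rw [Fin.ext_iff]; simp only [clamp]; rw [Nat.min_eq_left hr]
  unfold res
  by_cases h : k = clamp B r
  · rw [h, Function.update_self]
    have : ((clamp B r : Fin (B + 1)) : ℕ) = r := by simp only [clamp]; rw [Nat.min_eq_left hr]
    rw [this, Function.update_self]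
  · rw [Function.update_of_ne h, Function.update_of_ne (fun h' => h (hk.2 h'))]

theorem res_clamp (B r : ℕ) (hr : r ≤ B) (S : State) : res B S (clamp B r) = S r := by
  simp only [res, clamp]; rw [Nat.min_eq_left hr]

theorem code_correct (B : ℕ) {Λ : Type}
    (M : Λ → Stmt (fun _ : Fin (B + 1) => Bool) Λ (Option Bool))
    {c : Cmd} {S S' : State} {t : ℕ} (h : Exec c S S' t) : c.maxReg ≤ B →
    ∀ (emb : Pos c → Λ) (exit : Λ), (∀ p, M (emb p) = code B c emb exit p) →
    ∀ v, ∃ v', Reach M t ⟨some (emb c.entry), v, res B S⟩ ⟨some exit, v', res B S'⟩ := by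
  induction h with
  | nop S =>
    intro _ emb exit hM v
    refine ⟨v, Reach.one ?_⟩
    simp only [TM2.step, hM]
    simp [code, entry, TM2.stepAux]
  | push r b S =>
    intro hB emb exit hM v
    refine ⟨v, Reach.one ?_⟩
    simp only [maxReg] at hB
    simp only [TM2.step, hM]
    simp only [code, entry, TM2.stepAux]
    rw [res_clamp B r hB, res_update B r hB]
  | pop r S =>
    intro hB emb exit hM v
    refine ⟨v, Reach.one ?_⟩
    simp only [maxReg] at hB
    simp only [TM2.step, hM]
    simp only [code, entry, TM2.stepAux]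
    rw [res_clamp B r hB, res_update B r hB]
  | @seq c d S S' S'' t t' h1 h2 ih1 ih2 =>
    intro hB emb exit hM v
    simp only [maxReg] at hB
    obtain ⟨v1, r1⟩ := ih1 (by omega) (fun q => emb (.seqL q)) (emb (.seqR d.entry))
      (fun p => by rw [hM]; rfl) v
    obtain ⟨v2, r2⟩ := ih2 (by omega) (fun q => emb (.seqR q)) exit
      (fun p => by rw [hM]; rfl) v1
    exact ⟨v2, r1.trans r2⟩
  | @case r c S S' t h1 ih =>
    intro hB emb exit hM v
    simp only [maxReg] at hB
    have hB' : (c (S r).head?).maxReg ≤ B := by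
      rcases (S r).head? with _ | _ | _ <;> omega
    obtain ⟨v1, r1⟩ := ih hB' (fun q => emb (.caseB (S r).head? q)) exit
      (fun p => by rw [hM]; rfl) (S r).head?
    refine ⟨v1, ?_⟩
    refine Reach.trans (Reach.one ?_) r1
    simp only [TM2.step, hM, entry]
    simp only [code, TM2.stepAux]
    rw [res_clamp B r (by omega)]
  | @loop_nil r c S hS =>
    intro hB emb exit hM v
    simp only [maxReg] at hB
    refine ⟨none, Reach.one ?_⟩
    simp only [TM2.step, hM, entry]
    simp only [code, TM2.stepAux]
    rw [res_clamp B r (by omega), hS, res_update B r (by omega)]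
    simp only [List.head?_nil, List.tail_nil]
    congr 2
    rw [← hS, Function.update_eq_self]
  | @loop_cons r c S b l S' t S'' t' hS h1 h2 ih1 ih2 =>
    intro hB emb exit hM v
    have hB0 := hB
    simp only [maxReg] at hB
    have hB' : (c b).maxReg ≤ B := by
      rcases b with _ | _ <;> omega
    obtain ⟨v1, r1⟩ := ih1 hB' (fun q => emb (.loopB b q)) (emb (.loopH r c))
      (fun p => by rw [hM]; rfl) (some b)
    obtain ⟨v2, r2⟩ := ih2 hB0 emb exit hM v1
    refine ⟨v2, ?_⟩
    refine Reach.trans (Reach.one ?_) (r1.trans r2)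
    simp only [TM2.step, hM, entry]
    simp only [code, TM2.stepAux]
    rw [res_clamp B r (by omega), hS, res_update B r (by omega)]
    simp only [List.head?_cons, List.tail_cons]

end Pool.NPC
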