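import Pool.Agent.NPC.CookLevin

/-!
# 3-SAT to k-colourability (k ≥ 3)
-/

namespace Pool.NPC.Col

open Pool.NPC

/-- one-directional edges on pairs `(kind, a)`, kinds `0..6`:
  kind 0: palette vertex number `a < k` (0 = True, 1 = False, 2 = Base, others = extra colours)
  kind 1: literal vertex number `a` (literal `a`; `a < 2*nv`)
  kinds 2,3,4,5,6: clause gadget vertices `p,q,r,p',q'` of clause `a < nc`. -/
def half (k nv nc : ℕ) (lit : ℕ → ℕ → ℕ) (x a y b : ℕ) : Bool :=
  -- palette clique
  (x == 0 && y == 0 && decide (a < k) && decide (b < k) && a != b) ||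
  -- literal vertices see all palette vertices but True and False
  (x == 0 && y == 1 && decide (a < k) && decide (2 ≤ a) && decide (b < 2 * nv)) ||
  -- gadget vertices see all palette vertices of number ≥ 3
  (x == 0 && decide (2 ≤ y) && decide (a < k) && decide (3 ≤ a) && decide (b < nc)) ||
  -- p', q' see True
  (x == 0 && decide (5 ≤ y) && a == 0 && decide (b < nc)) ||
  -- opposite literals
  (x == 1 && y == 1 && decide (a < 2 * nv) && decide (b < 2 * nv) && a / 2 == b / 2 && a != b) ||
  -- p - lit 0, q - lit 1, q' - lit 2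
  (x == 1 && y == 2 && decide (b < nc) && a == lit b 0) ||
  (x == 1 && y == 3 && decide (b < nc) && a == lit b 1) ||
  (x == 1 && y == 6 && decide (b < nc) && a == lit b 2) ||
  -- triangle p q r, edge r - p', edge p' - q'
  (a == b && decide (b < nc) &&
    ((x == 2 && y == 3) || (x == 2 && y == 4) || (x == 3 && y == 4) || (x == 4 && y == 5) ||
      (x == 5 && y == 6)))

/-- number of vertices of the graph -/
def nG (k nv nc : ℕ) : ℕ := 7 * (2 * nv + nc + k)

/-- adjacency on numbers `u = 7 * a + kind < nG k nv nc` -/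
def colAdj (k nv nc : ℕ) (lit : ℕ → ℕ → ℕ) (u v : ℕ) : Bool :=
  decide (u < nG k nv nc) && decide (v < nG k nv nc) &&
    (half k nv nc lit (u % 7) (u / 7) (v % 7) (v / 7) ||
      half k nv nc lit (v % 7) (v / 7) (u % 7) (u / 7))

theorem colAdj_symm (k nv nc : ℕ) (lit : ℕ → ℕ → ℕ) (u v : ℕ) :
    colAdj k nv nc lit u v = colAdj k nv nc lit v u := by
  unfold colAdj
  rw [Bool.or_comm, Bool.and_comm (decide (u < nG k nv nc))]

theorem colAdj_irrefl (k nv nc : ℕ) (lit : ℕ → ℕ → ℕ) (u : ℕ) :
    colAdj k nv nc lit u u = false := by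
  have h : ∀ x a, half k nv nc lit x a x a = false := by
    intro x a
    by_contra hc
    rw [Bool.not_eq_false] at hc
    simp [half] at hc
    omega
  simp [colAdj, h]

theorem colAdj_lt (k nv nc : ℕ) (lit : ℕ → ℕ → ℕ) (u v : ℕ)
    (h : colAdj k nv nc lit u v = true) : u < nG k nv nc := by
  simp [colAdj] at h
  exact h.1.1

/-- the colours of a satisfying assignment -/
def colN (k : ℕ) (lit : ℕ → ℕ → ℕ) (τ : ℕ → Bool) (x a : ℕ) : ℕ :=
  if x = 0 then (if a < k then a else 0)
  else if x = 1 then (if litTrue τ a = true then 0 else 1)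
  else
    let b0 := litTrue τ (lit a 0)
    let b1 := litTrue τ (lit a 1)
    if x = 2 then (if b0 = true then 1 else if b1 = true then 2 else 0)
    else if x = 3 then (if b0 = true then 2 else if b1 = true then 1 else 2)
    else if x = 4 then (if b0 = true ∨ b1 = true then 0 else 1)
    else if x = 5 then (if b0 = true ∨ b1 = true then 1 else 2)
    else (if b0 = true ∨ b1 = true then 2 else 1)

theorem colN_lt (k : ℕ) (hk : 3 ≤ k) (lit : ℕ → ℕ → ℕ) (τ : ℕ → Bool) (x a : ℕ) :
    colN k lit τ x a < k := by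
  unfold colN
  simp only
  split_ifs <;> omega

theorem litTrue_opposite (τ : ℕ → Bool) (a b : ℕ) (h1 : a / 2 = b / 2) (h2 : a ≠ b) :
    litTrue τ a = !(litTrue τ b) := by
  unfold litTrue
  rw [h1]
  have : (a % 2 = 0 ∧ ¬ b % 2 = 0) ∨ (¬ a % 2 = 0 ∧ b % 2 = 0) := by omega
  rcases this with ⟨h3, h4⟩ | ⟨h3, h4⟩ <;> simp [h3, h4]

theorem colN_proper (k nv nc : ℕ) (lit : ℕ → ℕ → ℕ) (τ : ℕ → Bool)
    (hτ : ∀ c < nc, ∃ d < 3, litTrue τ (lit c d) = true) (x a y b : ℕ) (hy : y < 7)
    (h : half k nv nc lit x a y b = true) : colN k lit τ x a ≠ colN k lit τ y b := by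
  have hcl : b < nc → litTrue τ (lit b 0) = true ∨ litTrue τ (lit b 1) = true ∨
      litTrue τ (lit b 2) = true := by
    intro hb
    obtain ⟨d, hd, h⟩ := hτ b hb
    have : d = 0 ∨ d = 1 ∨ d = 2 := by omega
    rcases this with rfl | rfl | rfl <;> simp [h]
  unfold half at h
  simp only [Bool.or_eq_true, Bool.and_eq_true, beq_iff_eq, decide_eq_true_eq, bne_iff_ne] at h
  rcases h with (((((((h | h) | h) | h) | h) | h) | h) | h) | h
  · obtain ⟨⟨⟨⟨rfl, rfl⟩, h1⟩, h2⟩, h3⟩ := h
    simp only [colN, if_true, h1, h2]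
    exact h3
  · obtain ⟨⟨⟨⟨rfl, rfl⟩, h1⟩, h2⟩, h3⟩ := h
    simp only [colN, if_true, h1, one_ne_zero, if_false]
    split_ifs <;> omega
  · obtain ⟨⟨⟨⟨rfl, h0⟩, h1⟩, h2⟩, h3⟩ := h
    have e0 : ¬ y = 0 := by omega
    have e1 : ¬ y = 1 := by omega
    simp only [colN, if_true, h1, e0, e1, if_false]
    split_ifs <;> omega
  · obtain ⟨⟨⟨rfl, h0⟩, rfl⟩, h3⟩ := h
    have e0 : ¬ y = 0 := by omega
    have e1 : ¬ y = 1 := by omega
    have e2 : ¬ y = 2 := by omega
    have e3 : ¬ y = 3 := by omega
    have e4 : ¬ y = 4 := by omega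
    simp only [colN, if_true, e0, e1, e2, e3, e4, if_false]
    split_ifs <;> omega
  · obtain ⟨⟨⟨⟨⟨rfl, rfl⟩, h1⟩, h2⟩, h3⟩, h4⟩ := h
    have := litTrue_opposite τ a b h3 h4
    simp only [colN, if_true, one_ne_zero, if_false, this]
    cases litTrue τ b <;> simp
  · obtain ⟨⟨⟨rfl, rfl⟩, h1⟩, rfl⟩ := h
    simp only [colN]
    cases litTrue τ (lit b 0) <;> cases litTrue τ (lit b 1) <;> simp
  · obtain ⟨⟨⟨rfl, rfl⟩, h1⟩, rfl⟩ := h
    simp only [colN]
    cases litTrue τ (lit b 0) <;> cases litTrue τ (lit b 1) <;> simp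
  · obtain ⟨⟨⟨rfl, rfl⟩, h1⟩, rfl⟩ := h
    have := hcl h1
    revert this
    simp only [colN]
    cases litTrue τ (lit b 0) <;> cases litTrue τ (lit b 1) <;> cases litTrue τ (lit b 2) <;> simp
  · obtain ⟨⟨rfl, h1⟩, h⟩ := h
    rcases h with (((⟨rfl, rfl⟩ | ⟨rfl, rfl⟩) | ⟨rfl, rfl⟩) | ⟨rfl, rfl⟩) | ⟨rfl, rfl⟩ <;>
    · simp only [colN]
      cases litTrue τ (lit a 0) <;> cases litTrue τ (lit a 1) <;> simp

theorem sat3_iff_colorable (k nv nc : ℕ) (hk : 3 ≤ k) (lit : ℕ → ℕ → ℕ)
    (hlit : ∀ c < nc, ∀ d < 3, lit c d < 2 * nv) :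
    Sat3 nc lit ↔ ∃ col : ℕ → Fin k, ∀ u v, colAdj k nv nc lit u v = true → col u ≠ col v := by
  constructor
  · rintro ⟨τ, hτ⟩
    refine ⟨fun u => ⟨colN k lit τ (u % 7) (u / 7), colN_lt k hk lit τ _ _⟩, ?_⟩
    intro u v h heq
    rw [Fin.mk.injEq] at heq
    unfold colAdj at h
    simp only [Bool.and_eq_true, Bool.or_eq_true] at h
    rcases h.2 with h | h
    · exact colN_proper k nv nc lit τ hτ _ _ _ _ (Nat.mod_lt _ (by norm_num)) h heq
    · exact colN_proper k nv nc lit τ hτ _ _ _ _ (Nat.mod_lt _ (by norm_num)) h heq.symm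
  · rintro ⟨col, hcol⟩
    -- half edges are proper
    have hh : ∀ x a y b, x < 7 → y < 7 → a < 2 * nv + nc + k → b < 2 * nv + nc + k →
        half k nv nc lit x a y b = true → col (7 * a + x) ≠ col (7 * b + y) := by
      intro x a y b hx hy ha hb h
      apply hcol
      have e1 : (7 * a + x) % 7 = x := by omega
      have e2 : (7 * a + x) / 7 = a := by omega
      have e3 : (7 * b + y) % 7 = y := by omega
      have e4 : (7 * b + y) / 7 = b := by omega
      unfold colAdj nG
      rw [e1, e2, e3, e4, h]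
      simp
      omega
    -- palette
    let pal : Fin k → Fin k := fun a => col (7 * a + 0)
    have hpinj : Function.Injective pal := by
      intro a b hab
      by_contra hne
      have hne' : (a : ℕ) ≠ b := fun h => hne (Fin.ext h)
      refine hh 0 a 0 b (by norm_num) (by norm_num) (by omega) (by omega) ?_ hab
      simp [half, hne']
    have hpsurj : Function.Surjective pal := Finite.surjective_of_injective hpinj
    set T := col (7 * 0 + 0) with hT
    set F := col (7 * 1 + 0) with hF
    set B := col (7 * 2 + 0) with hB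
    -- colours of literals
    have hl : ∀ a < 2 * nv, col (7 * a + 1) = T ∨ col (7 * a + 1) = F := by
      intro a ha
      obtain ⟨⟨y, hy⟩, hy2⟩ := hpsurj (col (7 * a + 1))
      by_cases hy3 : 2 ≤ y
      · exact absurd hy2 (hh 0 y 1 a (by norm_num) (by norm_num) (by omega) (by omega) (by
          simp [half, hy, hy3, ha]))
      · have : y = 0 ∨ y = 1 := by omega
        rcases this with rfl | rfl
        · exact Or.inl hy2.symm
        · exact Or.inr hy2.symm
    have hTF : T ≠ F := hh 0 0 0 1 (by norm_num) (by norm_num) (by omega) (by omega) (by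
      simp [half]; omega)
    -- colours of gadget vertices
    have hg : ∀ x, 2 ≤ x → x < 7 → ∀ c < nc, col (7 * c + x) = T ∨ col (7 * c + x) = F ∨
        col (7 * c + x) = B := by
      intro x hx hx7 c hc
      obtain ⟨⟨y, hy⟩, hy2⟩ := hpsurj (col (7 * c + x))
      by_cases hy3 : 3 ≤ y
      · exact absurd hy2 (hh 0 y x c (by norm_num) hx7 (by omega) (by omega) (by
          simp [half, hy, hy3, hc, hx]))
      · have : y = 0 ∨ y = 1 ∨ y = 2 := by omega
        rcases this with rfl | rfl | rfl
        · exact Or.inl hy2.symm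
        · exact Or.inr (Or.inl hy2.symm)
        · exact Or.inr (Or.inr hy2.symm)
    refine ⟨fun v => decide (col (7 * (2 * v) + 1) = T), ?_⟩
    have hτ : ∀ a < 2 * nv, litTrue (fun v => decide (col (7 * (2 * v) + 1) = T)) a = false →
        col (7 * a + 1) = F := by
      intro a ha h
      unfold litTrue at h
      by_cases ha2 : a % 2 = 0
      · have e : 2 * (a / 2) = a := by omega
        rw [if_pos ha2] at h
        simp only [e, decide_eq_false_iff_not] at h
        exact (hl a ha).resolve_left h
      · rw [if_neg ha2] at h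
        simp only [Bool.not_eq_false', decide_eq_true_eq] at h
        have hne := hh 1 (2 * (a / 2)) 1 a (by norm_num) (by norm_num) (by omega) (by omega) (by
          have : 2 * (a / 2) < 2 * nv := by omega
          have h3 : ¬ 2 * (a / 2) = a := by omega
          simp [half, ha, this, h3])
        rw [h] at hne
        exact (hl a ha).resolve_left hne.symm
    intro c hc
    by_contra hcon
    push Not at hcon
    have hf : ∀ d < 3, col (7 * (lit c d) + 1) = F := fun d hd =>
      hτ _ (hlit c hc d hd) (by simpa using hcon d hd)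
    have l0 := hlit c hc 0 (by norm_num)
    have l1 := hlit c hc 1 (by norm_num)
    have l2 := hlit c hc 2 (by norm_num)
    have c0 := hh 1 (lit c 0) 2 c (by norm_num) (by norm_num) (by omega) (by omega)
      (by simp [half, hc])
    have c1 := hh 1 (lit c 1) 3 c (by norm_num) (by norm_num) (by omega) (by omega)
      (by simp [half, hc])
    have c2 := hh 1 (lit c 2) 6 c (by norm_num) (by norm_num) (by omega) (by omega)
      (by simp [half, hc])
    rw [hf 0 (by norm_num)] at c0
    rw [hf 1 (by norm_num)] at c1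
    rw [hf 2 (by norm_num)] at c2
    have t1 := hh 2 c 3 c (by norm_num) (by norm_num) (by omega) (by omega) (by simp [half, hc])
    have t2 := hh 2 c 4 c (by norm_num) (by norm_num) (by omega) (by omega) (by simp [half, hc])
    have t3 := hh 3 c 4 c (by norm_num) (by norm_num) (by omega) (by omega) (by simp [half, hc])
    have t4 := hh 4 c 5 c (by norm_num) (by norm_num) (by omega) (by omega) (by simp [half, hc])
    have t5 := hh 5 c 6 c (by norm_num) (by norm_num) (by omega) (by omega) (by simp [half, hc])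
    have u5 := hh 0 0 5 c (by norm_num) (by norm_num) (by omega) (by omega) (by simp [half, hc])
    have u6 := hh 0 0 6 c (by norm_num) (by norm_num) (by omega) (by omega) (by simp [half, hc])
    have g2 := hg 2 (by norm_num) (by norm_num) c hc
    have g3 := hg 3 (by norm_num) (by norm_num) c hc
    have g4 := hg 4 (by norm_num) (by norm_num) c hc
    have g5 := hg 5 (by norm_num) (by norm_num) c hc
    have g6 := hg 6 (by norm_num) (by norm_num) c hc
    rw [← hT] at u5 u6
    have q6 : col (7 * c + 6) = B := by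
      rcases g6 with h | h | h
      · exact absurd h.symm u6
      · exact absurd h.symm c2
      · exact h
    have q5 : col (7 * c + 5) = F := by
      rcases g5 with h | h | h
      · exact absurd h.symm u5
      · exact h
      · exact absurd (h.trans q6.symm) t5
    have q4 : col (7 * c + 4) ≠ F := fun h => t4 (h.trans q5.symm)
    rcases g2 with h2 | h2 | h2
    · rcases g3 with h3 | h3 | h3
      · exact t1 (h2.trans h3.symm)
      · exact c1 h3.symm
      · rcases g4 with h4 | h4 | h4
        · exact t2 (h2.trans h4.symm)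
        · exact q4 h4
        · exact t3 (h3.trans h4.symm)
    · exact c0 h2.symm
    · rcases g3 with h3 | h3 | h3
      · rcases g4 with h4 | h4 | h4
        · exact t3 (h3.trans h4.symm)
        · exact q4 h4
        · exact t2 (h2.trans h4.symm)
      · exact c1 h3.symm
      · exact t1 (h2.trans h3.symm)

end Pool.NPC.Col
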