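import Pool.Agent.NPC.Rules

/-!
# Finiteness of the rule system of a finite machine
-/

namespace Pool.NPC

open Turing Turing.TM2

section

variable {K : Type} {Γ : K → Type} {Λ σ : Type}

/-- statements occurring in the machine -/
def subs (M : Λ → Stmt Γ Λ σ) : Set (Stmt Γ Λ σ) := {q | ∃ l, q ∈ stmts₁ (M l)}

/-- reachable control states -/
def FF (M : Λ → Stmt Γ Λ σ) : Set (Ctrl Γ Λ σ) := {c | ∀ q, c.1 = some q → q ∈ subs M}

/-- the pushed symbol of an effect -/
def pushOf : Eff Γ Λ σ → Option (Σ k, Γ k)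
  | .stay _ => none
  | .push k g _ => some ⟨k, g⟩
  | .read _ _ _ => none

/-- occurring symbols -/
def GS (M : Λ → Stmt Γ Λ σ) (k₀ k₁ : K) (inp : Bool ⊕ Bool → Γ k₀) (out : Γ k₁) :
    Set (Σ k, Γ k) :=
  {y | (∃ c ∈ FF M, pushOf (eff M c) = some y) ∨ (∃ b, y = ⟨k₀, inp b⟩) ∨ y = ⟨k₁, out⟩}

/-- occurring symbols of a stack -/
def GG (M : Λ → Stmt Γ Λ σ) (k₀ k₁ : K) (inp : Bool ⊕ Bool → Γ k₀) (out : Γ k₁) (k : K) :
    Set (Γ k) := {g | (⟨k, g⟩ : Σ k, Γ k) ∈ GS M k₀ k₁ inp out}

variable (M : Λ → Stmt Γ Λ σ) (k₀ k₁ : K) (inp : Bool ⊕ Bool → Γ k₀) (out : Γ k₁)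

theorem finite_subs [Finite Λ] : (subs M).Finite := by
  have : subs M = ⋃ l, (stmts₁ (M l) : Set (Stmt Γ Λ σ)) := by
    ext q; simp [subs]
  rw [this]
  exact Set.finite_iUnion fun l => (stmts₁ (M l)).finite_toSet

theorem finite_FF [Finite Λ] [Finite σ] : (FF M).Finite := by
  have h1 : (Set.insert none (some '' subs M) : Set (Option (Stmt Γ Λ σ))).Finite :=
    ((finite_subs M).image _).insert _
  refine (h1.prod (Set.finite_univ (α := σ))).subset ?_
  rintro ⟨c, v⟩ hc
  refine ⟨?_, trivial⟩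
  cases c with
  | none => exact Or.inl rfl
  | some q => exact Or.inr ⟨q, hc q rfl, rfl⟩

theorem finite_GS [Finite Λ] [Finite σ] : (GS M k₀ k₁ inp out).Finite := by
  have h1 : {y | ∃ c ∈ FF M, pushOf (eff M c) = some y}.Finite := by
    have := ((finite_FF M).image (fun c => pushOf (eff M c))).preimage
      (Option.some_injective (Σ k, Γ k)).injOn
    refine this.subset ?_
    rintro y ⟨c, hc, hy⟩
    exact ⟨c, hc, hy⟩
  have h2 : {y | ∃ b, y = (⟨k₀, inp b⟩ : Σ k, Γ k)}.Finite := by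
    have : {y | ∃ b, y = (⟨k₀, inp b⟩ : Σ k, Γ k)} =
        Set.range (fun b => (⟨k₀, inp b⟩ : Σ k, Γ k)) := by
      ext y; simp [eq_comm]
    rw [this]
    exact Set.finite_range _
  exact h1.union (h2.union (Set.finite_singleton _))

/-- the occurring kinds -/
def KS : Set (Kind Γ Λ σ) :=
  {y | match y with
    | .ctrl c => c ∈ FF M
    | .cell k o => o ∈ Vals (GG M k₀ k₁ inp out) k}

theorem finite_KS [Finite K] [Finite Λ] [Finite σ] : (KS M k₀ k₁ inp out).Finite := by
  have h1 := (finite_FF M).image (Kind.ctrl (Γ := Γ) (Λ := Λ) (σ := σ))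
  have h2 := (finite_GS M k₀ k₁ inp out).image
    (fun y => Kind.cell (Γ := Γ) (Λ := Λ) (σ := σ) y.1 (some y.2))
  have h3 := Set.finite_range (fun k : K => Kind.cell (Γ := Γ) (Λ := Λ) (σ := σ) k none)
  refine ((h1.union h2).union h3).subset ?_
  rintro (c | ⟨k, o⟩) hy
  · exact Or.inl (Or.inl ⟨c, hy, rfl⟩)
  · cases o with
    | none => exact Or.inr ⟨k, rfl⟩
    | some g => exact Or.inl (Or.inr ⟨⟨k, g⟩, hy g rfl, rfl⟩)

theorem closed_FF : Closed M (FF M) (GG M k₀ k₁ inp out) := by
  have key : ∀ (c : Ctrl Γ Λ σ), c ∈ FF M → ∀ q, c.1 = some q → ∀ q', q' ∈ stmts₁ q →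
      q' ∈ subs M := by
    intro c hc q hq q' hq'
    obtain ⟨l, hl⟩ := hc q hq
    exact ⟨l, stmts₁_trans hl hq'⟩
  refine ⟨?_, ?_, ?_⟩
  · rintro ⟨c, v⟩ hc c' h
    cases c with
    | none =>
      simp only [eff, Eff.stay.injEq] at h
      subst h
      exact hc
    | some q =>
      have hk := key _ hc q rfl
      cases q with
      | push k f q => simp [eff] at h
      | peek k f q => simp [eff] at h
      | pop k f q => simp [eff] at h
      | load a q =>
        simp only [eff, Eff.stay.injEq] at h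
        subst h
        intro q' hq'
        simp only [Option.some.injEq] at hq'
        subst hq'
        exact hk _ (by simp [stmts₁, stmts₁_self])
      | branch f q₁ q₂ =>
        simp only [eff, Eff.stay.injEq] at h
        subst h
        intro q' hq'
        simp only [Option.some.injEq] at hq'
        subst hq'
        cases f v
        · exact hk _ (by simp [stmts₁, stmts₁_self])
        · exact hk _ (by simp [stmts₁, stmts₁_self])
      | goto l =>
        simp only [eff, Eff.stay.injEq] at h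
        subst h
        intro q' hq'
        simp only [Option.some.injEq] at hq'
        subst hq'
        exact ⟨_, stmts₁_self⟩
      | halt =>
        simp only [eff, Eff.stay.injEq] at h
        subst h
        intro q' hq'
        simp at hq'
  · rintro ⟨c, v⟩ hc k g c' h
    refine ⟨Or.inl ⟨(c, v), hc, by rw [h]; rfl⟩, ?_⟩
    cases c with
    | none => simp [eff] at h
    | some q =>
      have hk := key _ hc q rfl
      cases q with
      | push k f q =>
        simp only [eff, Eff.push.injEq] at h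
        obtain ⟨_, _, h⟩ := h
        subst h
        intro q' hq'
        simp only [Option.some.injEq] at hq'
        subst hq'
        exact hk _ (by simp [stmts₁, stmts₁_self])
      | peek k f q => simp [eff] at h
      | pop k f q => simp [eff] at h
      | load a q => simp [eff] at h
      | branch f q₁ q₂ => simp [eff] at h
      | goto l => simp [eff] at h
      | halt => simp [eff] at h
  · rintro ⟨c, v⟩ hc k d f h o
    cases c with
    | none => simp [eff] at h
    | some q =>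
      have hk := key _ hc q rfl
      cases q with
      | push k f q => simp [eff] at h
      | peek k' f' q =>
        simp only [eff, Eff.read.injEq] at h
        obtain ⟨h1, h2, h3⟩ := h
        subst h1
        have h4 := eq_of_heq h3
        subst h4
        intro q' hq'
        simp only [Option.some.injEq] at hq'
        subst hq'
        exact hk _ (by simp [stmts₁, stmts₁_self])
      | pop k' f' q =>
        simp only [eff, Eff.read.injEq] at h
        obtain ⟨h1, h2, h3⟩ := h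
        subst h1
        have h4 := eq_of_heq h3
        subst h4
        intro q' hq'
        simp only [Option.some.injEq] at hq'
        subst hq'
        exact hk _ (by simp [stmts₁, stmts₁_self])
      | load a q => simp [eff] at h
      | branch f q₁ q₂ => simp [eff] at h
      | goto l => simp [eff] at h
      | halt => simp [eff] at h

/-- finite set of possible literals -/
def LS : Set (Lit (Kind Γ Λ σ)) := {l | l.dt < 2 ∧ l.jm < 3 ∧ l.kd ∈ KS M k₀ k₁ inp out}

theorem finite_LS [Finite K] [Finite Λ] [Finite σ] : (LS M k₀ k₁ inp out).Finite := by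
  have h1 := (((Set.finite_univ (α := Bool)).prod ((Set.finite_lt_nat 2).prod
    ((Set.finite_lt_nat 3).prod (finite_KS M k₀ k₁ inp out)))).image
    (fun y => (⟨y.1, y.2.1, y.2.2.1, y.2.2.2⟩ : Lit (Kind Γ Λ σ))))
  refine h1.subset ?_
  rintro ⟨sg, dt, jm, kd⟩ ⟨h1, h2, h3⟩
  exact ⟨⟨sg, dt, jm, kd⟩, ⟨trivial, h1, h2, h3⟩, rfl⟩

theorem rule_mem (c₀ : Ctrl Γ Λ σ) (hc₀ : c₀ ∈ FF M) (r : Rule (Kind Γ Λ σ))
    (hr : IsRule M (FF M) (GG M k₀ k₁ inp out) c₀ k₀ k₁ inp out r) :
    r.mode < 8 ∧ r.a ∈ LS M k₀ k₁ inp out ∧ r.b ∈ LS M k₀ k₁ inp out ∧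
      r.c ∈ LS M k₀ k₁ inp out := by
  have hcl := closed_FF M k₀ k₁ inp out
  have hnone : ∀ k, (none : Option (Γ k)) ∈ Vals (GG M k₀ k₁ inp out) k := by
    intro k g hg; simp at hg
  have hinp : ∀ b, (some (inp b)) ∈ Vals (GG M k₀ k₁ inp out) k₀ := by
    intro b g hg
    simp only [Option.some.injEq] at hg
    subst hg
    exact Or.inr (Or.inl ⟨b, rfl⟩)
  have hout : (some out) ∈ Vals (GG M k₀ k₁ inp out) k₁ := by
    intro g hg
    simp only [Option.some.injEq] at hg
    subst hg
    exact Or.inr (Or.inr rfl)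
  cases hr with
  | stay c hc c' h =>
    have := hcl.stay c hc c' h
    exact ⟨by simp, ⟨by simp [nC], by simp [nC], hc⟩, ⟨by simp [nC], by simp [nC], hc⟩,
      ⟨by simp [pC], by simp [pC], this⟩⟩
  | pushC c hc k g c' h =>
    have := (hcl.push c hc k g c' h).2
    exact ⟨by simp, ⟨by simp [nC], by simp [nC], hc⟩, ⟨by simp [nC], by simp [nC], hc⟩,
      ⟨by simp [pC], by simp [pC], this⟩⟩
  | pushT c hc k g c' h =>
    have := (hcl.push c hc k g c' h).1
    refine ⟨by simp, ⟨by simp [nC], by simp [nC], hc⟩, ⟨by simp [nC], by simp [nC], hc⟩,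
      ⟨by simp [pK], by simp [pK], ?_⟩⟩
    intro g' hg'
    simp only [Option.some.injEq] at hg'
    subst hg'
    exact this
  | pushK c hc k g c' h o ho =>
    exact ⟨by simp, ⟨by simp [nC], by simp [nC], hc⟩, ⟨by simp [nK], by simp [nK], ho⟩,
      ⟨by simp [pK], by simp [pK], ho⟩⟩
  | readC c hc k d f h o ho =>
    have := hcl.read c hc k d f h o
    exact ⟨by simp, ⟨by simp [nC], by simp [nC], hc⟩, ⟨by simp [nK], by simp [nK], ho⟩,
      ⟨by simp [pC], by simp [pC], this⟩⟩
  | readK c hc k f h o ho =>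
    exact ⟨by simp, ⟨by simp [nC], by simp [nC], hc⟩, ⟨by simp [nK], by simp [nK], ho⟩,
      ⟨by simp [pK], by simp [pK], ho⟩⟩
  | copy c hc k h o ho =>
    exact ⟨by simp, ⟨by simp [nC], by simp [nC], hc⟩, ⟨by simp [nK], by simp [nK], ho⟩,
      ⟨by simp [pK], by simp [pK], ho⟩⟩
  | initO k hk =>
    exact ⟨by simp, ⟨by simp [iK], by simp [iK], hnone k⟩, ⟨by simp [iK], by simp [iK], hnone k⟩,
      ⟨by simp [iK], by simp [iK], hnone k⟩⟩
  | initC => exact ⟨by simp, ⟨by simp, by simp, hc₀⟩, ⟨by simp, by simp, hc₀⟩,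
      ⟨by simp, by simp, hc₀⟩⟩
  | final => exact ⟨by simp, ⟨by simp [nK], by simp [nK], hout⟩, ⟨by simp [nK], by simp [nK], hout⟩,
      ⟨by simp [nK], by simp [nK], hout⟩⟩
  | inpT => exact ⟨by simp, ⟨by simp [iK], by simp [iK], hinp _⟩,
      ⟨by simp [iK], by simp [iK], hinp _⟩, ⟨by simp [iK], by simp [iK], hinp _⟩⟩
  | inpF => exact ⟨by simp, ⟨by simp [iK], by simp [iK], hinp _⟩,
      ⟨by simp [iK], by simp [iK], hinp _⟩, ⟨by simp [iK], by simp [iK], hinp _⟩⟩
  | wit => exact ⟨by simp, ⟨by simp [iK], by simp [iK], hinp _⟩,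
      ⟨by simp [iK], by simp [iK], hinp _⟩, ⟨by simp [iK], by simp [iK], hnone _⟩⟩
  | witN => exact ⟨by simp, ⟨by simp [nK], by simp [nK], hnone _⟩,
      ⟨by simp [nK], by simp [nK], hnone _⟩, ⟨by simp [iK], by simp [iK], hnone _⟩⟩
  | rest => exact ⟨by simp, ⟨by simp [iK], by simp [iK], hnone _⟩,
      ⟨by simp [iK], by simp [iK], hnone _⟩, ⟨by simp [iK], by simp [iK], hnone _⟩⟩

theorem finite_rules [Finite K] [Finite Λ] [Finite σ] (c₀ : Ctrl Γ Λ σ) (hc₀ : c₀ ∈ FF M) :
    {r | IsRule M (FF M) (GG M k₀ k₁ inp out) c₀ k₀ k₁ inp out r}.Finite := by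
  have hL := finite_LS M k₀ k₁ inp out
  have h1 := (((Set.finite_lt_nat 8).prod (hL.prod (hL.prod hL))).image
    (fun y => (⟨y.1, y.2.1, y.2.2.1, y.2.2.2⟩ : Rule (Kind Γ Λ σ))))
  refine h1.subset ?_
  rintro ⟨m, a, b, c⟩ hr
  obtain ⟨h2, h3, h4, h5⟩ := rule_mem M k₀ k₁ inp out c₀ hc₀ _ hr
  exact ⟨⟨m, a, b, c⟩, ⟨h2, h3, h4, h5⟩, rfl⟩

end

end Pool.NPC
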