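import Pool.Agent.NPC.PT

/-!
# Folds and bit primitives are in `PT`
-/

namespace Pool.NPC

open Tr Polynomial Enc

variable {α β γ : Type} [Enc α] [Enc β] [Enc γ]

/-- the fold over a bit list, with polynomially bounded intermediate values -/
theorem PT.foldl {l : α → List Bool} {i : α → β} {g : α × (Bool × β) → β} (hl : PT l)
    (hi : PT i) (hg : PT g) (Q : ℕ[X])
    (hQ : ∀ a (l1 : List Bool), l1 <+: l a →
      sz (l1.foldl (fun s b => g (a, (b, s))) (i a)) ≤ Q.eval (sz a)) :
    PT (fun a => (l a).foldl (fun s b => g (a, (b, s))) (i a)) := by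
  obtain ⟨Rl, hRl⟩ := hl.size
  obtain ⟨Pl, hPl⟩ := hl
  obtain ⟨Pi, hPi⟩ := hi
  obtain ⟨Pg, hPg⟩ := hg
  set n := (sh β).num with hn
  refine ⟨Pl + Pi + Rl * (Pg.comp (X + 1 + Q) + C 9 * Q + C (4 * n + 3)) + C 7 * Q +
    C (3 * n + 1), fun ρ δ B h1 h2 h3 => ?_⟩
  -- registers
  set sR := alloc (sh β) (B + 2) with hsR
  set s2 := alloc (sh β) (B + 2 + n) with hs2
  set tmp := B + 2 + 2 * n with htmp
  have msR : ∀ r ∈ sR.leaves, B + 2 ≤ r ∧ r < B + 2 + n := fun r hr => mem_alloc _ _ _ hr
  have ms2 : ∀ r ∈ s2.leaves, B + 2 + n ≤ r ∧ r < B + 2 + 2 * n := fun r hr => by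
    have := mem_alloc _ _ _ hr; omega
  have mρ := h3.ρB
  have mδ := h3.δB
  have nsR : sR.leaves.Nodup := nodup_alloc _ _
  have ns2 : s2.leaves.Nodup := nodup_alloc _ _
  have numsR : sR.num = n := by rw [← num_shape, shape_alloc]
  have nums2 : s2.num = n := by rw [← num_shape, shape_alloc]
  obtain ⟨cl, hcl⟩ := hPl ρ (.leaf B) (tmp + 1) h1 rfl
    ⟨fun r hr => by have := mρ r hr; omega, fun r hr => by simp [leaves] at hr; omega,
      by simp [leaves], fun r hr hr' => by simp [leaves] at hr; have := mρ r hr'; omega⟩
  obtain ⟨ci, hci⟩ := hPi ρ sR (tmp + 1) h1 (shape_alloc _ _)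
    ⟨fun r hr => by have := mρ r hr; omega, fun r hr => by have := msR r hr; omega,
      nsR, fun r hr hr' => by have := msR r hr; have := mρ r hr'; omega⟩
  obtain ⟨cg, hcg⟩ := hPg (.pair ρ (.pair (.leaf (B + 1)) sR)) s2 (tmp + 1)
    (by simp [Tr.shape, sh, h1, hsR]) (shape_alloc _ _)
    ⟨fun r hr => by
      simp only [leaves, List.mem_append, List.mem_singleton] at hr
      rcases hr with hr | hr | hr
      · have := mρ r hr; omega
      · omega
      · have := msR r hr; omega,
     fun r hr => by have := ms2 r hr; omega, ns2,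
     fun r hr hr' => by
      simp only [leaves, List.mem_append, List.mem_singleton] at hr'
      have := ms2 r hr
      rcases hr' with hr' | hr' | hr'
      · have := mρ r hr'; omega
      · omega
      · have := msR r hr'; omega⟩
  -- the loop body
  let body : Bool → Cmd := fun b => .seq (.push (B + 1) b) (.seq cg (.seq (clearT sR)
    (.seq (.pop (B + 1)) (.seq (copyT s2 sR tmp) (clearT s2)))))
  refine ⟨.seq cl (.seq ci (.seq (.loop B body) (.seq (copyT sR δ tmp) (clearT sR)))),
    fun a S hS he hB => ?_⟩
  set q := Q.eval (sz a) with hq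
  set st : List Bool → β := fun l1 => l1.foldl (fun s b => g (a, (b, s))) (i a) with hst
  -- after computing the list
  obtain ⟨S1, k1, k2, k3⟩ := hcl a S hS (fun r hr => hB r (by simp [leaves] at hr; omega))
    (fun r hr => hB r (by omega))
  have k2' : S1 B = l a := k2
  have k3' : ∀ r, r ≠ B → S1 r = S r := fun r hr => k3 r (by simpa [leaves] using hr)
  -- after computing the initial value
  obtain ⟨S2, l1, l2, l3⟩ := hci a S1
    (hS.congr fun r hr => k3' r (by have := mρ r hr; omega))
    (fun r hr => by rw [k3' r (by have := msR r hr; omega), hB r (by have := msR r hr; omega)])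
    (fun r hr => by rw [k3' r (by omega), hB r (by omega)])
  -- the invariant
  let Inv : β → List Bool → State → Prop := fun s l' S' =>
    S' B = l' ∧ Holds sR (enc s) S' ∧ (∃ l1, l1 ++ l' = l a ∧ s = st l1) ∧
      ∀ r, r ≠ B → r ∉ sR.leaves → S' r = S r
  have hbody : ∀ s b l' S', Inv s (b :: l') S' →
      ∃ S'', ExecLe (body b) (Function.update S' B l') S''
        (Pg.eval (sz a + 1 + q) + 9 * q + 4 * n + 2) ∧ Inv (g (a, (b, s))) l' S'' := by
    rintro s b l' S' ⟨i1, i2, ⟨l1, i3, i4⟩, i5⟩
    have hs : sz s ≤ q := by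
      rw [i4]
      exact hQ a l1 ⟨b :: l', i3⟩
    have i3' : (l1 ++ [b]) ++ l' = l a := by rw [← i3]; simp
    have i4' : g (a, (b, s)) = st (l1 ++ [b]) := by
      rw [i4, hst]; simp
    have hs' : sz (g (a, (b, s))) ≤ q := by
      rw [i4']
      exact hQ a (l1 ++ [b]) ⟨l', i3'⟩
    set U0 := Function.update S' B l' with hU0
    have u0 : ∀ r, r ≠ B → U0 r = S' r := fun r hr => Function.update_of_ne hr _ _
    have u0B : U0 B = l' := Function.update_self _ _ _
    -- push b
    set U1 := Function.update U0 (B + 1) (b :: U0 (B + 1)) with hU1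
    have e0 : U0 (B + 1) = [] := by
      rw [u0 _ (by omega), i5 _ (by omega) (fun h => by have := msR _ h; omega), hB _ (by omega)]
    have u1 : ∀ r, r ≠ B + 1 → U1 r = U0 r := fun r hr => Function.update_of_ne hr _ _
    have u1B : U1 (B + 1) = [b] := by rw [hU1, Function.update_self, e0]
    -- step
    obtain ⟨U2, v1, v2, v3⟩ := hcg (a, (b, s)) U1
      ⟨hS.congr (fun r hr => by
          have h4 := mρ r hr
          rw [u1 r (by omega), u0 r (by omega), i5 r (by omega)
            (fun h => by have := msR r h; omega)]),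
        u1B, i2.congr (fun r hr => by
          have h4 := msR r hr
          rw [u1 r (by omega), u0 r (by omega)])⟩
      (fun r hr => by
        have h4 := ms2 r hr
        rw [u1 r (by omega), u0 r (by omega), i5 r (by omega)
            (fun h => by have := msR r h; omega), hB r (by omega)])
      (fun r hr => by
        rw [u1 r (by omega), u0 r (by omega), i5 r (by omega)
            (fun h => by have := msR r h; omega), hB r (by omega)])
    -- clear sR
    have v4 : Holds sR (enc s) U2 := i2.congr fun r hr => by
      have h4 := msR r hr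
      rw [v3 r (fun h => by have := ms2 r h; omega), u1 r (by omega), u0 r (by omega)]
    obtain ⟨U3, w1, w2, w3⟩ := execLe_clearT sR (enc s) U2 nsR v4
    -- pop
    set U4 := Function.update U3 (B + 1) (U3 (B + 1)).tail with hU4
    have u4 : ∀ r, r ≠ B + 1 → U4 r = U3 r := fun r hr => Function.update_of_ne hr _ _
    have u4B : U4 (B + 1) = [] := by
      rw [hU4, Function.update_self, w3 _ (fun h => by have := msR _ h; omega),
        v3 _ (fun h => by have := ms2 _ h; omega), u1B]
      rfl
    -- copy s2 to sR
    have v5 : Holds s2 (enc (g (a, (b, s)))) U4 := v2.congr fun r hr => by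
      have h4 := ms2 r hr
      rw [u4 r (by omega), w3 r (fun h => by have := msR r h; omega)]
    obtain ⟨U5, x1, x2, x3⟩ := execLe_copyT s2 sR tmp _ U4
      (by rw [hsR, hs2, shape_alloc, shape_alloc]) nsR
      (fun r hr hr' => by have := msR r hr; have := ms2 r hr'; omega)
      (fun h => by have := ms2 _ h; omega) (fun h => by have := msR _ h; omega)
      (by
        rw [u4 _ (by omega), w3 _ (fun h => by have := msR _ h; omega),
          v3 _ (fun h => by have := ms2 _ h; omega), u1 _ (by omega), u0 _ (by omega),
          i5 _ (by omega) (fun h => by have := msR _ h; omega), hB _ (by omega)])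
      (fun r hr => by
        have h4 := msR r hr
        rw [u4 r (by omega), w2 r hr])
      v5
    -- clear s2
    obtain ⟨U6, y1, y2, y3⟩ := execLe_clearT s2 _ U5 ns2
      (v5.congr fun r hr => x3 r (fun h => by have := ms2 r hr; have := msR r h; omega))
    refine ⟨U6, ((execLe_push _ _ _).seq (v1.seq (w1.seq ((execLe_pop _ _).seq
      (x1.seq y1))))).mono ?_, ?_, ?_, ⟨l1 ++ [b], i3', i4'⟩, ?_⟩
    · have e1 : Pg.eval (sz (a, (b, s))) ≤ Pg.eval (sz a + 1 + q) := poly_mono Pg (by
        simp only [sz_prod, sz_bool]; omega)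
      have e2 : (enc s).size ≤ q := hs
      have e3 : (enc (g (a, (b, s)))).size ≤ q := hs'
      omega
    · rw [y3 B (fun h => by have := ms2 _ h; omega), x3 B (fun h => by have := msR _ h; omega),
        u4 B (by omega), w3 B (fun h => by have := msR _ h; omega),
        v3 B (fun h => by have := ms2 _ h; omega), u1 B (by omega), u0B]
    · exact x2.congr fun r hr => y3 r (fun h => by have := msR _ hr; have := ms2 _ h; omega)
    · intro r hrB hrs
      by_cases hr2 : r ∈ s2.leaves
      · have h4 := ms2 r hr2
        rw [y2 r hr2, hB r (by omega)]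
      · rw [y3 r hr2, x3 r hrs]
        by_cases hrb : r = B + 1
        · rw [hrb, u4B, hB _ (by omega)]
        · rw [u4 r hrb, w3 r hrs, v3 r hr2, u1 r hrb, u0 r hrB, i5 r hrB hrs]
  obtain ⟨S3, m1, m2, m3, ⟨l1', m4, m5⟩, m6⟩ := execLe_loop (fun s b => g (a, (b, s))) Inv
    (Pg.eval (sz a + 1 + q) + 9 * q + 4 * n + 2)
    (fun s l' S' h => h.1) hbody (l a) (i a) S2
    ⟨by rw [l3 B (fun h => by have := msR _ h; omega), k2'], l2, ⟨[], rfl, rfl⟩, fun r hr hrs => by
      rw [l3 r hrs, k3' r hr]⟩
  -- copy to δ
  set res := (l a).foldl (fun s b => g (a, (b, s))) (i a) with hres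
  have hresq : sz res ≤ q := hQ a (l a) (List.prefix_refl _)
  obtain ⟨S4, o1, o2, o3⟩ := execLe_copyT sR δ tmp _ S3
    (by rw [h2, hsR, shape_alloc]) h3.nd
    (fun r hr hr' => by have := mδ r hr; have := msR r hr'; omega)
    (fun h => by have := msR _ h; omega) (fun h => by have := mδ _ h; omega)
    (by rw [m6 _ (by omega) (fun h => by have := msR _ h; omega), hB _ (by omega)])
    (fun r hr => by
      have h4 := mδ r hr
      rw [m6 _ (by omega) (fun h => by have := msR _ h; omega), he r hr])
    m3
  obtain ⟨S5, p1, p2, p3⟩ := execLe_clearT sR _ S4 nsR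
    (m3.congr fun r hr => o3 r (fun h => by have := mδ _ h; have := msR _ hr; omega))
  refine ⟨S5, (k1.seq (l1.seq (m1.seq (o1.seq p1)))).mono ?_,
    o2.congr fun r hr => p3 r (fun h => by have := mδ _ hr; have := msR _ h; omega), ?_⟩
  · have e1 : (l a).length ≤ Rl.eval (sz a) := hRl a
    have e2 : (l a).length * (Pg.eval (sz a + 1 + q) + 9 * q + 4 * n + 2 + 1) ≤
        Rl.eval (sz a) * (Pg.eval (sz a + 1 + q) + 9 * q + (4 * n + 3)) := by
      refine Nat.mul_le_mul e1 ?_
      omega
    have e3 : (enc res).size ≤ q := hresq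
    simp only [eval_add, eval_mul, eval_C, eval_comp, eval_X, eval_one]
    rw [← hq]
    omega
  · intro r hr
    by_cases hrs : r ∈ sR.leaves
    · have h4 := msR r hrs
      rw [p2 r hrs, hB r (by omega)]
    · rw [p3 r hrs, o3 r hr]
      by_cases hrB : r = B
      · rw [hrB, m2, hB B le_rfl]
      · exact m6 r hrB hrs

/-! ### bit primitives -/

theorem PT.consBit (b : Bool) : PT (fun l : List Bool => b :: l) := by
  refine ⟨C 5 * X + C 3, fun ρ δ B h1 h2 h3 => ?_⟩
  cases ρ with
  | pair _ _ => simp [Tr.shape, sh] at h1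
  | leaf r =>
    cases δ with
    | pair _ _ => simp [Tr.shape, sh] at h2
    | leaf d =>
      have hrd : r ≠ d := fun h => h3.dj d (by simp [leaves]) (by simp [leaves, h])
      have hrB : r < B := h3.ρB r (by simp [leaves])
      have hdB : d < B := h3.δB d (by simp [leaves])
      refine ⟨.seq (copy r d B) (.push d b), fun l S hS he hB => ?_⟩
      have hS' : S r = l := hS
      have he' : S d = [] := he d (by simp [leaves])
      obtain ⟨S1, k1, k2, k3⟩ := execLe_copy r d B hrd (by omega) (by omega) S (hB B le_rfl)
      refine ⟨_, (k1.seq (execLe_push _ _ _)).mono ?_, ?_, ?_⟩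
      · simp only [eval_add, eval_mul, eval_C, eval_X, sz_list, hS']; omega
      · show Function.update S1 d (b :: S1 d) d = b :: l
        rw [Function.update_self, k2, hS', he', List.append_nil]
      · intro q hq
        simp only [leaves, List.mem_singleton] at hq
        rw [Function.update_of_ne hq, k3 q hq]

theorem PT.tail : PT (fun l : List Bool => l.tail) := by
  refine ⟨C 5 * X + C 3, fun ρ δ B h1 h2 h3 => ?_⟩
  cases ρ with
  | pair _ _ => simp [Tr.shape, sh] at h1
  | leaf r =>
    cases δ with
    | pair _ _ => simp [Tr.shape, sh] at h2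
    | leaf d =>
      have hrd : r ≠ d := fun h => h3.dj d (by simp [leaves]) (by simp [leaves, h])
      have hrB : r < B := h3.ρB r (by simp [leaves])
      have hdB : d < B := h3.δB d (by simp [leaves])
      refine ⟨.seq (copy r d B) (.pop d), fun l S hS he hB => ?_⟩
      have hS' : S r = l := hS
      have he' : S d = [] := he d (by simp [leaves])
      obtain ⟨S1, k1, k2, k3⟩ := execLe_copy r d B hrd (by omega) (by omega) S (hB B le_rfl)
      refine ⟨_, (k1.seq (execLe_pop _ _)).mono ?_, ?_, ?_⟩
      · simp only [eval_add, eval_mul, eval_C, eval_X, sz_list, hS']; omega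
      · show Function.update S1 d (S1 d).tail d = l.tail
        rw [Function.update_self, k2, hS', he', List.append_nil]
      · intro q hq
        simp only [leaves, List.mem_singleton] at hq
        rw [Function.update_of_ne hq, k3 q hq]

/-- functions of the head of a list -/
theorem PT.headCase (v : Option Bool → Bool) : PT (fun l : List Bool => v l.head?) := by
  refine ⟨C 2, fun ρ δ B h1 h2 h3 => ?_⟩
  cases ρ with
  | pair _ _ => simp [Tr.shape, sh] at h1
  | leaf r =>
    cases δ with
    | pair _ _ => simp [Tr.shape, sh] at h2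
    | leaf d =>
      refine ⟨.case r fun o => .push d (v o), fun l S hS he hB => ?_⟩
      have hS' : S r = l := hS
      have he' : S d = [] := he d (by simp [leaves])
      refine ⟨_, (execLe_case (execLe_push _ _ _)).mono ?_, ?_, ?_⟩
      · simp only [eval_C]; omega
      · show Function.update S d (v (S r).head? :: S d) d = [v l.head?]
        rw [Function.update_self, he', hS']
      · intro q hq
        simp only [leaves, List.mem_singleton] at hq
        rw [Function.update_of_ne hq]

/-- polynomial time functions on strings are computable in polynomial time by `FinTM2` machines -/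
theorem PT.polyTime {f : List Bool → List Bool} (hf : PT f) :
    Nonempty (Turing.TM2ComputableInPolyTime (_root_.id : List Bool → List Bool)
      (_root_.id : List Bool → List Bool) f) := by
  obtain ⟨P, hP⟩ := hf
  obtain ⟨c, hc⟩ := hP (.leaf 0) (.leaf 1) 2 rfl rfl
    ⟨by simp [leaves], by simp [leaves], by simp [leaves], by simp [leaves]⟩
  refine polyTime_of_exec (.seq c (clear 0)) f (P + (C 2 * X + C 1)) fun x => ?_
  obtain ⟨S1, k1, k2, k3⟩ := hc x (Function.update (fun _ => []) 0 x)
    (by show Function.update (fun _ => []) 0 x 0 = x; rw [Function.update_self])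
    (fun r hr => by
      simp only [leaves, List.mem_singleton] at hr
      rw [hr, Function.update_of_ne (by omega)])
    (fun r hr => by rw [Function.update_of_ne (by omega)])
  have k4 := k1.seq (execLe_clear 0 S1)
  have h0 : S1 0 = x := by
    rw [k3 0 (by simp [leaves]), Function.update_self]
  have h1 : S1 1 = f x := k2
  have e : Function.update S1 0 [] = Function.update (fun _ => []) 1 (f x) := by
    funext r
    by_cases hr : r = 0
    · rw [hr, Function.update_self, Function.update_of_ne (by omega)]
    · rw [Function.update_of_ne hr]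
      by_cases hr1 : r = 1
      · rw [hr1, h1, Function.update_self]
      · rw [k3 r (by simpa [leaves] using hr1), Function.update_of_ne hr,
          Function.update_of_ne hr1]
  rw [e, h0] at k4
  obtain ⟨t, ht, hE⟩ := k4
  refine ⟨t, ht.trans ?_, hE⟩
  simp only [eval_add, eval_mul, eval_C, eval_X, sz_list]
  omega

end Pool.NPC
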