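import Pool.Agent.NPC.Cmd

/-!
# From programs to Mathlib's `TM2ComputableInPolyTime`
-/

namespace Pool.NPC

open Turing Turing.TM2

/-- the machine of a command, with input stack `0` and output stack `1` -/
noncomputable def machine (c : Cmd) (B : ℕ) : FinTM2 where
  K := Fin (B + 1 + 1)
  k₀ := 0
  k₁ := 1
  Γ _ := Bool
  Λ := Option (Pos c)
  main := some c.entry
  ΛFin := @Fintype.ofFinite _ (by
    have := finite_pos c
    infer_instance)
  σ := Option Bool
  initialState := none
  m := fun l => match l with
    | none => .load (fun _ => none) .halt
    | some p => code (B + 1) c some none p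

theorem initList_stk_self (tm : FinTM2) (s : List (tm.Γ tm.k₀)) :
    (initList tm s).stk tm.k₀ = s := by
  simp [initList]

theorem initList_stk_ne (tm : FinTM2) (s : List (tm.Γ tm.k₀)) (k : tm.K) (h : k ≠ tm.k₀) :
    (initList tm s).stk k = [] := by
  simp [initList, h]

theorem haltList_stk_self (tm : FinTM2) (s : List (tm.Γ tm.k₁)) :
    (haltList tm s).stk tm.k₁ = s := by
  simp [haltList]

theorem haltList_stk_ne (tm : FinTM2) (s : List (tm.Γ tm.k₁)) (k : tm.K) (h : k ≠ tm.k₁) :
    (haltList tm s).stk k = [] := by
  simp [haltList, h]

theorem polyTime_of_exec (c : Cmd) (f : List Bool → List Bool) (P : Polynomial ℕ)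
    (h : ∀ x : List Bool, ∃ t ≤ P.eval x.length,
      Exec c (Function.update (fun _ => []) 0 x) (Function.update (fun _ => []) 1 (f x)) t) :
    Nonempty (TM2ComputableInPolyTime (id : List Bool → List Bool) (id : List Bool → List Bool) f) := by
  refine ⟨{ tm := machine c c.maxReg
            inputAlphabet := Equiv.refl _
            outputAlphabet := Equiv.refl _
            time := P + 1
            outputsFun := fun x => ?_ }⟩
  have hx := h x
  choose t ht hE using hx
  have hr := code_correct (c.maxReg + 1) (machine c c.maxReg).m hE (by omega) some none
    (fun p => rfl) none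
  choose v' hv' using hr
  have hr2 : Reach (machine c c.maxReg).m (t + 1)
      ⟨some (some c.entry), none, res (c.maxReg + 1) (Function.update (fun _ => []) 0 x)⟩
      ⟨none, none, res (c.maxReg + 1) (Function.update (fun _ => []) 1 (f x))⟩ := by
    refine hv'.trans (Reach.one ?_)
    rfl
  refine ⟨⟨t + 1, ?_⟩, ?_⟩
  · have e1 : initList (machine c c.maxReg) (List.map (Equiv.refl _).invFun (id x)) =
      ⟨some (some c.entry), none, res (c.maxReg + 1) (Function.update (fun _ => []) 0 x)⟩ := by
      have key : ∀ k : Fin (c.maxReg + 1 + 1),
          (initList (machine c c.maxReg) (List.map (Equiv.refl _).invFun (id x))).stk k =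
            res (c.maxReg + 1) (Function.update (fun _ => []) 0 x) k := by
        intro k
        by_cases hk : k = 0
        · subst hk
          have : (initList (machine c c.maxReg) (List.map (Equiv.refl _).invFun (id x))).stk
            (0 : Fin (c.maxReg + 1 + 1)) = List.map (Equiv.refl _).invFun (id x) :=
            initList_stk_self _ _
          rw [this]
          show List.map id x = _
          rw [List.map_id]
          simp [res]
        · have : (initList (machine c c.maxReg) (List.map (Equiv.refl _).invFun (id x))).stk k
              = [] := initList_stk_ne _ _ _ hk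
          rw [this]
          have hk' : k.val ≠ 0 := fun h0 => hk (Fin.ext h0)
          simp only [res]
          rw [Function.update_of_ne hk']
          rfl
      have : (initList (machine c c.maxReg) (List.map (Equiv.refl _).invFun (id x))).stk =
          res (c.maxReg + 1) (Function.update (fun _ => []) 0 x) := funext key
      rw [← this]
      rfl
    have e2 : haltList (machine c c.maxReg) (List.map (Equiv.refl _).invFun (id (f x))) =
      ⟨none, none, res (c.maxReg + 1) (Function.update (fun _ => []) 1 (f x))⟩ := by
      have key : ∀ k : Fin (c.maxReg + 1 + 1),
          (haltList (machine c c.maxReg) (List.map (Equiv.refl _).invFun (id (f x)))).stk k =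
            res (c.maxReg + 1) (Function.update (fun _ => []) 1 (f x)) k := by
        intro k
        by_cases hk : k = 1
        · subst hk
          have : (haltList (machine c c.maxReg) (List.map (Equiv.refl _).invFun (id (f x)))).stk
            (1 : Fin (c.maxReg + 1 + 1)) = List.map (Equiv.refl _).invFun (id (f x)) :=
            haltList_stk_self _ _
          rw [this]
          show List.map id (f x) = _
          rw [List.map_id]
          simp [res]
        · have : (haltList (machine c c.maxReg) (List.map (Equiv.refl _).invFun (id (f x)))).stk k
              = [] := haltList_stk_ne _ _ _ hk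
          rw [this]
          have hk' : k.val ≠ 1 := fun h0 => hk (Fin.ext (by rw [h0]; simp))
          simp only [res]
          rw [Function.update_of_ne hk']
          rfl
      have : (haltList (machine c c.maxReg) (List.map (Equiv.refl _).invFun (id (f x)))).stk =
          res (c.maxReg + 1) (Function.update (fun _ => []) 1 (f x)) := funext key
      rw [← this]
      rfl
    show (flip bind (TM2.step (machine c c.maxReg).m))^[t + 1]
      (some (initList (machine c c.maxReg) (List.map (Equiv.refl _).invFun (id x)))) =
      some (haltList (machine c c.maxReg) (List.map (Equiv.refl _).invFun (id (f x))))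
    rw [e1, e2]
    exact hr2
  · show t + 1 ≤ (P + 1).eval (id x).length
    simp only [Polynomial.eval_add, Polynomial.eval_one, id]
    omega

end Pool.NPC
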