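import Pool.Agent.NPC.Machine

/-!
# Macros of the stack language
-/

namespace Pool.NPC

/-- execution with a bound on the cost -/
def ExecLe (c : Cmd) (S S' : State) (T : ℕ) : Prop := ∃ t ≤ T, Exec c S S' t

theorem ExecLe.mono {c : Cmd} {S S' : State} {T T' : ℕ} (h : ExecLe c S S' T) (hT : T ≤ T') :
    ExecLe c S S' T' := by
  obtain ⟨t, ht, h⟩ := h
  exact ⟨t, ht.trans hT, h⟩

theorem ExecLe.seq {c d : Cmd} {S S' S'' : State} {T T' : ℕ} (h : ExecLe c S S' T)
    (h' : ExecLe d S' S'' T') : ExecLe (.seq c d) S S'' (T + T') := by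
  obtain ⟨t, ht, h⟩ := h
  obtain ⟨t', ht', h'⟩ := h'
  exact ⟨t + t', by omega, h.seq h'⟩

theorem execLe_nop (S : State) : ExecLe .nop S S 1 := ⟨1, le_rfl, .nop S⟩

theorem execLe_push (r : ℕ) (b : Bool) (S : State) :
    ExecLe (.push r b) S (Function.update S r (b :: S r)) 1 := ⟨1, le_rfl, .push r b S⟩

theorem execLe_pop (r : ℕ) (S : State) :
    ExecLe (.pop r) S (Function.update S r (S r).tail) 1 := ⟨1, le_rfl, .pop r S⟩

theorem execLe_case {r : ℕ} {c : Option Bool → Cmd} {S S' : State} {T : ℕ}
    (h : ExecLe (c (S r).head?) S S' T) : ExecLe (.case r c) S S' (1 + T) := by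
  obtain ⟨t, ht, h⟩ := h
  exact ⟨1 + t, by omega, .case h⟩

/-- the general loop rule -/
theorem execLe_loop {σ : Type} {r : ℕ} {c : Bool → Cmd} (f : σ → Bool → σ)
    (Inv : σ → List Bool → State → Prop) (T : ℕ)
    (hr : ∀ s l S, Inv s l S → S r = l)
    (hbody : ∀ s b l S, Inv s (b :: l) S →
      ∃ S', ExecLe (c b) (Function.update S r l) S' T ∧ Inv (f s b) l S') :
    ∀ l s S, Inv s l S →
      ∃ S', ExecLe (.loop r c) S S' (l.length * (T + 1) + 1) ∧ Inv (l.foldl f s) [] S' := by
  intro l
  induction l with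
  | nil =>
    intro s S h
    exact ⟨S, ⟨1, by simp, .loop_nil (hr _ _ _ h)⟩, h⟩
  | cons b l ih =>
    intro s S h
    obtain ⟨S1, ⟨t1, ht1, h1⟩, hI⟩ := hbody s b l S h
    obtain ⟨S2, ⟨t2, ht2, h2⟩, hI2⟩ := ih _ _ hI
    refine ⟨S2, ⟨1 + (t1 + t2), ?_, .loop_cons (hr _ _ _ h) h1 h2⟩, hI2⟩
    simp only [List.length_cons]
    have : (l.length + 1) * (T + 1) = l.length * (T + 1) + (T + 1) := by ring
    omega

/-- length bound -/
theorem Exec.length_le {c : Cmd} {S S' : State} {t : ℕ} (h : Exec c S S' t) :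
    ∀ r, (S' r).length ≤ (S r).length + t := by
  induction h with
  | nop S => intro r; omega
  | push r b S =>
    intro q
    by_cases hq : q = r
    · subst hq; simp
    · rw [Function.update_of_ne hq]; omega
  | pop r S =>
    intro q
    by_cases hq : q = r
    · subst hq; simp; omega
    · rw [Function.update_of_ne hq]; omega
  | seq h1 h2 ih1 ih2 =>
    intro q
    have := ih1 q
    have := ih2 q
    omega
  | case h ih =>
    intro q
    have := ih q
    omega
  | loop_nil h => intro q; omega
  | @loop_cons r c S b l S' t S'' t' hS h1 h2 ih1 ih2 =>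
    intro q
    have a1 := ih1 q
    have a2 := ih2 q
    by_cases hq : q = r
    · subst hq
      rw [Function.update_self] at a1
      rw [hS, List.length_cons]
      omega
    · rw [Function.update_of_ne hq] at a1; omega

/-! ### clearing, moving and copying single registers -/

/-- empty a register -/
def clear (r : ℕ) : Cmd := .loop r fun _ => .nop

theorem execLe_clear (r : ℕ) (S : State) :
    ExecLe (clear r) S (Function.update S r []) (2 * (S r).length + 1) := by
  obtain ⟨S', h1, h2⟩ := execLe_loop (σ := Unit) (r := r) (c := fun _ => .nop) (fun _ _ => ())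
    (fun _ l S1 => S1 = Function.update S r l) 1
    (fun s l S1 h => by rw [h, Function.update_self])
    (fun s b l S1 h => ⟨_, execLe_nop _, by rw [h, Function.update_idem]⟩)
    (S r) () S (by rw [Function.update_eq_self])
  rw [h2] at h1
  exact h1.mono (by omega)

/-- pour register `a` onto register `b` (reversing) -/
def pour (a b : ℕ) : Cmd := .loop a fun x => .push b x

theorem execLe_pour (a b : ℕ) (hab : a ≠ b) (S : State) :
    ∃ S', ExecLe (pour a b) S S' (2 * (S a).length + 1) ∧
      S' a = [] ∧ S' b = (S a).reverse ++ S b ∧ ∀ r, r ≠ a → r ≠ b → S' r = S r := by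
  obtain ⟨S', h1, h2, h3, h4⟩ := execLe_loop (σ := List Bool) (r := a)
    (c := fun x => .push b x) (fun s x => x :: s)
    (fun s l S1 => S1 a = l ∧ S1 b = s ∧ ∀ r, r ≠ a → r ≠ b → S1 r = S r) 1
    (fun s l S1 h => h.1)
    (fun s x l S1 h => ⟨_, execLe_push _ _ _, by
      refine ⟨?_, ?_, ?_⟩
      · rw [Function.update_of_ne hab, Function.update_self]
      · rw [Function.update_self, Function.update_of_ne hab.symm, h.2.1]
      · intro r hra hrb
        rw [Function.update_of_ne hrb, Function.update_of_ne hra, h.2.2 r hra hrb]⟩)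
    (S a) (S b) S ⟨rfl, rfl, fun _ _ _ => rfl⟩
  refine ⟨S', h1.mono (by omega), h2, ?_, h4⟩
  rw [h3]
  have : ∀ (l s : List Bool), List.foldl (fun s x => x :: s) s l = l.reverse ++ s := by
    intro l
    induction l with
    | nil => intro s; rfl
    | cons y l ih => intro s; simp [ih]
  exact this _ _

/-- copy register `a` onto register `b` using the empty register `t` -/
def copy (a b t : ℕ) : Cmd := .seq (pour a t) (.loop t fun x => .seq (.push a x) (.push b x))

theorem execLe_copy (a b t : ℕ) (hab : a ≠ b) (hat : a ≠ t) (hbt : b ≠ t) (S : State)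
    (ht : S t = []) :
    ∃ S', ExecLe (copy a b t) S S' (5 * (S a).length + 2) ∧
      S' b = S a ++ S b ∧ ∀ r, r ≠ b → S' r = S r := by
  obtain ⟨S1, h1, h2, h3, h4⟩ := execLe_pour a t hat S
  rw [ht, List.append_nil] at h3
  obtain ⟨S', k1, k2, k3, k4, k5⟩ := execLe_loop (σ := List Bool) (r := t)
    (c := fun x => .seq (.push a x) (.push b x)) (fun s x => x :: s)
    (fun s l S2 => S2 t = l ∧ S2 a = s ∧ S2 b = s ++ S b ∧
      ∀ r, r ≠ a → r ≠ b → r ≠ t → S2 r = S r) 2
    (fun s l S1 h => h.1)
    (fun s x l S1 h => ⟨_, (execLe_push _ _ _).seq (execLe_push _ _ _), by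
      refine ⟨?_, ?_, ?_, ?_⟩
      · rw [Function.update_of_ne hbt.symm, Function.update_of_ne hat.symm, Function.update_self]
      · rw [Function.update_of_ne hab, Function.update_self, Function.update_of_ne hat, h.2.1]
      · rw [Function.update_self, Function.update_of_ne hab.symm, Function.update_of_ne hbt,
          h.2.2.1]
        rfl
      · intro r hra hrb hrt
        rw [Function.update_of_ne hrb, Function.update_of_ne hra, Function.update_of_ne hrt,
          h.2.2.2 r hra hrb hrt]⟩)
    (S1 t) [] S1 ⟨rfl, h2, by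
      rw [List.nil_append, h4 b hab.symm hbt], fun r h h' h'' => h4 r h h''⟩
  have hfold : ∀ (l s : List Bool), List.foldl (fun s x => x :: s) s l = l.reverse ++ s := by
    intro l
    induction l with
    | nil => intro s; rfl
    | cons y l ih => intro s; simp [ih]
  have e : List.foldl (fun s x => x :: s) [] (S1 t) = S a := by
    rw [hfold, h3, List.reverse_reverse, List.append_nil]
  rw [e] at k3 k4
  refine ⟨S', (h1.seq k1).mono ?_, k4, ?_⟩
  · rw [h3, List.length_reverse]; omega
  · intro r hr
    by_cases hra : r = a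
    · rw [hra, k3]
    · by_cases hrt : r = t
      · rw [hrt, k2, ht]
      · exact k5 r hra hr hrt

/-- move register `a` onto register `b` using the empty register `t` -/
def mv (a b t : ℕ) : Cmd := .seq (pour a t) (pour t b)

theorem execLe_mv (a b t : ℕ) (hab : a ≠ b) (hat : a ≠ t) (hbt : b ≠ t) (S : State)
    (ht : S t = []) :
    ∃ S', ExecLe (mv a b t) S S' (4 * (S a).length + 2) ∧
      S' b = S a ++ S b ∧ S' a = [] ∧ ∀ r, r ≠ a → r ≠ b → S' r = S r := by
  obtain ⟨S1, h1, h2, h3, h4⟩ := execLe_pour a t hat S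
  rw [ht, List.append_nil] at h3
  obtain ⟨S2, k1, k2, k3, k4⟩ := execLe_pour t b hbt.symm S1
  rw [h3, List.reverse_reverse, h4 b hab.symm hbt] at k3
  refine ⟨S2, (h1.seq k1).mono ?_, k3, ?_, ?_⟩
  · rw [h3, List.length_reverse]; omega
  · rw [k4 a hat hab, h2]
  · intro r hra hrb
    by_cases hrt : r = t
    · rw [hrt, k2, ht]
    · rw [k4 r hrt hrb, h4 r hra hrt]

end Pool.NPC
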