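import Mathlib

/-!
# Micro-steps of a TM2 machine

One micro-step executes one elementary instruction.
-/

namespace Pool.NPC

open Turing Turing.TM2

section

variable {K : Type} {Γ : K → Type} {Λ σ : Type}

/-- control states of the micro machine -/
abbrev Ctrl (Γ : K → Type) (Λ σ : Type) : Type := Option (Stmt Γ Λ σ) × σ

/-- effect of a control state -/
inductive Eff (Γ : K → Type) (Λ σ : Type) : Type
  | stay (c : Ctrl Γ Λ σ)
  | push (k : K) (g : Γ k) (c : Ctrl Γ Λ σ)
  | read (k : K) (d : Bool) (f : Option (Γ k) → Ctrl Γ Λ σ)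

/-- the effect of a control state in the machine `M` -/
def eff (M : Λ → Stmt Γ Λ σ) : Ctrl Γ Λ σ → Eff Γ Λ σ
  | (none, v) => .stay (none, v)
  | (some (.push k f q), v) => .push k (f v) (some q, v)
  | (some (.peek k f q), v) => .read k false (fun o => (some q, f v o))
  | (some (.pop k f q), v) => .read k true (fun o => (some q, f v o))
  | (some (.load a q), v) => .stay (some q, a v)
  | (some (.branch f q₁ q₂), v) => .stay (some (cond (f v) q₁ q₂), v)
  | (some (.goto l), v) => .stay (some (M (l v)), v)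
  | (some .halt, v) => .stay (none, v)

variable [DecidableEq K]

/-- micro-configurations -/
abbrev MCfg (Γ : K → Type) (Λ σ : Type) : Type := Ctrl Γ Λ σ × (∀ k, List (Γ k))

/-- apply an effect to the stacks -/
def applyEff : Eff Γ Λ σ → (∀ k, List (Γ k)) → MCfg Γ Λ σ
  | .stay c, S => (c, S)
  | .push k g c, S => (c, Function.update S k (g :: S k))
  | .read k d f, S => (f (S k).head?, if d then Function.update S k (S k).tail else S)

/-- the micro-step -/
def mstep (M : Λ → Stmt Γ Λ σ) (x : MCfg Γ Λ σ) : MCfg Γ Λ σ := applyEff (eff M x.1) x.2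

/-- configurations as micro-configurations -/
def ofCfg (M : Λ → Stmt Γ Λ σ) (x : Cfg Γ Λ σ) : MCfg Γ Λ σ := ((x.l.map M, x.var), x.stk)

/-- number of micro-steps of a statement -/
def slen : Stmt Γ Λ σ → ℕ
  | .push _ _ q => slen q + 1
  | .peek _ _ q => slen q + 1
  | .pop _ _ q => slen q + 1
  | .load _ q => slen q + 1
  | .branch _ q₁ q₂ => max (slen q₁) (slen q₂) + 1
  | .goto _ => 1
  | .halt => 1

theorem mstep_stepAux (M : Λ → Stmt Γ Λ σ) (q : Stmt Γ Λ σ) (v : σ) (S : ∀ k, List (Γ k)) :
    ∃ n ≤ slen q, (mstep M)^[n] ((some q, v), S) = ofCfg M (stepAux q v S) := by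
  induction q generalizing v S with
  | push k f q ih =>
    obtain ⟨n, hn, h⟩ := ih v (Function.update S k (f v :: S k))
    exact ⟨n + 1, by simp only [slen]; omega, by rw [Function.iterate_succ_apply]; exact h⟩
  | peek k f q ih =>
    obtain ⟨n, hn, h⟩ := ih (f v (S k).head?) S
    exact ⟨n + 1, by simp only [slen]; omega, by rw [Function.iterate_succ_apply]; exact h⟩
  | pop k f q ih =>
    obtain ⟨n, hn, h⟩ := ih (f v (S k).head?) (Function.update S k (S k).tail)
    exact ⟨n + 1, by simp only [slen]; omega, by rw [Function.iterate_succ_apply]; exact h⟩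
  | load a q ih =>
    obtain ⟨n, hn, h⟩ := ih (a v) S
    exact ⟨n + 1, by simp only [slen]; omega, by rw [Function.iterate_succ_apply]; exact h⟩
  | branch f q₁ q₂ ih₁ ih₂ =>
    cases hf : f v with
    | true =>
      obtain ⟨n, hn, h⟩ := ih₁ v S
      refine ⟨n + 1, by simp only [slen]; omega, ?_⟩
      rw [Function.iterate_succ_apply]
      have e : mstep M ((some (Stmt.branch f q₁ q₂), v), S) = ((some q₁, v), S) := by
        simp [mstep, eff, applyEff, hf]
      rw [e, h, stepAux, hf, cond_true]
    | false =>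
      obtain ⟨n, hn, h⟩ := ih₂ v S
      refine ⟨n + 1, by simp only [slen]; omega, ?_⟩
      rw [Function.iterate_succ_apply]
      have e : mstep M ((some (Stmt.branch f q₁ q₂), v), S) = ((some q₂, v), S) := by
        simp [mstep, eff, applyEff, hf]
      rw [e, h, stepAux, hf, cond_false]
  | goto l => exact ⟨1, le_rfl, rfl⟩
  | halt => exact ⟨1, le_rfl, rfl⟩

theorem mstep_iterate_none (M : Λ → Stmt Γ Λ σ) (v : σ) (S : ∀ k, List (Γ k)) (n : ℕ) :
    (mstep M)^[n] ((none, v), S) = ((none, v), S) := by
  induction n with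
  | zero => rfl
  | succ n ih => rw [Function.iterate_succ_apply]; exact ih

theorem mstep_of_iterate_step [Fintype Λ] (M : Λ → Stmt Γ Λ σ) (s : ℕ) (hs : ∀ l, slen (M l) ≤ s)
    (n : ℕ) (a b : Cfg Γ Λ σ) (h : (flip bind (TM2.step M))^[n] (some a) = some b) :
    ∃ n' ≤ n * s, (mstep M)^[n'] (ofCfg M a) = ofCfg M b := by
  induction n generalizing a with
  | zero =>
    simp only [Function.iterate_zero, id, Option.some.injEq] at h
    exact ⟨0, by omega, by rw [h]; rfl⟩
  | succ n ih =>
    rw [Function.iterate_succ_apply] at h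
    have hnone : ∀ m : ℕ, (flip bind (TM2.step M))^[m] (none : Option (Cfg Γ Λ σ)) = none := by
      intro m
      induction m with
      | zero => rfl
      | succ m ih => rw [Function.iterate_succ_apply]; exact ih
    obtain ⟨l, v, S⟩ := a
    cases l with
    | none =>
      have e : flip bind (TM2.step M) (some ⟨none, v, S⟩) = none := rfl
      rw [e, hnone] at h
      exact absurd h (by simp)
    | some l =>
      have e : flip bind (TM2.step M) (some ⟨some l, v, S⟩) = some (stepAux (M l) v S) := rfl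
      rw [e] at h
      obtain ⟨n1, hn1, h1⟩ := ih _ h
      obtain ⟨n2, hn2, h2⟩ := mstep_stepAux M (M l) v S
      refine ⟨n1 + n2, ?_, ?_⟩
      · have := hs l
        rw [Nat.add_mul, Nat.one_mul]
        omega
      · rw [Function.iterate_add_apply]
        show (mstep M)^[n1] ((mstep M)^[n2] ((some (M l), v), S)) = _
        rw [h2, h1]

theorem mstep_halts [Fintype Λ] (M : Λ → Stmt Γ Λ σ) (s : ℕ) (hs : ∀ l, slen (M l) ≤ s)
    (n : ℕ) (a : Cfg Γ Λ σ) (v : σ) (S : ∀ k, List (Γ k))
    (h : (flip bind (TM2.step M))^[n] (some a) = some ⟨none, v, S⟩) (N : ℕ) (hN : n * s ≤ N) :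
    (mstep M)^[N] (ofCfg M a) = ((none, v), S) := by
  obtain ⟨n', hn', h'⟩ := mstep_of_iterate_step M s hs n a _ h
  obtain ⟨d, rfl⟩ : ∃ d, N = d + n' := ⟨N - n', by omega⟩
  rw [Function.iterate_add_apply, h']
  exact mstep_iterate_none M v S d

end

end Pool.NPC
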