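import Pool.Agent.NPC.Tree

/-!
# The class `PT` of polynomial time functions between encoded types
-/

namespace Pool.NPC

open Tr Polynomial

/-- types with a fixed-width encoding by bit strings -/
class Enc (α : Type) where
  sh : Tr Unit
  enc : α → Tr (List Bool)
  shape_enc : ∀ a, (enc a).shape = sh

open Enc

/-- size of the encoding -/
def sz {α : Type} [Enc α] (a : α) : ℕ := (enc a).size

instance : Enc (List Bool) := ⟨.leaf (), fun l => .leaf l, fun _ => rfl⟩
instance : Enc Bool := ⟨.leaf (), fun b => .leaf [b], fun _ => rfl⟩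
instance : Enc ℕ := ⟨.leaf (), fun n => .leaf (List.replicate n true), fun _ => rfl⟩
instance : Enc Unit := ⟨.leaf (), fun _ => .leaf [], fun _ => rfl⟩
instance {α β : Type} [Enc α] [Enc β] : Enc (α × β) :=
  ⟨.pair (sh α) (sh β), fun x => .pair (enc x.1) (enc x.2), fun x => by
    simp [Tr.shape, shape_enc]⟩

@[simp] theorem sz_list (l : List Bool) : sz l = l.length := rfl
@[simp] theorem sz_bool (b : Bool) : sz b = 1 := rfl
@[simp] theorem sz_unit (b : Unit) : sz b = 0 := rfl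
@[simp] theorem sz_nat (n : ℕ) : sz n = n := by
  simp [sz, enc, Tr.size]
@[simp] theorem sz_prod {α β : Type} [Enc α] [Enc β] (x : α × β) : sz x = sz x.1 + sz x.2 := rfl

theorem poly_mono (P : ℕ[X]) {a b : ℕ} (h : a ≤ b) : P.eval a ≤ P.eval b := by
  rw [Polynomial.eval_eq_sum, Polynomial.eval_eq_sum]
  exact Finset.sum_le_sum fun i _ => Nat.mul_le_mul_left _ (Nat.pow_le_pow_left h _)

/-- registers: sources `ρ`, destinations `δ`, everything `≥ B` free -/
structure Fresh (ρ δ : Tr ℕ) (B : ℕ) : Prop where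
  ρB : ∀ r ∈ ρ.leaves, r < B
  δB : ∀ r ∈ δ.leaves, r < B
  nd : δ.leaves.Nodup
  dj : ∀ r ∈ δ.leaves, r ∉ ρ.leaves

variable {α β γ : Type} [Enc α] [Enc β] [Enc γ]

/-- `c` computes `f` from registers `ρ` to registers `δ` in time `P`, using the registers `≥ B`
as work space -/
def Computes (f : α → β) (P : ℕ[X]) (ρ δ : Tr ℕ) (B : ℕ) (c : Cmd) : Prop :=
  ∀ (a : α) (S : State), Holds ρ (enc a) S → (∀ r ∈ δ.leaves, S r = []) → (∀ r, B ≤ r → S r = []) →
    ∃ S', ExecLe c S S' (P.eval (sz a)) ∧ Holds δ (enc (f a)) S' ∧ ∀ r, r ∉ δ.leaves → S' r = S r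

/-- `f` is computable in time `P` -/
def PTc (f : α → β) (P : ℕ[X]) : Prop :=
  ∀ (ρ δ : Tr ℕ) (B : ℕ), ρ.shape = sh α → δ.shape = sh β → Fresh ρ δ B →
    ∃ c, Computes f P ρ δ B c

/-- `f` is computable in polynomial time -/
def PT (f : α → β) : Prop := ∃ P : ℕ[X], PTc f P

theorem PT.size {f : α → β} (hf : PT f) : ∃ Q : ℕ[X], ∀ a, sz (f a) ≤ Q.eval (sz a) := by
  obtain ⟨P, hP⟩ := hf
  set ρ := alloc (sh α) 0 with hρ
  set δ := alloc (sh β) (sh α).num with hδ
  have hfresh : Fresh ρ δ ((sh α).num + (sh β).num) := by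
    refine ⟨?_, ?_, nodup_alloc _ _, ?_⟩
    · intro r hr
      have := mem_alloc _ _ _ hr
      omega
    · intro r hr
      have := mem_alloc _ _ _ hr
      omega
    · intro r hr hr'
      have := mem_alloc _ _ _ hr
      have := mem_alloc _ _ _ hr'
      omega
  obtain ⟨c, hc⟩ := hP ρ δ _ (shape_alloc _ _) (shape_alloc _ _) hfresh
  refine ⟨C (sh β).num * P, fun a => ?_⟩
  obtain ⟨S, hS, hS'⟩ := exists_holds ρ (enc a) (by rw [shape_alloc, shape_enc])
    (nodup_alloc _ _) (fun _ => [])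
  have he : ∀ r ∈ δ.leaves, S r = [] := fun r hr => hS' r (hfresh.dj r hr)
  obtain ⟨S', ⟨t, ht, hE⟩, h2, h3⟩ := hc a S hS he (fun r hr => hS' r fun hr' => by
    have := hfresh.ρB r hr'; omega)
  have := h2.size_le (T := P.eval (sz a)) (fun r hr => by
    have := hE.length_le r
    rw [he r hr] at this
    simp only [List.length_nil, zero_add] at this
    omega)
  have hnum : δ.num = (sh β).num := by
    rw [← num_shape, shape_alloc]
  rw [hnum] at this
  simp only [eval_mul, eval_C]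
  exact this

/-! ### basic closure properties -/

theorem PT.of_enc_eq {f : α → β} {g : α → γ} (hf : PT f)
    (hsh : sh γ = sh β) (h : ∀ a, enc (g a) = enc (f a)) : PT g := by
  obtain ⟨P, hP⟩ := hf
  refine ⟨P, fun ρ δ B h1 h2 h3 => ?_⟩
  obtain ⟨c, hc⟩ := hP ρ δ B h1 (h2.trans hsh) h3
  refine ⟨c, fun a S hS he hB => ?_⟩
  rw [h]
  exact hc a S hS he hB

/-- any function with the same encoding as its source, e.g. the identity, is polynomial time -/
theorem PT.ident {f : α → β} (hsh : sh α = sh β) (h : ∀ a, enc (f a) = enc a) : PT f := by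
  refine ⟨C 5 * X + C (2 * (sh α).num), fun ρ δ B h1 h2 h3 => ⟨copyT ρ δ B, fun a S hS he hB => ?_⟩⟩
  obtain ⟨S', k1, k2, k3⟩ := execLe_copyT ρ δ B (enc a) S (by rw [h2, h1, hsh]) h3.nd h3.dj
    (fun h => absurd (h3.ρB _ h) (lt_irrefl _)) (fun h => absurd (h3.δB _ h) (lt_irrefl _))
    (hB B le_rfl) he hS
  refine ⟨S', k1.mono ?_, by rw [h]; exact k2, k3⟩
  simp only [eval_add, eval_mul, eval_C, eval_X]
  rw [← h1, num_shape]
  rfl

theorem PT.id : PT (fun a : α => a) := PT.ident rfl fun _ => rfl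

theorem PT.fst : PT (Prod.fst : α × β → α) := by
  refine ⟨C 5 * X + C (2 * (sh α).num), fun ρ δ B h1 h2 h3 => ?_⟩
  cases ρ with
  | leaf r => simp [Tr.shape, sh] at h1
  | pair ρ1 ρ2 =>
    simp only [Tr.shape, sh, Tr.pair.injEq] at h1
    refine ⟨copyT ρ1 δ B, fun a S hS he hB => ?_⟩
    simp only [enc, Holds] at hS
    have hρ1 : ∀ r ∈ ρ1.leaves, r ∈ (Tr.pair ρ1 ρ2).leaves := fun r hr => by simp [leaves, hr]
    obtain ⟨S', k1, k2, k3⟩ := execLe_copyT ρ1 δ B (enc a.1) S (by rw [h2, h1.1]) h3.nd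
      (fun r hr hr' => h3.dj r hr (hρ1 r hr'))
      (fun h => absurd (h3.ρB _ (hρ1 _ h)) (lt_irrefl _))
      (fun h => absurd (h3.δB _ h) (lt_irrefl _))
      (hB B le_rfl) he hS.1
    refine ⟨S', k1.mono ?_, k2, k3⟩
    simp only [eval_add, eval_mul, eval_C, eval_X]
    rw [← h1.1, num_shape]
    have : (enc a.1).size ≤ sz a := by
      show _ ≤ sz a.1 + sz a.2
      unfold sz; omega
    omega

theorem PT.snd : PT (Prod.snd : α × β → β) := by
  refine ⟨C 5 * X + C (2 * (sh β).num), fun ρ δ B h1 h2 h3 => ?_⟩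
  cases ρ with
  | leaf r => simp [Tr.shape, sh] at h1
  | pair ρ1 ρ2 =>
    simp only [Tr.shape, sh, Tr.pair.injEq] at h1
    refine ⟨copyT ρ2 δ B, fun a S hS he hB => ?_⟩
    simp only [enc, Holds] at hS
    have hρ1 : ∀ r ∈ ρ2.leaves, r ∈ (Tr.pair ρ1 ρ2).leaves := fun r hr => by simp [leaves, hr]
    obtain ⟨S', k1, k2, k3⟩ := execLe_copyT ρ2 δ B (enc a.2) S (by rw [h2, h1.2]) h3.nd
      (fun r hr hr' => h3.dj r hr (hρ1 r hr'))
      (fun h => absurd (h3.ρB _ (hρ1 _ h)) (lt_irrefl _))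
      (fun h => absurd (h3.δB _ h) (lt_irrefl _))
      (hB B le_rfl) he hS.2
    refine ⟨S', k1.mono ?_, k2, k3⟩
    simp only [eval_add, eval_mul, eval_C, eval_X]
    rw [← h1.2, num_shape]
    have : (enc a.2).size ≤ sz a := by
      show _ ≤ sz a.1 + sz a.2
      unfold sz; omega
    omega

theorem PT.const (b : β) : PT (fun _ : α => b) := by
  refine ⟨C (sz b + (sh β).num), fun ρ δ B h1 h2 h3 => ⟨constT δ (enc b), fun a S hS he hB => ?_⟩⟩
  obtain ⟨S', k1, k2, k3⟩ := execLe_constT δ (enc b) S (by rw [h2, shape_enc]) h3.nd he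
  refine ⟨S', k1.mono ?_, k2, k3⟩
  simp only [eval_C]
  rw [← h2, num_shape]
  rfl

theorem PT.pair {f : α → β} {g : α → γ} (hf : PT f) (hg : PT g) :
    PT (fun a => (f a, g a)) := by
  obtain ⟨P, hP⟩ := hf
  obtain ⟨Q, hQ⟩ := hg
  refine ⟨P + Q, fun ρ δ B h1 h2 h3 => ?_⟩
  cases δ with
  | leaf r => simp [Tr.shape, sh] at h2
  | pair δ1 δ2 =>
    simp only [Tr.shape, sh, Tr.pair.injEq] at h2
    have hnd := h3.nd
    simp only [leaves] at hnd
    rw [List.nodup_append] at hnd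
    have m1 : ∀ r ∈ δ1.leaves, r ∈ (Tr.pair δ1 δ2).leaves := fun r hr => by simp [leaves, hr]
    have m2 : ∀ r ∈ δ2.leaves, r ∈ (Tr.pair δ1 δ2).leaves := fun r hr => by simp [leaves, hr]
    have hd12 : ∀ r ∈ δ1.leaves, r ∉ δ2.leaves := fun r hr hr' => hnd.2.2 r hr r hr' rfl
    obtain ⟨c, hc⟩ := hP ρ δ1 B h1 h2.1 ⟨h3.ρB, fun r hr => h3.δB r (m1 r hr), hnd.1,
      fun r hr => h3.dj r (m1 r hr)⟩
    obtain ⟨d, hd⟩ := hQ ρ δ2 B h1 h2.2 ⟨h3.ρB, fun r hr => h3.δB r (m2 r hr), hnd.2.1,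
      fun r hr => h3.dj r (m2 r hr)⟩
    refine ⟨.seq c d, fun a S hS he hB => ?_⟩
    obtain ⟨S1, k1, k2, k3⟩ := hc a S hS (fun r hr => he r (m1 r hr)) hB
    obtain ⟨S2, l1, l2, l3⟩ := hd a S1
      (hS.congr fun r hr => k3 r fun hr' => h3.dj r (m1 r hr') hr)
      (fun r hr => by rw [k3 r fun hr' => hd12 r hr' hr, he r (m2 r hr)])
      (fun r hr => by
        rw [k3 r fun hr' => ?_, hB r hr]
        have := h3.δB r (m1 r hr'); omega)
    refine ⟨S2, (k1.seq l1).mono ?_, ⟨k2.congr fun r hr => l3 r (hd12 r hr), l2⟩, ?_⟩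
    · simp only [eval_add]; exact le_rfl
    · intro r hr
      simp only [leaves, List.mem_append, not_or] at hr
      rw [l3 r hr.2, k3 r hr.1]

theorem PT.comp {g : β → γ} {f : α → β} (hg : PT g) (hf : PT f) : PT (fun a => g (f a)) := by
  obtain ⟨R, hR⟩ := hf.size
  obtain ⟨P, hP⟩ := hf
  obtain ⟨Q, hQ⟩ := hg
  refine ⟨P + Q.comp R + (C 2 * R + C (sh β).num), fun ρ δ B h1 h2 h3 => ?_⟩
  set μ := alloc (sh β) B with hμ
  have hμB : ∀ r ∈ μ.leaves, B ≤ r ∧ r < B + (sh β).num := fun r hr => mem_alloc _ _ _ hr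
  obtain ⟨c, hc⟩ := hP ρ μ (B + (sh β).num) h1 (shape_alloc _ _)
    ⟨fun r hr => by have := h3.ρB r hr; omega, fun r hr => (hμB r hr).2, nodup_alloc _ _,
      fun r hr hr' => by have := h3.ρB r hr'; have := hμB r hr; omega⟩
  obtain ⟨d, hd⟩ := hQ μ δ (B + (sh β).num) (shape_alloc _ _) h2
    ⟨fun r hr => (hμB r hr).2, fun r hr => by have := h3.δB r hr; omega, h3.nd,
      fun r hr hr' => by have := h3.δB r hr; have := hμB r hr'; omega⟩
  refine ⟨.seq c (.seq d (clearT μ)), fun a S hS he hB => ?_⟩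
  have hμδ : ∀ r ∈ μ.leaves, r ∉ δ.leaves := fun r hr hr' => by
    have := h3.δB r hr'; have := hμB r hr; omega
  obtain ⟨S1, k1, k2, k3⟩ := hc a S hS (fun r hr => hB r (hμB r hr).1)
    (fun r hr => hB r (by omega))
  obtain ⟨S2, l1, l2, l3⟩ := hd (f a) S1 k2
    (fun r hr => by rw [k3 r fun hr' => hμδ r hr' hr, he r hr])
    (fun r hr => by
      rw [k3 r fun hr' => ?_, hB r (by omega)]
      have := hμB r hr'; omega)
  obtain ⟨S3, m1, m2, m3⟩ := execLe_clearT μ (enc (f a)) S2 (nodup_alloc _ _)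
    (k2.congr fun r hr => l3 r (hμδ r hr))
  refine ⟨S3, (k1.seq (l1.seq m1)).mono ?_, l2.congr fun r hr => m3 r fun hr' => hμδ r hr' hr, ?_⟩
  · simp only [eval_add, eval_mul, eval_C, eval_comp]
    have e1 : (enc (f a)).size ≤ R.eval (sz a) := hR a
    have e2 : Q.eval (sz (f a)) ≤ Q.eval (R.eval (sz a)) := poly_mono Q (hR a)
    have e3 : μ.num = (sh β).num := by rw [← num_shape, shape_alloc]
    rw [e3]
    omega
  · intro r hr
    by_cases hrμ : r ∈ μ.leaves
    · rw [m2 r hrμ, hB r (hμB r hrμ).1]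
    · rw [m3 r hrμ, l3 r hr, k3 r hrμ]

/-- a function computed by branching on one register of a `Bool` or list -/
theorem PT.caseBit {c : α → Bool} {f g : α → β} (hc : PT c) (hf : PT f) (hg : PT g) :
    PT (fun a => if c a = true then f a else g a) := by
  obtain ⟨R, hR⟩ := hc
  obtain ⟨P, hP⟩ := hf
  obtain ⟨Q, hQ⟩ := hg
  refine ⟨R + P + Q + C 4, fun ρ δ B h1 h2 h3 => ?_⟩
  obtain ⟨cc, hcc⟩ := hR ρ (.leaf B) (B + 1) h1 rfl
    ⟨fun r hr => by have := h3.ρB r hr; omega, fun r hr => by simp [leaves] at hr; omega,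
      by simp [leaves], fun r hr hr' => by
        simp [leaves] at hr
        have := h3.ρB r hr'; omega⟩
  have hF : Fresh ρ δ (B + 1) := ⟨fun r hr => by have := h3.ρB r hr; omega,
      fun r hr => by have := h3.δB r hr; omega, h3.nd, h3.dj⟩
  obtain ⟨cf, hcf⟩ := hP ρ δ (B + 1) h1 h2 hF
  obtain ⟨cg, hcg⟩ := hQ ρ δ (B + 1) h1 h2 hF
  refine ⟨.seq cc (.seq (.case B fun o => if o = some true then cf else cg) (.pop B)),
    fun a S hS he hB => ?_⟩
  have hBρ : ∀ r ∈ ρ.leaves, r ≠ B := fun r hr => by have := h3.ρB r hr; omega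
  have hBδ : ∀ r ∈ δ.leaves, r ≠ B := fun r hr => by have := h3.δB r hr; omega
  obtain ⟨S1, k1, k2, k3⟩ := hcc a S hS (fun r hr => hB r (by simp [leaves] at hr; omega))
    (fun r hr => hB r (by omega))
  have k3' : ∀ r, r ≠ B → S1 r = S r := fun r hr => k3 r (by simpa [leaves] using hr)
  have k2' : S1 B = [c a] := k2
  have key : ∃ S2, ExecLe (if (S1 B).head? = some true then cf else cg) S1 S2
      (P.eval (sz a) + Q.eval (sz a)) ∧ Holds δ (enc (if c a = true then f a else g a)) S2 ∧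
      ∀ r, r ∉ δ.leaves → S2 r = S1 r := by
    have e1 : Holds ρ (enc a) S1 := hS.congr fun r hr => k3' r (hBρ r hr)
    have e2 : ∀ r ∈ δ.leaves, S1 r = [] := fun r hr => by rw [k3' r (hBδ r hr), he r hr]
    have e3 : ∀ r, B + 1 ≤ r → S1 r = [] := fun r hr => by
      rw [k3' r (by omega), hB r (by omega)]
    rw [k2']
    by_cases hca : c a = true
    · simp only [hca, List.head?_cons, if_true]
      obtain ⟨S2, l1, l2, l3⟩ := hcf a S1 e1 e2 e3
      exact ⟨S2, l1.mono (by omega), l2, l3⟩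
    · have : ¬ (([c a] : List Bool).head? = some true) := by simpa using hca
      simp only [this, hca, if_false]
      obtain ⟨S2, l1, l2, l3⟩ := hcg a S1 e1 e2 e3
      exact ⟨S2, l1.mono (by omega), by simpa using l2, l3⟩
  obtain ⟨S2, l1, l2, l3⟩ := key
  have hS2B : S2 B = [c a] := by
    rw [l3 B (fun h => hBδ B h rfl), k2']
  refine ⟨_, (k1.seq ((execLe_case l1).seq (execLe_pop B S2))).mono ?_, ?_, ?_⟩
  · simp only [eval_add, eval_C]; omega
  · refine l2.congr fun r hr => ?_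
    rw [Function.update_of_ne (hBδ r hr)]
  · intro r hr
    by_cases hrB : r = B
    · rw [hrB, Function.update_self, hS2B, hB B le_rfl]; rfl
    · rw [Function.update_of_ne hrB, l3 r hr, k3' r hrB]

end Pool.NPC
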