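import Pool.Agent.NPC.Micro

/-!
# Local rules describing the runs of a micro machine
-/

namespace Pool.NPC

open Turing Turing.TM2

/-- what a variable says: control state, or contents of a cell of a stack -/
inductive Kind {K : Type} (Γ : K → Type) (Λ σ : Type) : Type
  | ctrl (c : Ctrl Γ Λ σ)
  | cell (k : K) (o : Option (Γ k))

/-- relative literals -/
structure Lit (κ : Type) where
  sg : Bool
  dt : ℕ
  jm : ℕ
  kd : κ

/-- relative clauses of three literals, with a number describing where they apply -/
structure Rule (κ : Type) where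
  mode : ℕ
  a : Lit κ
  b : Lit κ
  c : Lit κ

/-- position of a literal -/
def pos (j jm : ℕ) : ℕ := if jm = 0 then j else if jm = 1 then j + 1 else 0

/-- truth of a relative literal at `(t, j)` -/
def Lit.Holds {κ : Type} (l : Lit κ) (X : ℕ → ℕ → κ → Prop) (t j : ℕ) : Prop :=
  if l.sg = true then X (t + l.dt) (pos j l.jm) l.kd else ¬ X (t + l.dt) (pos j l.jm) l.kd

/-- truth of a rule at `(t, j)` -/
def Rule.Holds {κ : Type} (r : Rule κ) (X : ℕ → ℕ → κ → Prop) (t j : ℕ) : Prop :=
  r.a.Holds X t j ∨ r.b.Holds X t j ∨ r.c.Holds X t j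

/-- where a rule applies: input of length `n` with bits `x`, witness length `≤ p`, time `T`,
height `H` -/
def app (n p T H : ℕ) (x : ℕ → Bool) (mode t j : ℕ) : Bool :=
  if mode = 0 then decide (t < T) && decide (j < H)
  else if mode = 1 then decide (t = 0)
  else if mode = 2 then decide (t = 0) && decide (j = 0)
  else if mode = 3 then decide (t = T) && decide (j = 0)
  else if mode = 4 then decide (t = 0) && decide (j < n) && x j
  else if mode = 5 then decide (t = 0) && decide (j < n) && !(x j)
  else if mode = 6 then decide (t = 0) && decide (n ≤ j) && decide (j < n + p)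
  else decide (t = 0) && decide (n + p ≤ j)

section

variable {K : Type} {Γ : K → Type} {Λ σ : Type}

/-- the possible cell contents -/
def Vals (G : ∀ k, Set (Γ k)) (k : K) : Set (Option (Γ k)) :=
  {o | ∀ g, o = some g → g ∈ G k}

/-- negative literal: the control state -/
def nC (c : Ctrl Γ Λ σ) : Lit (Kind Γ Λ σ) := ⟨false, 0, 2, .ctrl c⟩
/-- positive literal: the next control state -/
def pC (c : Ctrl Γ Λ σ) : Lit (Kind Γ Λ σ) := ⟨true, 1, 2, .ctrl c⟩
/-- negative literal: a cell -/
def nK (jm : ℕ) (k : K) (o : Option (Γ k)) : Lit (Kind Γ Λ σ) := ⟨false, 0, jm, .cell k o⟩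
/-- positive literal: a cell at the next time -/
def pK (jm : ℕ) (k : K) (o : Option (Γ k)) : Lit (Kind Γ Λ σ) := ⟨true, 1, jm, .cell k o⟩
/-- positive literal: a cell -/
def iK (jm : ℕ) (k : K) (o : Option (Γ k)) : Lit (Kind Γ Λ σ) := ⟨true, 0, jm, .cell k o⟩

/-- does an effect touch the stack `k`? -/
def touches : Eff Γ Λ σ → K → Prop
  | .stay _, _ => False
  | .push k' _ _, k => k' = k
  | .read k' d _, k => k' = k ∧ d = true

/-- the rules -/
inductive IsRule (M : Λ → Stmt Γ Λ σ) (F : Set (Ctrl Γ Λ σ)) (G : ∀ k, Set (Γ k))
    (c₀ : Ctrl Γ Λ σ) (k₀ k₁ : K) (inp : Bool ⊕ Bool → Γ k₀) (out : Γ k₁) :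
    Rule (Kind Γ Λ σ) → Prop
  | stay (c) (hc : c ∈ F) (c') (h : eff M c = .stay c') :
      IsRule M F G c₀ k₀ k₁ inp out ⟨0, nC c, nC c, pC c'⟩
  | pushC (c) (hc : c ∈ F) (k g c') (h : eff M c = .push k g c') :
      IsRule M F G c₀ k₀ k₁ inp out ⟨0, nC c, nC c, pC c'⟩
  | pushT (c) (hc : c ∈ F) (k g c') (h : eff M c = .push k g c') :
      IsRule M F G c₀ k₀ k₁ inp out ⟨0, nC c, nC c, pK 2 k (some g)⟩
  | pushK (c) (hc : c ∈ F) (k g c') (h : eff M c = .push k g c') (o) (ho : o ∈ Vals G k) :
      IsRule M F G c₀ k₀ k₁ inp out ⟨0, nC c, nK 0 k o, pK 1 k o⟩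
  | readC (c) (hc : c ∈ F) (k d f) (h : eff M c = .read k d f) (o) (ho : o ∈ Vals G k) :
      IsRule M F G c₀ k₀ k₁ inp out ⟨0, nC c, nK 2 k o, pC (f o)⟩
  | readK (c) (hc : c ∈ F) (k f) (h : eff M c = .read k true f) (o) (ho : o ∈ Vals G k) :
      IsRule M F G c₀ k₀ k₁ inp out ⟨0, nC c, nK 1 k o, pK 0 k o⟩
  | copy (c) (hc : c ∈ F) (k) (h : ¬ touches (eff M c) k) (o) (ho : o ∈ Vals G k) :
      IsRule M F G c₀ k₀ k₁ inp out ⟨0, nC c, nK 0 k o, pK 0 k o⟩
  | initO (k) (hk : k ≠ k₀) :
      IsRule M F G c₀ k₀ k₁ inp out ⟨1, iK 0 k none, iK 0 k none, iK 0 k none⟩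
  | initC : IsRule M F G c₀ k₀ k₁ inp out
      ⟨2, ⟨true, 0, 2, .ctrl c₀⟩, ⟨true, 0, 2, .ctrl c₀⟩, ⟨true, 0, 2, .ctrl c₀⟩⟩
  | final : IsRule M F G c₀ k₀ k₁ inp out
      ⟨3, nK 2 k₁ (some out), nK 2 k₁ (some out), nK 2 k₁ (some out)⟩
  | inpT : IsRule M F G c₀ k₀ k₁ inp out ⟨4, iK 0 k₀ (some (inp (.inl true))),
      iK 0 k₀ (some (inp (.inl true))), iK 0 k₀ (some (inp (.inl true)))⟩
  | inpF : IsRule M F G c₀ k₀ k₁ inp out ⟨5, iK 0 k₀ (some (inp (.inl false))),
      iK 0 k₀ (some (inp (.inl false))), iK 0 k₀ (some (inp (.inl false)))⟩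
  | wit : IsRule M F G c₀ k₀ k₁ inp out ⟨6, iK 0 k₀ (some (inp (.inr false))),
      iK 0 k₀ (some (inp (.inr true))), iK 0 k₀ none⟩
  | witN : IsRule M F G c₀ k₀ k₁ inp out ⟨6, nK 0 k₀ none, nK 0 k₀ none, iK 1 k₀ none⟩
  | rest : IsRule M F G c₀ k₀ k₁ inp out ⟨7, iK 0 k₀ none, iK 0 k₀ none, iK 0 k₀ none⟩

variable [DecidableEq K]

/-- initial stacks -/
def stk₀ (k₀ : K) (inp : Bool ⊕ Bool → Γ k₀) (x w : List Bool) : ∀ k, List (Γ k) :=
  Function.update (fun _ => []) k₀ (x.map (fun b => inp (.inl b)) ++ w.map (fun b => inp (.inr b)))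

/-- facts about a run -/
def fact (run : ℕ → MCfg Γ Λ σ) (t j : ℕ) : Kind Γ Λ σ → Prop
  | .ctrl c => (run t).1 = c
  | .cell k o => ((run t).2 k)[j]? = o

variable {M : Λ → Stmt Γ Λ σ} {F : Set (Ctrl Γ Λ σ)} {G : ∀ k, Set (Γ k)}
    {c₀ : Ctrl Γ Λ σ} {k₀ k₁ : K} {inp : Bool ⊕ Bool → Γ k₀} {out : Γ k₁}

/-- the facts of an accepting run satisfy the rules -/
theorem rules_of_run (x w : List Bool) (p T H : ℕ) (hw : w.length ≤ p)
    (hacc : (((mstep M)^[T] (c₀, stk₀ k₀ inp x w)).2 k₁).head? ≠ some out)
    (r : Rule (Kind Γ Λ σ)) (hr : IsRule M F G c₀ k₀ k₁ inp out r) (t j : ℕ)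
    (happ : app x.length p T H (fun i => x.getD i false) r.mode t j = true) :
    r.Holds (fact fun t => (mstep M)^[t] (c₀, stk₀ k₀ inp x w)) t j := by
  set run : ℕ → MCfg Γ Λ σ := fun t => (mstep M)^[t] (c₀, stk₀ k₀ inp x w) with hrun
  have hsucc : run (t + 1) = mstep M (run t) := by
    rw [hrun]; simp only [Function.iterate_succ_apply']
  have hstep : run (t + 1) = applyEff (eff M (run t).1) (run t).2 := hsucc
  cases hr with
  | stay c hc c' h =>
    by_cases hcc : (run t).1 = c
    · right; right
      show (run (t + 1)).1 = c'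
      rw [hstep, hcc, h]; rfl
    · left
      simpa [Lit.Holds, nC, fact] using hcc
  | pushC c hc k g c' h =>
    by_cases hcc : (run t).1 = c
    · right; right
      show (run (t + 1)).1 = c'
      rw [hstep, hcc, h]; rfl
    · left
      simpa [Lit.Holds, nC, fact] using hcc
  | pushT c hc k g c' h =>
    by_cases hcc : (run t).1 = c
    · right; right
      show ((run (t + 1)).2 k)[0]? = some g
      rw [hstep, hcc, h]
      simp [applyEff]
    · left
      simpa [Lit.Holds, nC, fact] using hcc
  | pushK c hc k g c' h o ho =>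
    by_cases hcc : (run t).1 = c
    · by_cases hko : ((run t).2 k)[j]? = o
      · right; right
        show ((run (t + 1)).2 k)[j + 1]? = o
        rw [hstep, hcc, h]
        simp [applyEff, hko]
      · right; left
        simpa [Lit.Holds, nK, fact, pos] using hko
    · left
      simpa [Lit.Holds, nC, fact] using hcc
  | readC c hc k d f h o ho =>
    by_cases hcc : (run t).1 = c
    · by_cases hko : ((run t).2 k)[0]? = o
      · right; right
        show (run (t + 1)).1 = f o
        rw [hstep, hcc, h]
        simp [applyEff, ← hko, List.head?_eq_getElem?]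
      · right; left
        simpa [Lit.Holds, nK, fact, pos] using hko
    · left
      simpa [Lit.Holds, nC, fact] using hcc
  | readK c hc k f h o ho =>
    by_cases hcc : (run t).1 = c
    · by_cases hko : ((run t).2 k)[j + 1]? = o
      · right; right
        show ((run (t + 1)).2 k)[j]? = o
        rw [hstep, hcc, h]
        simp [applyEff, ← hko]
      · right; left
        simpa [Lit.Holds, nK, fact, pos] using hko
    · left
      simpa [Lit.Holds, nC, fact] using hcc
  | copy c hc k h o ho =>
    by_cases hcc : (run t).1 = c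
    · by_cases hko : ((run t).2 k)[j]? = o
      · right; right
        show ((run (t + 1)).2 k)[j]? = o
        rw [hstep, hcc]
        cases he : eff M c with
        | stay c' => simpa [applyEff] using hko
        | push k' g c' =>
          rw [he] at h
          have hk : k' ≠ k := h
          simp only [applyEff]
          rw [Function.update_of_ne hk.symm]
          exact hko
        | read k' d f =>
          rw [he] at h
          simp only [applyEff]
          cases d with
          | false => simpa using hko
          | true =>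
            have hk : k' ≠ k := fun hk => h ⟨hk, rfl⟩
            simp only [if_true]
            rw [Function.update_of_ne hk.symm]
            exact hko
      · right; left
        simpa [Lit.Holds, nK, fact, pos] using hko
    · left
      simpa [Lit.Holds, nC, fact] using hcc
  | initO k hk =>
    left
    simp only [app, one_ne_zero, if_false, if_true, decide_eq_true_eq] at happ
    subst happ
    show ((run 0).2 k)[j]? = none
    have : (run 0).2 k = [] := by
      show stk₀ k₀ inp x w k = []
      simp [stk₀, Function.update_of_ne hk]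
    rw [this]; rfl
  | initC =>
    left
    simp [app] at happ
    rw [happ.1]
    rfl
  | final =>
    left
    simp [app] at happ
    rw [happ.1]
    simp only [Lit.Holds, nK, fact, pos]
    simpa [List.head?_eq_getElem?] using hacc
  | inpT =>
    left
    simp [app] at happ
    obtain ⟨⟨h1, h2⟩, h3⟩ := happ
    subst h1
    show ((run 0).2 k₀)[j]? = some (inp (.inl true))
    have : (run 0).2 k₀ = x.map (fun b => inp (.inl b)) ++ w.map (fun b => inp (.inr b)) := by
      show stk₀ k₀ inp x w k₀ = _
      simp [stk₀]
    rw [this, List.getElem?_append_left (by simpa using h2), List.getElem?_map]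
    rw [List.getElem?_eq_getElem h2] at h3 ⊢
    simp at h3
    simp [h3]
  | inpF =>
    left
    simp [app] at happ
    obtain ⟨⟨h1, h2⟩, h3⟩ := happ
    subst h1
    show ((run 0).2 k₀)[j]? = some (inp (.inl false))
    have : (run 0).2 k₀ = x.map (fun b => inp (.inl b)) ++ w.map (fun b => inp (.inr b)) := by
      show stk₀ k₀ inp x w k₀ = _
      simp [stk₀]
    rw [this, List.getElem?_append_left (by simpa using h2), List.getElem?_map]
    rw [List.getElem?_eq_getElem h2] at h3 ⊢
    simp at h3
    simp [h3]
  | wit =>
    simp [app] at happ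
    obtain ⟨⟨h1, h2⟩, h3⟩ := happ
    subst h1
    have e : (run 0).2 k₀ = x.map (fun b => inp (.inl b)) ++ w.map (fun b => inp (.inr b)) := by
      show stk₀ k₀ inp x w k₀ = _
      simp [stk₀]
    have e2 : ((run 0).2 k₀)[j]? = (w[j - x.length]?).map (fun b => inp (.inr b)) := by
      rw [e, List.getElem?_append_right (by simpa using h2), List.getElem?_map, List.length_map]
    rcases hwj : w[j - x.length]? with _ | _ | _
    · right; right
      show ((run 0).2 k₀)[j]? = none
      rw [e2, hwj]; rfl
    · left
      show ((run 0).2 k₀)[j]? = some (inp (.inr false))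
      rw [e2, hwj]; rfl
    · right; left
      show ((run 0).2 k₀)[j]? = some (inp (.inr true))
      rw [e2, hwj]; rfl
  | witN =>
    simp [app] at happ
    obtain ⟨⟨h1, h2⟩, h3⟩ := happ
    subst h1
    by_cases hn : ((run 0).2 k₀)[j]? = none
    · right; right
      show ((run 0).2 k₀)[j + 1]? = none
      rw [List.getElem?_eq_none_iff] at hn ⊢
      omega
    · left
      simpa [Lit.Holds, nK, fact, pos] using hn
  | rest =>
    left
    simp [app] at happ
    obtain ⟨h1, h2⟩ := happ
    subst h1
    show ((run 0).2 k₀)[j]? = none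
    have e : (run 0).2 k₀ = x.map (fun b => inp (.inl b)) ++ w.map (fun b => inp (.inr b)) := by
      show stk₀ k₀ inp x w k₀ = _
      simp [stk₀]
    rw [e, List.getElem?_eq_none_iff]
    simp
    omega


/-- closure of the sets of control states and symbols -/
structure Closed (M : Λ → Stmt Γ Λ σ) (F : Set (Ctrl Γ Λ σ)) (G : ∀ k, Set (Γ k)) : Prop where
  stay : ∀ c ∈ F, ∀ c', eff M c = .stay c' → c' ∈ F
  push : ∀ c ∈ F, ∀ k g c', eff M c = .push k g c' → g ∈ G k ∧ c' ∈ F
  read : ∀ c ∈ F, ∀ k d f, eff M c = .read k d f → ∀ o, f o ∈ F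

theorem Closed.inv (hcl : Closed M F G) (y : MCfg Γ Λ σ) (h1 : y.1 ∈ F)
    (h2 : ∀ k, ∀ g ∈ y.2 k, g ∈ G k) :
    (mstep M y).1 ∈ F ∧ ∀ k, ∀ g ∈ (mstep M y).2 k, g ∈ G k := by
  unfold mstep
  cases he : eff M y.1 with
  | stay c' => exact ⟨hcl.stay _ h1 _ he, h2⟩
  | push k g c' =>
    obtain ⟨h3, h4⟩ := hcl.push _ h1 _ _ _ he
    refine ⟨h4, fun k' g' hg' => ?_⟩
    simp only [applyEff] at hg'
    by_cases hk : k' = k
    · subst hk
      rw [Function.update_self, List.mem_cons] at hg'
      rcases hg' with rfl | hg'
      · exact h3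
      · exact h2 _ _ hg'
    · rw [Function.update_of_ne hk] at hg'
      exact h2 _ _ hg'
  | read k d f =>
    refine ⟨hcl.read _ h1 _ _ _ he _, fun k' g' hg' => ?_⟩
    simp only [applyEff] at hg'
    cases d with
    | false => exact h2 _ _ (by simpa using hg')
    | true =>
      simp only [if_true] at hg'
      by_cases hk : k' = k
      · subst hk
        rw [Function.update_self] at hg'
        exact h2 _ _ (List.mem_of_mem_tail hg')
      · rw [Function.update_of_ne hk] at hg'
        exact h2 _ _ hg'

/-- an assignment satisfying the rules yields an accepting run -/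
theorem run_of_rules (hcl : Closed M F G) (hc₀ : c₀ ∈ F) (hinp : ∀ b, inp b ∈ G k₀)
    (x : List Bool) (p T H : ℕ) (hTH : T ≤ H)
    (X : ℕ → ℕ → Kind Γ Λ σ → Prop)
    (hX : ∀ r, IsRule M F G c₀ k₀ k₁ inp out r → ∀ t ≤ T, ∀ j ≤ H,
      app x.length p T H (fun i => x.getD i false) r.mode t j = true → r.Holds X t j) :
    ∃ w : List Bool, w.length ≤ p ∧
      (((mstep M)^[T] (c₀, stk₀ k₀ inp x w)).2 k₁).head? ≠ some out := by
  classical
  -- the length of the witness
  have hL : ∃ L ≤ p, (∀ i < L, ¬ X 0 (x.length + i) (.cell k₀ none)) ∧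
      (L < p → X 0 (x.length + L) (.cell k₀ none)) := by
    by_cases h : ∃ i, i < p ∧ X 0 (x.length + i) (.cell k₀ none)
    · refine ⟨Nat.find h, (Nat.find_spec h).1.le, fun i hi hXi => ?_, fun _ => (Nat.find_spec h).2⟩
      exact Nat.find_min h hi ⟨hi.trans (Nat.find_spec h).1, hXi⟩
    · push_neg at h
      exact ⟨p, le_rfl, fun i hi => h i hi, fun h => absurd h (lt_irrefl _)⟩
  obtain ⟨L, hLp, hL1, hL2⟩ := hL
  let w : List Bool := (List.range L).map fun i =>
    decide (X 0 (x.length + i) (.cell k₀ (some (inp (.inr true)))))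
  have hwlen : w.length = L := by simp [w]
  -- the initial row
  have hnone : ∀ j, x.length + L ≤ j → j ≤ H → X 0 j (.cell k₀ none) := by
    intro j hj hjH
    obtain ⟨i, rfl⟩ : ∃ i, j = x.length + L + i := ⟨j - (x.length + L), by omega⟩
    clear hj
    induction i with
    | zero =>
      by_cases hLp' : L < p
      · exact hL2 hLp'
      · have := hX _ (.rest) 0 (Nat.zero_le _) (x.length + L + 0) hjH (by
          simp [app]; omega)
        simpa [Rule.Holds, Lit.Holds, iK, pos] using this
    | succ i ih =>
      have ih' := ih (by omega)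
      by_cases hlt : x.length + L + i < x.length + p
      · have := hX _ (.witN) 0 (Nat.zero_le _) (x.length + L + i) (by omega) (by
          simp [app]; omega)
        simp only [Rule.Holds, Lit.Holds, iK, nK, pos] at this
        rw [← Nat.add_assoc]
        simpa [ih'] using this
      · have := hX _ (.rest) 0 (Nat.zero_le _) (x.length + L + (i + 1)) hjH (by
          simp [app]; omega)
        simpa [Rule.Holds, Lit.Holds, iK, pos] using this
  have hrow : ∀ j ≤ H, X 0 j (.cell k₀ (stk₀ k₀ inp x w k₀)[j]?) := by
    intro j hj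
    have e : stk₀ k₀ inp x w k₀ =
        x.map (fun b => inp (.inl b)) ++ w.map (fun b => inp (.inr b)) := by simp [stk₀]
    rw [e]
    by_cases h1 : j < x.length
    · rw [List.getElem?_append_left (by simpa using h1), List.getElem?_map,
        List.getElem?_eq_getElem h1]
      cases hb : x[j] with
      | true =>
        have := hX _ (.inpT) 0 (Nat.zero_le _) j hj (by simp [app, h1, hb])
        simpa [Rule.Holds, Lit.Holds, iK, pos] using this
      | false =>
        have := hX _ (.inpF) 0 (Nat.zero_le _) j hj (by simp [app, h1, hb])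
        simpa [Rule.Holds, Lit.Holds, iK, pos] using this
    · rw [List.getElem?_append_right (by simpa using h1), List.getElem?_map, List.length_map]
      obtain ⟨i, rfl⟩ : ∃ i, j = x.length + i := ⟨j - x.length, by omega⟩
      by_cases h2 : i < L
      · have e2 : w[x.length + i - x.length]? =
            some (decide (X 0 (x.length + i) (.cell k₀ (some (inp (.inr true)))))) := by
          rw [Nat.add_sub_cancel_left]
          simp [w, h2]
        rw [e2]
        have h3 := hX _ (.wit) 0 (Nat.zero_le _) (x.length + i) hj (by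
          simp [app]; omega)
        simp only [Rule.Holds, Lit.Holds, iK, pos] at h3
        have h4 := hL1 i h2
        by_cases h5 : X 0 (x.length + i) (.cell k₀ (some (inp (.inr true))))
        · simpa [h5] using h5
        · simpa [h4, h5] using h3
      · have e2 : w[x.length + i - x.length]? = none := by
          rw [Nat.add_sub_cancel_left, List.getElem?_eq_none_iff, hwlen]
          omega
        rw [e2]
        exact hnone _ (by omega) hj
  refine ⟨w, by rw [hwlen]; exact hLp, ?_⟩
  set run : ℕ → MCfg Γ Λ σ := fun t => (mstep M)^[t] (c₀, stk₀ k₀ inp x w) with hrun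
  have hsucc : ∀ t, run (t + 1) = mstep M (run t) := fun t => by
    rw [hrun]; simp only [Function.iterate_succ_apply']
  have hstep : ∀ t, run (t + 1) = applyEff (eff M (run t).1) (run t).2 := hsucc
  -- membership in the finite sets
  have hmem : ∀ t, (run t).1 ∈ F ∧ ∀ k, ∀ g ∈ (run t).2 k, g ∈ G k := by
    intro t
    induction t with
    | zero =>
      refine ⟨hc₀, fun k g hg => ?_⟩
      change g ∈ stk₀ k₀ inp x w k at hg
      by_cases hk : k = k₀
      · subst hk
        simp only [stk₀, Function.update_self, List.mem_append, List.mem_map] at hg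
        rcases hg with ⟨b, _, rfl⟩ | ⟨b, _, rfl⟩ <;> exact hinp _
      · simp [stk₀, Function.update_of_ne hk] at hg
    | succ t ih =>
      rw [hsucc]
      exact hcl.inv _ ih.1 ih.2
  have hval : ∀ t k j, ((run t).2 k)[j]? ∈ Vals G k := fun t k j g hg =>
    (hmem t).2 k g (List.mem_of_getElem? hg)
  -- the main induction
  have main : ∀ t ≤ T, (∀ k j, j + t ≤ H → X t j (.cell k ((run t).2 k)[j]?)) ∧
      X t 0 (.ctrl (run t).1) := by
    intro t
    induction t with
    | zero =>
      intro _
      refine ⟨fun k j hj => ?_, ?_⟩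
      · by_cases hk : k = k₀
        · subst hk
          exact hrow j (by omega)
        · have := hX _ (.initO k hk) 0 (Nat.zero_le _) j (by omega) (by simp [app])
          have e : (run 0).2 k = [] := by
            show stk₀ k₀ inp x w k = []
            simp [stk₀, Function.update_of_ne hk]
          rw [e]
          simpa [Rule.Holds, Lit.Holds, iK, pos] using this
      · have := hX _ (.initC) 0 (Nat.zero_le _) 0 (Nat.zero_le _) (by simp [app])
        have h' : X 0 0 (.ctrl c₀) := by simpa [Rule.Holds, Lit.Holds, pos] using this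
        exact h'
    | succ t ih =>
      intro ht
      obtain ⟨ih1, ih2⟩ := ih (by omega)
      have hF := (hmem t).1
      have happ : ∀ j, j < H → app x.length p T H (fun i => x.getD i false) 0 t j = true := by
        intro j hj
        simp [app, hj]; omega
      have hc : ∀ y : Kind Γ Λ σ, X t 0 (.ctrl (run t).1) := fun _ => ih2
      have hcopy : ∀ k, ¬ touches (eff M (run t).1) k → ∀ j, j + (t + 1) ≤ H →
          X (t + 1) j (.cell k ((run t).2 k)[j]?) := by
        intro k hk j hj
        have := hX _ (.copy _ hF k hk _ (hval t k j)) t (by omega) j (by omega)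
          (happ j (by omega))
        have h1 := ih1 k j (by omega)
        simp only [Rule.Holds, Lit.Holds, nC, nK, pK, pos] at this
        simpa [ih2, h1] using this
      rw [hstep]
      cases he : eff M (run t).1 with
      | stay c' =>
        refine ⟨fun k j hj => hcopy k (by rw [he]; simp [touches]) j hj, ?_⟩
        have := hX _ (.stay _ hF c' he) t (by omega) 0 (Nat.zero_le _) (happ 0 (by omega))
        simp only [Rule.Holds, Lit.Holds, nC, pC, pos] at this
        simpa [ih2, applyEff] using this
      | push k' g c' =>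
        refine ⟨fun k j hj => ?_, ?_⟩
        · by_cases hk : k = k'
          · subst hk
            simp only [applyEff, Function.update_self]
            cases j with
            | zero =>
              have := hX _ (.pushT _ hF k g c' he) t (by omega) 0 (Nat.zero_le _)
                (happ 0 (by omega))
              simp only [Rule.Holds, Lit.Holds, nC, pK, pos] at this
              simpa [ih2] using this
            | succ j =>
              have := hX _ (.pushK _ hF k g c' he _ (hval t k j)) t (by omega) j (by omega)
                (happ j (by omega))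
              have h1 := ih1 k j (by omega)
              simp only [Rule.Holds, Lit.Holds, nC, nK, pK, pos] at this
              simpa [ih2, h1] using this
          · simp only [applyEff]
            rw [Function.update_of_ne hk]
            exact hcopy k (by rw [he]; exact fun h => hk h.symm) j hj
        · have := hX _ (.pushC _ hF k' g c' he) t (by omega) 0 (Nat.zero_le _)
            (happ 0 (by omega))
          simp only [Rule.Holds, Lit.Holds, nC, pC, pos] at this
          simpa [ih2, applyEff] using this
      | read k' d f =>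
        refine ⟨fun k j hj => ?_, ?_⟩
        · simp only [applyEff]
          by_cases hk : k = k' ∧ d = true
          · obtain ⟨hk, hd⟩ := hk
            subst hk
            subst hd
            simp only [if_true, Function.update_self]
            have := hX _ (.readK _ hF k f he _ (hval t k (j + 1))) t (by omega) j (by omega)
              (happ j (by omega))
            have h1 := ih1 k (j + 1) (by omega)
            simp only [Rule.Holds, Lit.Holds, nC, nK, pK, pos] at this
            simpa [ih2, h1] using this
          · have h2 : (if d = true then Function.update (run t).2 k' ((run t).2 k').tail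
                else (run t).2) k = (run t).2 k := by
              by_cases hd : d = true
              · have hk' : k ≠ k' := fun h => hk ⟨h, hd⟩
                rw [if_pos hd, Function.update_of_ne hk']
              · rw [if_neg hd]
            rw [h2]
            exact hcopy k (by rw [he]; exact fun h => hk ⟨h.1.symm, h.2⟩) j hj
        · have := hX _ (.readC _ hF k' d f he _ (hval t k' 0)) t (by omega) 0 (Nat.zero_le _)
            (happ 0 (by omega))
          have h1 := ih1 k' 0 (by omega)
          simp only [Rule.Holds, Lit.Holds, nC, nK, pC, pos] at this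
          simp only [applyEff, List.head?_eq_getElem?]
          simpa [ih2, h1] using this
  have hT := (main T le_rfl).1 k₁ 0 (by omega)
  have hfin := hX _ (.final) T le_rfl 0 (Nat.zero_le _) (by simp [app])
  intro hbad
  have hbad' : ((run T).2 k₁)[0]? = some out := by
    rw [← List.head?_eq_getElem?]; exact hbad
  rw [hbad'] at hT
  simp [Rule.Holds, Lit.Holds, nK, pos, hT] at hfin

end

end Pool.NPC
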