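import Pool.Agent.NPC.Arith
import Pool.Agent.NPC.Finite
import Pool.Agent.NPC.Defs

/-!
# Numbering the variables: 3-SAT families
-/

namespace Pool.NPC

/-- value of literal `l` under `τ`: `2v` is the positive literal, `2v+1` the negative one -/
def litTrue (τ : ℕ → Bool) (l : ℕ) : Bool := if l % 2 = 0 then τ (l / 2) else !(τ (l / 2))

/-- satisfiability of the 3-CNF with clauses `c < nc`, clause `c` has literals `lit c 0,1,2` -/
def Sat3 (nc : ℕ) (lit : ℕ → ℕ → ℕ) : Prop :=
  ∃ τ : ℕ → Bool, ∀ c < nc, ∃ d < 3, litTrue τ (lit c d) = true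

section numbering

variable {κ : Type}

/-- the `d`-th literal of a rule -/
def Rule.lit (r : Rule κ) (d : ℕ) : Lit κ := if d = 0 then r.a else if d = 1 then r.b else r.c

theorem Rule.holds_iff (r : Rule κ) (X : ℕ → ℕ → κ → Prop) (t j : ℕ) :
    r.Holds X t j ↔ ∃ d < 3, (r.lit d).Holds X t j := by
  constructor
  · rintro (h | h | h)
    · exact ⟨0, by norm_num, h⟩
    · exact ⟨1, by norm_num, h⟩
    · exact ⟨2, by norm_num, h⟩
  · rintro ⟨d, hd, h⟩
    have : d = 0 ∨ d = 1 ∨ d = 2 := by omega
    rcases this with rfl | rfl | rfl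
    · exact Or.inl h
    · exact Or.inr (Or.inl h)
    · exact Or.inr (Or.inr h)

/-- number of the variable at time `t`, position `j` of kind number `i` -/
def varNum (W N t j i : ℕ) : ℕ := (t * W + j) * N + i

theorem varNum_mod {W N t j i : ℕ} (hi : i < N) : varNum W N t j i % N = i := by
  unfold varNum
  rw [Nat.add_comm, Nat.add_mul_mod_self_right, Nat.mod_eq_of_lt hi]

theorem varNum_div {W N t j i : ℕ} (hi : i < N) : varNum W N t j i / N = t * W + j := by
  unfold varNum
  rw [Nat.add_comm, Nat.add_mul_div_right _ _ (by omega), Nat.div_eq_of_lt hi, Nat.zero_add]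

theorem pair_mod {W t j : ℕ} (hj : j < W) : (t * W + j) % W = j := by
  rw [Nat.add_comm, Nat.add_mul_mod_self_right, Nat.mod_eq_of_lt hj]

theorem pair_div {W t j : ℕ} (hj : j < W) : (t * W + j) / W = t := by
  rw [Nat.add_comm, Nat.add_mul_div_right _ _ (by omega), Nat.div_eq_of_lt hj, Nat.zero_add]

theorem pair_lt {A W t j : ℕ} (ht : t < A) (hj : j < W) : t * W + j < A * W := by
  have : (t + 1) * W ≤ A * W := Nat.mul_le_mul_right _ ht
  rw [Nat.add_mul, Nat.one_mul] at this
  omega

/-- data of one literal as numbers: sign, time shift, position mode, kind number -/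
structure NLit where
  sg : ℕ
  dt : ℕ
  jm : ℕ
  kn : ℕ

/-- literal number in the 3-CNF -/
def litNum (W N t j : ℕ) (l : NLit) : ℕ := 2 * varNum W N (t + l.dt) (pos j l.jm) l.kn + l.sg

/-- the 3-CNF of a rule system: `R` rules, `mode φ` and `nl φ d` describe rule `φ` -/
def clauseLit (R H N : ℕ) (ap : ℕ → ℕ → ℕ → Bool) (mode : ℕ → ℕ) (nl : ℕ → ℕ → NLit)
    (c d : ℕ) : ℕ :=
  if ap (mode (c % R)) (c / R / (H + 1)) (c / R % (H + 1)) = true then
    litNum (H + 2) N (c / R / (H + 1)) (c / R % (H + 1)) (nl (c % R) d)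
  else if d = 0 then 0 else 1

open Classical in
/-- correctness of the numbering -/
theorem sat3_numbering (rules : List (Rule κ)) (kinds : List κ) (T H : ℕ)
    (ap : ℕ → ℕ → ℕ → Bool)
    (hk : ∀ r ∈ rules, ∀ d, (r.lit d).kd ∈ kinds ∧ (r.lit d).dt ≤ 1)
    (hR : 0 < rules.length)
    (mode : ℕ → ℕ) (nl : ℕ → ℕ → NLit)
    (hmode : ∀ φ (h : φ < rules.length), mode φ = rules[φ].mode)
    (hnl : ∀ φ (h : φ < rules.length), ∀ d, nl φ d = ⟨if (rules[φ].lit d).sg = true then 0 else 1,
      (rules[φ].lit d).dt, (rules[φ].lit d).jm, kinds.idxOf (rules[φ].lit d).kd⟩) :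
    Sat3 ((T + 1) * (H + 1) * rules.length)
        (clauseLit rules.length H kinds.length ap mode nl) ↔
      ∃ X : ℕ → ℕ → κ → Prop, ∀ r ∈ rules, ∀ t ≤ T, ∀ j ≤ H,
        ap r.mode t j = true → r.Holds X t j := by
  have hpos : ∀ j ≤ H, ∀ jm, pos j jm < H + 2 := by
    intro j hj jm
    unfold pos
    split_ifs <;> omega
  constructor
  · rintro ⟨τ, hτ⟩
    refine ⟨fun t j kd => τ (varNum (H + 2) kinds.length t j (kinds.idxOf kd)) = true, ?_⟩
    intro r hr t ht j hj hap
    obtain ⟨φ, hφ, rfl⟩ := List.getElem_of_mem hr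
    obtain ⟨d, hd, hl⟩ := hτ ((t * (H + 1) + j) * rules.length + φ)
      (pair_lt (pair_lt (by omega) (by omega)) hφ)
    rw [Rule.holds_iff]
    refine ⟨d, hd, ?_⟩
    unfold clauseLit at hl
    rw [pair_mod hφ, pair_div hφ, pair_mod (by omega), pair_div (by omega), hmode φ hφ, if_pos hap,
      hnl φ hφ] at hl
    unfold litNum litTrue at hl
    unfold Lit.Holds
    by_cases hsg : (rules[φ].lit d).sg = true
    · rw [if_pos hsg] at hl ⊢
      simpa using hl
    · rw [if_neg hsg] at hl ⊢
      have e1 : ∀ v : ℕ, (2 * v + 1) % 2 = 1 := by intro v; omega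
      have e2 : ∀ v : ℕ, (2 * v + 1) / 2 = v := by intro v; omega
      rw [e1, e2] at hl
      simpa using hl
  · rintro ⟨X, hX⟩
    by_cases hkinds : kinds = []
    · exfalso
      have := (hk _ (List.getElem_mem hR) 0).1
      rw [hkinds] at this
      simp at this
    have hN : 0 < kinds.length := List.length_pos_iff.2 hkinds
    refine ⟨fun v => decide (X (v / kinds.length / (H + 2)) (v / kinds.length % (H + 2))
      (kinds[v % kinds.length]'(Nat.mod_lt _ hN))), ?_⟩
    intro c hc
    set φ := c % rules.length with hφ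
    have hφR : φ < rules.length := Nat.mod_lt _ hR
    set j := c / rules.length % (H + 1) with hj
    set t := c / rules.length / (H + 1) with ht
    have hjH : j ≤ H := by
      have := Nat.mod_lt (c / rules.length) (show 0 < H + 1 by omega)
      omega
    have htT : t ≤ T := by
      have h1 : c / rules.length < (T + 1) * (H + 1) := by
        rw [Nat.div_lt_iff_lt_mul hR]; exact hc
      have h2 : t < T + 1 := by
        rw [ht, Nat.div_lt_iff_lt_mul (show 0 < H + 1 by omega)]; exact h1
      omega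
    by_cases hap : ap rules[φ].mode t j = true
    · have h := hX _ (List.getElem_mem hφR) t htT j hjH hap
      rw [Rule.holds_iff] at h
      obtain ⟨d, hd, h⟩ := h
      refine ⟨d, hd, ?_⟩
      unfold clauseLit
      rw [← hφ, ← hj, ← ht, hmode φ hφR, if_pos hap, hnl φ hφR]
      have hkd := hk _ (List.getElem_mem hφR) d
      have hidx : kinds.idxOf (rules[φ].lit d).kd < kinds.length := List.idxOf_lt_length_iff.2 hkd.1
      have hget : ∀ h' : kinds.idxOf (rules[φ].lit d).kd < kinds.length,
          kinds[kinds.idxOf (rules[φ].lit d).kd]'h' = (rules[φ].lit d).kd := by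
        intro h'
        exact List.getElem_idxOf h'
      unfold litNum litTrue
      unfold Lit.Holds at h
      by_cases hsg : (rules[φ].lit d).sg = true
      · rw [if_pos hsg] at h ⊢
        have e1 : ∀ v : ℕ, (2 * v + 0) % 2 = 0 := by intro v; omega
        have e2 : ∀ v : ℕ, (2 * v + 0) / 2 = v := by intro v; omega
        simp only [e1, e2, if_true, decide_eq_true_eq]
        simp only [varNum_mod hidx, varNum_div hidx, pair_mod (hpos j hjH _),
          pair_div (hpos j hjH _), hget]
        exact h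
      · rw [if_neg hsg] at h ⊢
        have e1 : ∀ v : ℕ, (2 * v + 1) % 2 = 1 := by intro v; omega
        have e2 : ∀ v : ℕ, (2 * v + 1) / 2 = v := by intro v; omega
        simp only [e1, e2, one_ne_zero, if_false, Bool.not_eq_true', decide_eq_false_iff_not]
        simp only [varNum_mod hidx, varNum_div hidx, pair_mod (hpos j hjH _),
          pair_div (hpos j hjH _), hget]
        exact h
    · by_cases h0 : X (0 / kinds.length / (H + 2)) (0 / kinds.length % (H + 2))
        (kinds[0 % kinds.length]'(Nat.mod_lt _ hN))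
      · refine ⟨0, by norm_num, ?_⟩
        unfold clauseLit
        rw [← hφ, ← hj, ← ht, hmode φ hφR, if_neg hap]
        simp only [if_true, litTrue, Nat.zero_mod, Nat.zero_div]
        simpa using h0
      · refine ⟨1, by norm_num, ?_⟩
        unfold clauseLit
        rw [← hφ, ← hj, ← ht, hmode φ hφR, if_neg hap]
        simp only [one_ne_zero, if_false, litTrue]
        have e1 : (1 : ℕ) % 2 = 1 := rfl
        have e2 : (1 : ℕ) / 2 = 0 := rfl
        simp only [e1, e2, one_ne_zero, if_false]
        simpa using h0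

/-- bound for the literals -/
theorem clauseLit_lt (R H N T : ℕ) (hR : 0 < R) (hN : 0 < N) (ap : ℕ → ℕ → ℕ → Bool)
    (mode : ℕ → ℕ) (nl : ℕ → ℕ → NLit)
    (hnl : ∀ φ < R, ∀ d, (nl φ d).sg ≤ 1 ∧ (nl φ d).dt ≤ 1 ∧ (nl φ d).kn < N)
    (c d : ℕ) (hc : c < (T + 1) * (H + 1) * R) :
    clauseLit R H N ap mode nl c d < 2 * ((T + 2) * (H + 2) * N) := by
  unfold clauseLit
  have hφR : c % R < R := Nat.mod_lt _ hR
  have hjH : c / R % (H + 1) ≤ H := by
    have := Nat.mod_lt (c / R) (show 0 < H + 1 by omega)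
    omega
  have htT : c / R / (H + 1) ≤ T := by
    have h1 : c / R < (T + 1) * (H + 1) := by
      rw [Nat.div_lt_iff_lt_mul hR]; exact hc
    have h2 : c / R / (H + 1) < T + 1 := by
      rw [Nat.div_lt_iff_lt_mul (show 0 < H + 1 by omega)]; exact h1
    omega
  have hpos2 : 0 < (T + 2) * (H + 2) * N := by positivity
  split_ifs
  · obtain ⟨h1, h2, h3⟩ := hnl _ hφR d
    unfold litNum varNum
    have h4 : pos (c / R % (H + 1)) (nl (c % R) d).jm < H + 2 := by
      unfold pos
      split_ifs <;> omega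
    have h5 := pair_lt (pair_lt (A := T + 2) (t := c / R / (H + 1) + (nl (c % R) d).dt)
      (by omega) h4) h3
    omega
  · omega
  · omega

end numbering

end Pool.NPC
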