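import Pool.Agent.NPC.Macros

/-!
# Trees of registers and the class `PT` of polynomial time functions
-/

namespace Pool.NPC

/-- binary trees -/
inductive Tr (X : Type) : Type
  | leaf (x : X) : Tr X
  | pair (a b : Tr X) : Tr X

namespace Tr

variable {X Y : Type}

/-- the shape of a tree -/
def shape : Tr X → Tr Unit
  | leaf _ => leaf ()
  | pair a b => pair a.shape b.shape

/-- the leaves of a tree -/
def leaves : Tr X → List X
  | leaf x => [x]
  | pair a b => a.leaves ++ b.leaves

/-- number of leaves -/
def num : Tr X → ℕ
  | leaf _ => 1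
  | pair a b => a.num + b.num

theorem num_shape (a : Tr X) : a.shape.num = a.num := by
  induction a with
  | leaf _ => rfl
  | pair a b iha ihb => simp [shape, num, iha, ihb]

theorem num_eq_of_shape {a : Tr X} {b : Tr Y} (h : a.shape = b.shape) : a.num = b.num := by
  rw [← num_shape a, h, num_shape]

/-- total size of a tree of strings -/
def size : Tr (List Bool) → ℕ
  | leaf l => l.length
  | pair a b => a.size + b.size

/-- fresh registers -/
def alloc : Tr Unit → ℕ → Tr ℕ
  | leaf _, B => leaf B
  | pair a b, B => pair (alloc a B) (alloc b (B + a.num))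

@[simp] theorem shape_alloc (a : Tr Unit) (B : ℕ) : (alloc a B).shape = a := by
  induction a generalizing B with
  | leaf _ => rfl
  | pair a b iha ihb => simp [alloc, shape, iha, ihb]

theorem mem_alloc (a : Tr Unit) (B r : ℕ) (h : r ∈ (alloc a B).leaves) :
    B ≤ r ∧ r < B + a.num := by
  induction a generalizing B with
  | leaf _ => simp [alloc, leaves] at h; simp [num, h]
  | pair a b iha ihb =>
    simp only [alloc, leaves, List.mem_append] at h
    simp only [num]
    rcases h with h | h
    · have := iha B h; omega
    · have := ihb _ h; omega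

theorem nodup_alloc (a : Tr Unit) (B : ℕ) : (alloc a B).leaves.Nodup := by
  induction a generalizing B with
  | leaf _ => simp [alloc, leaves]
  | pair a b iha ihb =>
    simp only [alloc, leaves]
    rw [List.nodup_append]
    refine ⟨iha B, ihb _, ?_⟩
    intro x hx y hy hxy
    have h1 := mem_alloc _ _ _ hx
    have h2 := mem_alloc _ _ _ hy
    omega

end Tr

open Tr

/-- the registers `ρ` hold the values `v` -/
def Holds : Tr ℕ → Tr (List Bool) → State → Prop
  | leaf r, leaf v, S => S r = v
  | pair a b, pair v w, S => Holds a v S ∧ Holds b w S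
  | leaf _, pair _ _, _ => False
  | pair _ _, leaf _, _ => False

theorem Holds.shape_eq {ρ : Tr ℕ} {v : Tr (List Bool)} {S : State} (h : Holds ρ v S) :
    ρ.shape = v.shape := by
  induction ρ generalizing v with
  | leaf r =>
    cases v with
    | leaf v => rfl
    | pair v w => exact absurd h (by simp [Holds])
  | pair a b iha ihb =>
    cases v with
    | leaf v => exact absurd h (by simp [Holds])
    | pair v w =>
      simp only [Holds] at h
      simp [Tr.shape, iha h.1, ihb h.2]

theorem Holds.congr {ρ : Tr ℕ} {v : Tr (List Bool)} {S S' : State} (h : Holds ρ v S)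
    (hS : ∀ r ∈ ρ.leaves, S' r = S r) : Holds ρ v S' := by
  induction ρ generalizing v with
  | leaf r =>
    cases v with
    | leaf v =>
      simp only [Holds] at h ⊢
      rw [hS r (by simp [leaves]), h]
    | pair v w => exact absurd h (by simp [Holds])
  | pair a b iha ihb =>
    cases v with
    | leaf v => exact absurd h (by simp [Holds])
    | pair v w =>
      simp only [Holds] at h ⊢
      exact ⟨iha h.1 fun r hr => hS r (by simp [leaves, hr]),
        ihb h.2 fun r hr => hS r (by simp [leaves, hr])⟩

theorem Holds.unique {ρ : Tr ℕ} {v w : Tr (List Bool)} {S : State} (h : Holds ρ v S)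
    (h' : Holds ρ w S) : v = w := by
  induction ρ generalizing v w with
  | leaf r =>
    cases v <;> cases w <;> simp_all [Holds]
  | pair a b iha ihb =>
    cases v <;> cases w <;> simp_all [Holds]
    exact ⟨iha h.1 h'.1, ihb h.2 h'.2⟩

theorem Holds.length_le_size {ρ : Tr ℕ} {v : Tr (List Bool)} {S : State} (h : Holds ρ v S)
    (r : ℕ) (hr : r ∈ ρ.leaves) : (S r).length ≤ v.size := by
  induction ρ generalizing v with
  | leaf q =>
    cases v with
    | leaf v =>
      simp only [Holds] at h
      simp only [leaves, List.mem_singleton] at hr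
      subst hr
      rw [h]; rfl
    | pair v w => exact absurd h (by simp [Holds])
  | pair a b iha ihb =>
    cases v with
    | leaf v => exact absurd h (by simp [Holds])
    | pair v w =>
      simp only [Holds] at h
      simp only [leaves, List.mem_append] at hr
      simp only [Tr.size]
      rcases hr with hr | hr
      · have := iha h.1 hr; omega
      · have := ihb h.2 hr; omega

theorem Holds.size_le {ρ : Tr ℕ} {v : Tr (List Bool)} {S : State} {T : ℕ} (h : Holds ρ v S)
    (hT : ∀ r ∈ ρ.leaves, (S r).length ≤ T) : v.size ≤ ρ.num * T := by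
  induction ρ generalizing v with
  | leaf q =>
    cases v with
    | leaf v =>
      simp only [Holds] at h
      have := hT q (by simp [leaves])
      rw [h] at this
      simpa [Tr.size, Tr.num] using this
    | pair v w => exact absurd h (by simp [Holds])
  | pair a b iha ihb =>
    cases v with
    | leaf v => exact absurd h (by simp [Holds])
    | pair v w =>
      simp only [Holds] at h
      simp only [Tr.size, Tr.num, Nat.add_mul]
      have h1 := iha h.1 fun r hr => hT r (by simp [leaves, hr])
      have h2 := ihb h.2 fun r hr => hT r (by simp [leaves, hr])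
      omega

/-- there is a state holding given values in distinct registers, other registers empty -/
theorem exists_holds (ρ : Tr ℕ) (v : Tr (List Bool)) (hs : ρ.shape = v.shape)
    (hn : ρ.leaves.Nodup) (S0 : State) :
    ∃ S, Holds ρ v S ∧ ∀ r, r ∉ ρ.leaves → S r = S0 r := by
  induction ρ generalizing v S0 with
  | leaf r =>
    cases v with
    | leaf v =>
      refine ⟨Function.update S0 r v, by simp [Holds], ?_⟩
      intro q hq
      simp only [leaves, List.mem_singleton] at hq
      rw [Function.update_of_ne hq]
    | pair v w => simp [Tr.shape] at hs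
  | pair a b iha ihb =>
    cases v with
    | leaf v => simp [Tr.shape] at hs
    | pair v w =>
      simp only [Tr.shape, Tr.pair.injEq] at hs
      simp only [leaves] at hn
      rw [List.nodup_append] at hn
      obtain ⟨S1, h1, h1'⟩ := iha v hs.1 hn.1 S0
      obtain ⟨S2, h2, h2'⟩ := ihb w hs.2 hn.2.1 S1
      refine ⟨S2, ⟨h1.congr ?_, h2⟩, ?_⟩
      · intro r hr
        exact h2' r fun hr' => hn.2.2 r hr r hr' rfl
      · intro r hr
        simp only [leaves, List.mem_append, not_or] at hr
        rw [h2' r hr.2, h1' r hr.1]

/-! ### clearing and copying trees of registers -/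

/-- clear all registers of a tree -/
def clearT : Tr ℕ → Cmd
  | leaf r => clear r
  | pair a b => .seq (clearT a) (clearT b)

theorem execLe_clearT (ρ : Tr ℕ) (v : Tr (List Bool)) (S : State) (hn : ρ.leaves.Nodup)
    (h : Holds ρ v S) :
    ∃ S', ExecLe (clearT ρ) S S' (2 * v.size + ρ.num) ∧ (∀ r ∈ ρ.leaves, S' r = []) ∧
      ∀ r, r ∉ ρ.leaves → S' r = S r := by
  induction ρ generalizing v S with
  | leaf r =>
    cases v with
    | leaf v =>
      simp only [Holds] at h
      refine ⟨_, (execLe_clear r S).mono ?_, ?_, ?_⟩
      · rw [h]; simp [Tr.size, Tr.num]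
      · intro q hq
        simp only [leaves, List.mem_singleton] at hq
        rw [hq, Function.update_self]
      · intro q hq
        simp only [leaves, List.mem_singleton] at hq
        rw [Function.update_of_ne hq]
    | pair v w => exact absurd h (by simp [Holds])
  | pair a b iha ihb =>
    cases v with
    | leaf v => exact absurd h (by simp [Holds])
    | pair v w =>
      simp only [Holds] at h
      simp only [leaves] at hn
      rw [List.nodup_append] at hn
      obtain ⟨S1, h1, h1', h1''⟩ := iha v S hn.1 h.1
      obtain ⟨S2, h2, h2', h2''⟩ := ihb w S1 hn.2.1 (h.2.congr fun r hr =>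
        h1'' r fun hr' => hn.2.2 r hr' r hr rfl)
      refine ⟨S2, (h1.seq h2).mono ?_, ?_, ?_⟩
      · simp only [Tr.size, Tr.num]; omega
      · intro r hr
        simp only [leaves, List.mem_append] at hr
        by_cases hb : r ∈ b.leaves
        · exact h2' r hb
        · rw [h2'' r hb, h1' r (hr.resolve_right hb)]
      · intro r hr
        simp only [leaves, List.mem_append, not_or] at hr
        rw [h2'' r hr.2, h1'' r hr.1]

/-- copy the registers `ρ` to `δ` using the temporary register `t` -/
def copyT : Tr ℕ → Tr ℕ → ℕ → Cmd
  | leaf a, leaf b, t => copy a b t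
  | pair a b, pair c d, t => .seq (copyT a c t) (copyT b d t)
  | leaf _, pair _ _, _ => .nop
  | pair _ _, leaf _, _ => .nop

theorem execLe_copyT (ρ δ : Tr ℕ) (t : ℕ) (v : Tr (List Bool)) (S : State)
    (hs : δ.shape = ρ.shape) (hn : δ.leaves.Nodup) (hd : ∀ r ∈ δ.leaves, r ∉ ρ.leaves)
    (htρ : t ∉ ρ.leaves) (htδ : t ∉ δ.leaves) (ht : S t = []) (he : ∀ r ∈ δ.leaves, S r = [])
    (h : Holds ρ v S) :
    ∃ S', ExecLe (copyT ρ δ t) S S' (5 * v.size + 2 * ρ.num) ∧ Holds δ v S' ∧
      ∀ r, r ∉ δ.leaves → S' r = S r := by
  induction ρ generalizing δ v S with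
  | leaf a =>
    cases v with
    | leaf v =>
      cases δ with
      | leaf b =>
        simp only [Holds] at h
        simp only [leaves, List.mem_singleton, forall_eq] at hd he htρ htδ
        obtain ⟨S', h1, h2, h3⟩ := execLe_copy a b t (fun h => hd h.symm) (fun h => htρ h.symm)
          (fun h => htδ h.symm) S ht
        refine ⟨S', h1.mono ?_, ?_, ?_⟩
        · rw [h]; simp [Tr.size, Tr.num]
        · simp only [Holds]
          rw [h2, h, he, List.append_nil]
        · intro r hr
          simp only [leaves, List.mem_singleton] at hr
          exact h3 r hr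
      | pair c d => simp [Tr.shape] at hs
    | pair v w => exact absurd h (by simp [Holds])
  | pair a b iha ihb =>
    cases v with
    | leaf v => exact absurd h (by simp [Holds])
    | pair v w =>
      cases δ with
      | leaf c => simp [Tr.shape] at hs
      | pair c d =>
        simp only [Holds] at h
        simp only [Tr.shape, Tr.pair.injEq] at hs
        simp only [leaves] at hn hd htρ htδ he
        rw [List.nodup_append] at hn
        simp only [List.mem_append, not_or] at hd htρ htδ he
        obtain ⟨S1, h1, h1', h1''⟩ := iha c v S hs.1 hn.1 (fun r hr => (hd r (Or.inl hr)).1)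
          htρ.1 htδ.1 ht (fun r hr => he r (Or.inl hr)) h.1
        obtain ⟨S2, h2, h2', h2''⟩ := ihb d w S1 hs.2 hn.2.1 (fun r hr => (hd r (Or.inr hr)).2)
          htρ.2 htδ.2 (by rw [h1'' t htδ.1, ht])
          (fun r hr => by rw [h1'' r fun hr' => hn.2.2 r hr' r hr rfl, he r (Or.inr hr)])
          (h.2.congr fun r hr => h1'' r fun hr' => (hd r (Or.inl hr')).2 hr)
        refine ⟨S2, (h1.seq h2).mono ?_, ⟨h1'.congr ?_, h2'⟩, ?_⟩
        · simp only [Tr.size, Tr.num]; omega
        · intro r hr
          exact h2'' r fun hr' => hn.2.2 r hr r hr' rfl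
        · intro r hr
          simp only [leaves, List.mem_append, not_or] at hr
          rw [h2'' r hr.2, h1'' r hr.1]

/-- write constants -/
def pushAll (r : ℕ) : List Bool → Cmd
  | [] => .nop
  | b :: l => .seq (pushAll r l) (.push r b)

theorem execLe_pushAll (r : ℕ) (l : List Bool) (S : State) :
    ExecLe (pushAll r l) S (Function.update S r (l ++ S r)) (l.length + 1) := by
  induction l with
  | nil => simpa [pushAll] using execLe_nop S
  | cons b l ih =>
    have h := ih.seq (execLe_push r b _)
    rw [Function.update_self, Function.update_idem] at h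
    exact h.mono (by simp)

/-- write constants into a tree of registers -/
def constT : Tr ℕ → Tr (List Bool) → Cmd
  | leaf r, leaf v => pushAll r v
  | pair a b, pair v w => .seq (constT a v) (constT b w)
  | leaf _, pair _ _ => .nop
  | pair _ _, leaf _ => .nop

theorem execLe_constT (δ : Tr ℕ) (v : Tr (List Bool)) (S : State)
    (hs : δ.shape = v.shape) (hn : δ.leaves.Nodup) (he : ∀ r ∈ δ.leaves, S r = []) :
    ∃ S', ExecLe (constT δ v) S S' (v.size + δ.num) ∧ Holds δ v S' ∧
      ∀ r, r ∉ δ.leaves → S' r = S r := by
  induction δ generalizing v S with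
  | leaf b =>
    cases v with
    | leaf v =>
      simp only [leaves, List.mem_singleton, forall_eq] at he
      refine ⟨_, execLe_pushAll b v S, ?_, ?_⟩
      · simp only [Holds]
        rw [Function.update_self, he, List.append_nil]
      · intro r hr
        simp only [leaves, List.mem_singleton] at hr
        rw [Function.update_of_ne hr]
    | pair v w => simp [Tr.shape] at hs
  | pair c d iha ihb =>
    cases v with
    | leaf v => simp [Tr.shape] at hs
    | pair v w =>
      simp only [Tr.shape, Tr.pair.injEq] at hs
      simp only [leaves] at hn he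
      rw [List.nodup_append] at hn
      simp only [List.mem_append] at he
      obtain ⟨S1, h1, h1', h1''⟩ := iha v S hs.1 hn.1 (fun r hr => he r (Or.inl hr))
      obtain ⟨S2, h2, h2', h2''⟩ := ihb w S1 hs.2 hn.2.1
        (fun r hr => by rw [h1'' r fun hr' => hn.2.2 r hr' r hr rfl, he r (Or.inr hr)])
      refine ⟨S2, (h1.seq h2).mono ?_, ⟨h1'.congr ?_, h2'⟩, ?_⟩
      · simp only [Tr.size, Tr.num]; omega
      · intro r hr
        exact h2'' r fun hr' => hn.2.2 r hr r hr' rfl
      · intro r hr
        simp only [leaves, List.mem_append, not_or] at hr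
        rw [h2'' r hr.2, h1'' r hr.1]

end Pool.NPC
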